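import Pool.Agent.LibCoc63.Defs

/-!
Cochains of central simple algebras. F ≤ B ≤ Ω, ρ : D → M_n(Ω).
-/

set_option autoImplicit false

open Finset Module

namespace Pool.Agent.LibCoc63

section

variable {F Ω : Type*} [Field F] [Field Ω] [Algebra F Ω]
variable {D : Type*} [Ring D] [Algebra F D] {n : Type*} [Fintype n] [DecidableEq n]

/-- `ρ` induces an isomorphism of `Ω ⊗ D` with the matrix algebra. -/
def IsRep (ρ : D →ₐ[F] Matrix n n Ω) : Prop :=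
  Submodule.span Ω (Set.range ρ) = ⊤ ∧ finrank F D = Fintype.card n ^ 2

variable (B : Type*) [Field B] [Algebra F B] [Algebra B Ω] [IsScalarTower F B Ω]

/-- `A` and `δ` are the 1-cochain and the 2-cochain of `ρ`. -/
def IsCo (ρ : D →ₐ[F] Matrix n n Ω) (A : (Ω ≃ₐ[B] Ω) → (Matrix n n Ω)ˣ)
    (δ : (Ω ≃ₐ[B] Ω) → (Ω ≃ₐ[B] Ω) → Ωˣ) : Prop :=
  Cts A ∧ (∀ (g : Ω ≃ₐ[B] Ω) (d : D),
    (A g : Matrix n n Ω) * (ρ d).map g = ρ d * (A g : Matrix n n Ω)) ∧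
  ∀ g h : Ω ≃ₐ[B] Ω, (A g : Matrix n n Ω) * (A h : Matrix n n Ω).map g =
    (δ g h : Ω) • (A (g * h) : Matrix n n Ω)

/-- The class of the algebra `D` over `B`. -/
def IsCls (ρ : D →ₐ[F] Matrix n n Ω) (v : V B Ω) : Prop :=
  ∃ A δ, IsCo B ρ A δ ∧ v = cl δ

end

end Pool.Agent.LibCoc63
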