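import Mathlib

/-!
[COC C2] A group acting on a set with l elements (l prime). The image of G in Perm(R) has an l-Sylow P; l² does not divide
l! = |Perm R|, so |P| = 1 or l, P = ⟨s⟩; H = preimage of P. If s ≠ 1 then s is an l-cycle on R (its orbits have length
1 or l, not all 1). χ : chosen as a function of the permutation of R given by (r x)⁻¹ g r(g⁻¹ x), in [0, l).
-/

set_option autoImplicit false

open Finset

namespace Pool.Agent.LibCoc63

private lemma c2_card {R : Type*} [Fintype R] {l : ℕ} (hl : l.Prime) (hR : Fintype.card R = l)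
    (K : Subgroup (Equiv.Perm R)) (P : Subgroup K) {n : ℕ} (hP : Nat.card P = l ^ n) :
    n ≤ 1 := by
  classical
  by_contra hn
  have h1 : l ^ 2 ∣ l.factorial := by
    have h2 : l ^ 2 ∣ Nat.card P := by
      rw [hP]
      exact pow_dvd_pow l (by omega)
    have h3 : Nat.card (Equiv.Perm R) = l.factorial := by
      rw [Nat.card_eq_fintype_card, Fintype.card_perm, hR]
    rw [← h3]
    exact h2.trans ((Subgroup.card_subgroup_dvd_card P).trans (Subgroup.card_subgroup_dvd_card K))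
  obtain ⟨m, rfl⟩ : ∃ m, l = m + 1 := ⟨l - 1, (Nat.succ_pred_eq_of_pos hl.pos).symm⟩
  rw [Nat.factorial_succ, sq] at h1
  have h4 := Nat.dvd_of_mul_dvd_mul_left (Nat.succ_pos m) h1
  have h5 := (hl.dvd_factorial).1 h4
  omega

theorem exists_sylow {G R : Type*} [Group G] [MulAction G R] [Fintype R] {l : ℕ} (hl : l.Prime)
    (hR : Fintype.card R = l) : ∃ H : Subgroup G, H.index ≠ 0 ∧ H.index.Coprime l ∧
      (∀ g : G, (∀ θ : R, g • θ = θ) → ∀ u : G, u⁻¹ * g * u ∈ H) ∧
      ∃ s ∈ H, (∀ θ : R, s ^ l • θ = θ) ∧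
        (∀ h ∈ H, ∃ i : ℕ, ∀ θ : R, h • θ = s ^ i • θ) ∧
        ((∀ θ : R, s • θ = θ) ∨ (∀ (θ : R) (i : ℕ), s ^ i • θ = θ → l ∣ i)) := by
  classical
  haveI : Fact l.Prime := ⟨hl⟩
  set φ : G →* Equiv.Perm R := MulAction.toPermHom G R with hφ
  have hφa : ∀ (g : G) (θ : R), φ g θ = g • θ := fun g θ => rfl
  have hker : ∀ g : G, (∀ θ : R, g • θ = θ) → φ g = 1 := fun g h => Equiv.ext h
  obtain ⟨P⟩ : Nonempty (Sylow l φ.range) := inferInstance
  obtain ⟨n, hn⟩ := IsPGroup.iff_card.1 P.2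
  have hn1 : n ≤ 1 := c2_card hl hR φ.range P hn
  haveI hcyc : IsCyclic P := by
    rcases Nat.le_one_iff_eq_zero_or_eq_one.1 hn1 with h | h
    · rw [h, pow_zero] at hn
      haveI : Subsingleton P := (Nat.card_eq_one_iff_unique.1 hn).1
      infer_instance
    · rw [h, pow_one] at hn
      exact isCyclic_of_prime_card hn
  obtain ⟨s₀, hs₀⟩ := IsCyclic.exists_generator (α := P)
  have hs₀l : s₀ ^ l = 1 := by
    have h1 : s₀ ^ Nat.card P = 1 := pow_card_eq_one'
    have h2 : Nat.card P ∣ l := by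
      rw [hn]
      calc l ^ n ∣ l ^ 1 := pow_dvd_pow l hn1
        _ = l := pow_one l
    exact orderOf_dvd_iff_pow_eq_one.1 ((orderOf_dvd_of_pow_eq_one h1).trans h2)
  obtain ⟨s, hs⟩ := φ.rangeRestrict_surjective (s₀ : φ.range)
  have hsφ : φ s = ((s₀ : φ.range) : Equiv.Perm R) := congrArg Subtype.val hs
  have hsi : ∀ i : ℕ, φ (s ^ i) = (((s₀ ^ i : P) : φ.range) : Equiv.Perm R) := by
    intro i
    rw [map_pow, hsφ]
    rfl
  refine ⟨(P : Subgroup φ.range).comap φ.rangeRestrict, ?_, ?_, ?_, s, ?_, ?_, ?_, ?_⟩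
  · rw [Subgroup.index_comap_of_surjective _ φ.rangeRestrict_surjective]
    exact Subgroup.index_ne_zero_of_finite
  · rw [Subgroup.index_comap_of_surjective _ φ.rangeRestrict_surjective]
    exact ((hl.coprime_iff_not_dvd).2 P.not_dvd_index).symm
  · intro g hg u
    have h1 : φ.rangeRestrict (u⁻¹ * g * u) = 1 := by
      apply Subtype.ext
      show φ (u⁻¹ * g * u) = 1
      rw [map_mul, map_mul, hker g hg, mul_one, ← map_mul, inv_mul_cancel, map_one]
    rw [Subgroup.mem_comap, h1]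
    exact one_mem _
  · rw [Subgroup.mem_comap, hs]
    exact s₀.2
  · intro θ
    rw [← hφa, hsi, hs₀l]
    rfl
  · intro h hh
    rw [Subgroup.mem_comap] at hh
    obtain ⟨i, hi⟩ := mem_powers_iff_mem_zpowers.2 (hs₀ ⟨φ.rangeRestrict h, hh⟩)
    refine ⟨i, fun θ => ?_⟩
    rw [← hφa, ← hφa, hsi]
    have h1 : φ h = (((s₀ ^ i : P) : φ.range) : Equiv.Perm R) := by
      have : s₀ ^ i = ⟨φ.rangeRestrict h, hh⟩ := hi
      rw [this]
      rfl
    rw [h1]
  · by_cases h1 : φ s = 1
    · left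
      intro θ
      rw [← hφa, h1]
      rfl
    · right
      have hsl : (φ s) ^ l = 1 := by
        rw [← map_pow, hsi, hs₀l]
        rfl
      have hord : orderOf (φ s) = l := orderOf_eq_prime hsl h1
      have hcy : (φ s).IsCycle :=
        Equiv.Perm.isCycle_of_prime_order'' (by rw [hR]; exact hl) (by rw [hord, hR])
      have hsupp : (φ s).support = Finset.univ := by
        rw [← Finset.card_eq_iff_eq_univ, ← hcy.orderOf, hord, hR]
      intro θ i hi
      have h2 : (φ s) θ ≠ θ := by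
        rw [← Equiv.Perm.mem_support, hsupp]
        exact Finset.mem_univ θ
      have h3 : (φ s) ^ i = 1 := (hcy.pow_eq_one_iff' h2).2 (by rw [← map_pow]; exact hi)
      rw [← hord]
      exact orderOf_dvd_of_pow_eq_one h3

end Pool.Agent.LibCoc63
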