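import Pool.Agent.LibCoc63.Comb
import Pool.Agent.LibCoc63.SylowR

/-!
[COC C3] The data (X, r, s, χ, k) from a continuous action on a set R with l elements: X = (Ω ≃ₐ[B] Ω) ⧸ H,
r = Quotient.out, (r x)⁻¹ g r(g⁻¹ x) ∈ H; χ g x ∈ [0, l) a function of the permutation of R it induces, with χ = 0 in the
case where s acts trivially. Continuity: g, g' which agree on T_R act in the same way on R and (third property of H)
on X. k from the l-cycle property (or k = 0). Last part: in the l-cycle case, for R ⊆ Ω and ζ: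
ξ x = ∑_(i<l) ζ^(-i) (r x s^i θ₀)^j is nonzero for one j < l (Vandermonde at x with r x; all x are conjugate:
transitivity, g ξ(x) = ζ^.. ξ(g x)), and act g (ξ (g⁻¹ x)) = ζ^(χ g x) ξ x.
-/

set_option autoImplicit false

open Finset

namespace Pool.Agent.LibCoc63

variable {B Ω : Type*} [Field B] [Field Ω] [Algebra B Ω]

/-- A sum over a period is invariant under shifts. -/
private lemma sum_shift {M : Type*} [AddCommGroup M] (F : ℕ → M) (l : ℕ)
    (hF : ∀ i, F (i + l) = F i) (c : ℕ) :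
    ∑ i ∈ range l, F (i + c) = ∑ i ∈ range l, F i := by
  induction c with
  | zero => simp
  | succ c ih =>
    rw [← ih]
    have h1 := Finset.sum_range_succ (fun i => F (i + c)) l
    have h2 := Finset.sum_range_succ' (fun i => F (i + c)) l
    have h3 : F (0 + c) = F (l + c) := by rw [add_comm l c, hF c, zero_add]
    have h4 : ∑ i ∈ range l, F (i + 1 + c) = ∑ i ∈ range l, F (i + c) := by
      have h5 := h2.symm.trans h1
      rw [h3] at h5
      exact add_right_cancel h5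
    rw [← h4]
    refine Finset.sum_congr rfl fun i _ => ?_
    congr 1
    ring

open Classical in
/-- The exponent of a permutation which is a power of `s`. -/
private noncomputable def ex {G R : Type*} [Group G] [MulAction G R] (s : G) (π : R → R) : ℕ :=
  if h : ∃ i : ℕ, ∀ θ : R, π θ = s ^ i • θ then Nat.find h else 0

private lemma ex_spec {G R : Type*} [Group G] [MulAction G R] {s : G} {π : R → R}
    (h : ∃ i : ℕ, ∀ θ : R, π θ = s ^ i • θ) (θ : R) : π θ = s ^ (ex s π) • θ := by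
  classical
  unfold ex
  rw [dif_pos h]
  convert Nat.find_spec h θ

private lemma ex_le {G R : Type*} [Group G] [MulAction G R] {s : G} {π : R → R} {i : ℕ}
    (h : ∀ θ : R, π θ = s ^ i • θ) : ex s π ≤ i := by
  classical
  unfold ex
  rw [dif_pos ⟨i, h⟩]
  exact Nat.find_min' (p := fun i : ℕ => ∀ θ : R, π θ = s ^ i • θ) ⟨i, h⟩ h

private lemma pow_mod_smul {G R : Type*} [Group G] [MulAction G R] {s : G} {l : ℕ}
    (hs : ∀ θ : R, s ^ l • θ = θ) (i : ℕ) (θ : R) : s ^ (i % l) • θ = s ^ i • θ := by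
  have h1 : ∀ (q : ℕ) (θ : R), s ^ (l * q) • θ = θ := by
    intro q
    induction q with
    | zero => intro θ; simp
    | succ q ih => intro θ; rw [mul_add, mul_one, pow_add, mul_smul, hs, ih]
  conv_rhs => rw [← Nat.mod_add_div i l]
  rw [pow_add, mul_smul, h1]

/-- The data of the combinatorial core. -/
theorem exists_chi {R : Type*} [Fintype R] [MulAction (Ω ≃ₐ[B] Ω) R] [CtsSet B Ω R] {l : ℕ}
    (hl : l.Prime) (hR : Fintype.card R = l) (θ₀ : R) (ι : R → Ω) (hι : Function.Injective ι)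
    (hιg : ∀ (g : Ω ≃ₐ[B] Ω) (θ : R), ι (g • θ) = g (ι θ)) :
    ∃ H : Subgroup (Ω ≃ₐ[B] Ω), ∃ _ : Fintype ((Ω ≃ₐ[B] Ω) ⧸ H),
      CtsSet B Ω ((Ω ≃ₐ[B] Ω) ⧸ H) ∧ (Fintype.card ((Ω ≃ₐ[B] Ω) ⧸ H)).Coprime l ∧
      ∃ (r : (Ω ≃ₐ[B] Ω) ⧸ H → (Ω ≃ₐ[B] Ω)) (s : Ω ≃ₐ[B] Ω)
        (χ : (Ω ≃ₐ[B] Ω) → (Ω ≃ₐ[B] Ω) ⧸ H → ℕ)
        (k : (Ω ≃ₐ[B] Ω) → (Ω ≃ₐ[B] Ω) → (Ω ≃ₐ[B] Ω) ⧸ H → ℕ),
        (∀ θ : R, s ^ l • θ = θ) ∧ Cts χ ∧
        (∀ g x (θ : R), (g * r (g⁻¹ • x)) • θ = (r x * s ^ χ g x) • θ) ∧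
        (∀ g h x, χ g x + χ h (g⁻¹ • x) = χ (g * h) x + l * k g h x) ∧
        ∀ z : PR B Ω l, ∃ ξ : (Ω ≃ₐ[B] Ω) ⧸ H → Ωˣ,
          ∀ g x, act g (ξ (g⁻¹ • x)) = z.ζ ^ χ g x * ξ x := by
  classical
  obtain ⟨H, hidx, hcop, hker, s, hsH, hsl, hpow, hcyc⟩ :=
    exists_sylow (G := Ω ≃ₐ[B] Ω) (R := R) hl hR
  haveI : H.FiniteIndex := ⟨hidx⟩
  let fin : Fintype ((Ω ≃ₐ[B] Ω) ⧸ H) := H.fintypeQuotientOfFiniteIndex
  have hcts : CtsSet B Ω ((Ω ≃ₐ[B] Ω) ⧸ H) := by
    obtain ⟨T, hT⟩ := CtsSet.out (B := B) (Ω := Ω) (X := R)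
    refine ⟨T, fun g hg x => ?_⟩
    induction x using QuotientGroup.induction_on with
    | H u =>
      change ((g * u : Ω ≃ₐ[B] Ω) : (Ω ≃ₐ[B] Ω) ⧸ H) = u
      rw [eq_comm, QuotientGroup.eq, ← mul_assoc]
      exact hker g (hT g hg) u
  refine ⟨H, fin, hcts, ?_, ?_⟩
  · have h1 : Fintype.card ((Ω ≃ₐ[B] Ω) ⧸ H) = H.index := by
      rw [Subgroup.index_eq_card, Nat.card_eq_fintype_card]
    rw [h1]
    exact hcop
  let r : (Ω ≃ₐ[B] Ω) ⧸ H → (Ω ≃ₐ[B] Ω) := Quotient.out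
  have hr : ∀ x, ((r x : Ω ≃ₐ[B] Ω) : (Ω ≃ₐ[B] Ω) ⧸ H) = x := fun x => QuotientGroup.out_eq' x
  let t : (Ω ≃ₐ[B] Ω) → (Ω ≃ₐ[B] Ω) ⧸ H → (Ω ≃ₐ[B] Ω) := fun g x => (r x)⁻¹ * g * r (g⁻¹ • x)
  have ht : ∀ g x, t g x ∈ H := by
    intro g x
    have h1 : ((g * r (g⁻¹ • x) : Ω ≃ₐ[B] Ω) : (Ω ≃ₐ[B] Ω) ⧸ H) = (r x : Ω ≃ₐ[B] Ω) := by
      have h2 : ((g * r (g⁻¹ • x) : Ω ≃ₐ[B] Ω) : (Ω ≃ₐ[B] Ω) ⧸ H)
          = g • ((r (g⁻¹ • x) : Ω ≃ₐ[B] Ω) : (Ω ≃ₐ[B] Ω) ⧸ H) := rfl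
      rw [h2, hr, hr, smul_inv_smul]
    rw [eq_comm, QuotientGroup.eq, ← mul_assoc] at h1
    exact h1
  let χ : (Ω ≃ₐ[B] Ω) → (Ω ≃ₐ[B] Ω) ⧸ H → ℕ := fun g x => ex s (fun θ : R => t g x • θ)
  have hχt : ∀ g x (θ : R), t g x • θ = s ^ χ g x • θ := by
    intro g x θ
    exact ex_spec (π := fun θ : R => t g x • θ) (hpow (t g x) (ht g x)) θ
  have hχl : ∀ g x, χ g x < l := by
    intro g x
    obtain ⟨i, hi⟩ := hpow (t g x) (ht g x)
    have h1 : χ g x ≤ i % l :=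
      ex_le (π := fun θ : R => t g x • θ) (fun θ => by rw [pow_mod_smul hsl, hi])
    exact lt_of_le_of_lt h1 (Nat.mod_lt _ hl.pos)
  have htt : ∀ g h x, t g x * t h (g⁻¹ • x) = t (g * h) x := by
    intro g h x
    change (r x)⁻¹ * g * r (g⁻¹ • x) * ((r (g⁻¹ • x))⁻¹ * h * r (h⁻¹ • g⁻¹ • x)) =
      (r x)⁻¹ * (g * h) * r ((g * h)⁻¹ • x)
    rw [mul_inv_rev, mul_smul]
    group
  have hχχ : ∀ g h x (θ : R), s ^ (χ g x + χ h (g⁻¹ • x)) • θ = s ^ χ (g * h) x • θ := by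
    intro g h x θ
    rw [pow_add, mul_smul, ← hχt h, ← hχt g, ← hχt (g * h), ← mul_smul, htt]
  have hχ : ∀ g x (θ : R), (g * r (g⁻¹ • x)) • θ = (r x * s ^ χ g x) • θ := by
    intro g x θ
    rw [mul_smul (r x), ← hχt g x θ, ← mul_smul]
    congr 1
    change g * r (g⁻¹ • x) = r x * ((r x)⁻¹ * g * r (g⁻¹ • x))
    group
  have hk : ∀ g h x, ∃ k : ℕ, χ g x + χ h (g⁻¹ • x) = χ (g * h) x + l * k := by
    intro g h x
    rcases hcyc with htriv | hcyc
    · have h0 : ∀ g x, χ g x = 0 := by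
        intro g x
        have h1 : χ g x ≤ 0 := by
          refine ex_le (π := fun θ : R => t g x • θ) (fun θ => ?_)
          change t g x • θ = _
          rw [hχt, pow_zero, one_smul]
          have : ∀ n : ℕ, s ^ n • θ = θ := by
            intro n
            induction n with
            | zero => simp
            | succ n ih => rw [pow_succ, mul_smul, htriv, ih]
          exact this _
        omega
      exact ⟨0, by simp [h0]⟩
    · have h1 := hχχ g h x θ₀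
      rcases le_or_gt (χ (g * h) x) (χ g x + χ h (g⁻¹ • x)) with hle | hlt
      · have h2 : s ^ (χ g x + χ h (g⁻¹ • x) - χ (g * h) x) • θ₀ = θ₀ := by
          have h3 : s ^ (χ (g * h) x) • s ^ (χ g x + χ h (g⁻¹ • x) - χ (g * h) x) • θ₀ =
              s ^ (χ (g * h) x) • θ₀ := by
            rw [← mul_smul, ← pow_add, Nat.add_sub_cancel' hle, h1]
          exact smul_left_cancel _ h3
        obtain ⟨k, hk⟩ := hcyc θ₀ _ h2
        exact ⟨k, by omega⟩
      · exfalso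
        have h2 : s ^ (χ (g * h) x - (χ g x + χ h (g⁻¹ • x))) • θ₀ = θ₀ := by
          have h3 : s ^ (χ g x + χ h (g⁻¹ • x)) •
              s ^ (χ (g * h) x - (χ g x + χ h (g⁻¹ • x))) • θ₀ =
              s ^ (χ g x + χ h (g⁻¹ • x)) • θ₀ := by
            rw [← mul_smul, ← pow_add, Nat.add_sub_cancel' hlt.le, h1]
          exact smul_left_cancel _ h3
        have h3 := hcyc θ₀ _ h2
        have h4 := Nat.le_of_dvd (by omega) h3
        have h5 := hχl (g * h) x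
        omega
  choose k hk using hk
  refine ⟨r, s, χ, k, hsl, ?_, hχ, hk, ?_⟩
  · obtain ⟨T, hT⟩ := CtsSet.smul_cts (B := B) (Ω := Ω) (X := R)
    obtain ⟨T', hT'⟩ := CtsSet.inv_smul_cts (B := B) (Ω := Ω) (X := (Ω ≃ₐ[B] Ω) ⧸ H)
    refine ⟨T ∪ T', fun g g' h => ?_⟩
    have h1 := hT g g' (fun t ht => h t (mem_union_left _ ht))
    have h2 := hT' g g' (fun t ht => h t (mem_union_right _ ht))
    funext x
    change ex s (fun θ : R => t g x • θ) = ex s (fun θ : R => t g' x • θ)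
    congr 1
    funext θ
    change ((r x)⁻¹ * g * r (g⁻¹ • x)) • θ = ((r x)⁻¹ * g' * r (g'⁻¹ • x)) • θ
    rw [h2 x, mul_smul, mul_smul, mul_smul, mul_smul, h1]
  · intro z
    rcases hcyc with htriv | hcyc
    · refine ⟨1, fun g x => ?_⟩
      have h0 : χ g x = 0 := by
        have h1 : χ g x ≤ 0 := by
          refine ex_le (π := fun θ : R => t g x • θ) (fun θ => ?_)
          change t g x • θ = _
          rw [hχt, pow_zero, one_smul]
          have : ∀ n : ℕ, s ^ n • θ = θ := by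
            intro n
            induction n with
            | zero => simp
            | succ n ih => rw [pow_succ, mul_smul, htriv, ih]
          exact this _
        omega
      rw [h0]
      simp
    -- the l-cycle case
    set ζ : Ω := (z.ζ : Ω) with hζdef
    have hζl : ζ ^ l = 1 := by
      have := z.prim.pow_eq_one
      rw [hζdef, ← Units.val_pow_eq_pow_val, this, Units.val_one]
    have hζ0 : ζ ≠ 0 := z.ζ.ne_zero
    have hfixζ : ∀ g : Ω ≃ₐ[B] Ω, g ζ = ζ := fun g => by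
      have := congrArg Units.val (z.fix g)
      simpa using this
    let f : ℕ → (Ω ≃ₐ[B] Ω) ⧸ H → ℕ → Ω := fun j x i => ι ((r x * s ^ i) • θ₀) ^ j
    let Ξ : ℕ → (Ω ≃ₐ[B] Ω) ⧸ H → Ω := fun j x => ∑ i ∈ range l, ζ⁻¹ ^ i * f j x i
    have hΞ : ∀ j g x, g (Ξ j (g⁻¹ • x)) = ζ ^ χ g x * Ξ j x := by
      intro j g x
      have h1 : ∀ i, g (f j (g⁻¹ • x) i) = f j x (i + χ g x) := by
        intro i
        change g (ι ((r (g⁻¹ • x) * s ^ i) • θ₀) ^ j) = ι ((r x * s ^ (i + χ g x)) • θ₀) ^ j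
        rw [map_pow, ← hιg, ← mul_smul, ← mul_assoc, mul_smul, hχ, ← mul_smul, mul_assoc,
          ← pow_add, add_comm i]
      have h2 : g (Ξ j (g⁻¹ • x)) = ∑ i ∈ range l, ζ⁻¹ ^ i * f j x (i + χ g x) := by
        change g (∑ i ∈ range l, ζ⁻¹ ^ i * f j (g⁻¹ • x) i) = _
        rw [map_sum]
        refine Finset.sum_congr rfl fun i _ => ?_
        rw [map_mul, map_pow, map_inv₀, hfixζ, h1]
      have h3 := sum_shift (fun i => ζ⁻¹ ^ i * f j x i) l (fun i => by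
        change ζ⁻¹ ^ (i + l) * (ι ((r x * s ^ (i + l)) • θ₀) ^ j) =
          ζ⁻¹ ^ i * (ι ((r x * s ^ i) • θ₀) ^ j)
        rw [pow_add, inv_pow ζ l, hζl, inv_one, mul_one, mul_smul (r x), pow_add, mul_smul (s ^ i),
          hsl, ← mul_smul]) (χ g x)
      rw [h2]
      change _ = ζ ^ χ g x * ∑ i ∈ range l, ζ⁻¹ ^ i * f j x i
      rw [← h3, Finset.mul_sum]
      refine Finset.sum_congr rfl fun i _ => ?_
      rw [pow_add, ← mul_assoc, ← mul_assoc]
      congr 1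
      rw [mul_comm (ζ ^ χ g x), mul_assoc, inv_pow ζ (χ g x),
        mul_inv_cancel₀ (pow_ne_zero _ hζ0), mul_one]
    have hne : ∀ x, ∃ j : ℕ, Ξ j x ≠ 0 := by
      intro x
      by_contra hcon
      push Not at hcon
      have hinj : Function.Injective (fun i : Fin l => ι ((r x * s ^ (i : ℕ)) • θ₀)) := by
        have key : ∀ a b : ℕ, a ≤ b → b < l → s ^ a • θ₀ = s ^ b • θ₀ → a = b := by
          intro a b hab hb h
          have h1 : s ^ (b - a) • θ₀ = θ₀ := by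
            have h2 : s ^ a • s ^ (b - a) • θ₀ = s ^ a • θ₀ := by
              rw [← mul_smul, ← pow_add, Nat.add_sub_cancel' hab, h]
            exact smul_left_cancel _ h2
          have h2 := hcyc θ₀ _ h1
          rcases Nat.eq_zero_or_pos (b - a) with h3 | h3
          · omega
          · have := Nat.le_of_dvd h3 h2
            omega
        intro a b hab
        have h1 := hι hab
        rw [mul_smul, mul_smul] at h1
        have h2 := smul_left_cancel _ h1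
        rcases le_total (a : ℕ) (b : ℕ) with h | h
        · exact Fin.ext (key _ _ h b.2 h2)
        · exact Fin.ext (key _ _ h a.2 h2.symm).symm
      have hz := Matrix.eq_zero_of_forall_pow_sum_mul_pow_eq_zero
        (f := fun i : Fin l => ι ((r x * s ^ (i : ℕ)) • θ₀))
        (v := fun i : Fin l => ζ⁻¹ ^ (i : ℕ)) hinj (fun j => by
          have h1 := hcon j
          change ∑ i ∈ range l, ζ⁻¹ ^ i * f j x i = 0 at h1
          rw [Finset.sum_range] at h1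
          exact h1)
      have h1 := congrFun hz ⟨0, hl.pos⟩
      simp at h1
    obtain ⟨j, hj⟩ := hne ((1 : Ω ≃ₐ[B] Ω) : (Ω ≃ₐ[B] Ω) ⧸ H)
    have hall : ∀ x, Ξ j x ≠ 0 := by
      intro x
      induction x using QuotientGroup.induction_on with
      | H u =>
        intro h0
        have h1 := hΞ j u ((u : Ω ≃ₐ[B] Ω) : (Ω ≃ₐ[B] Ω) ⧸ H)
        have h2 : u⁻¹ • ((u : Ω ≃ₐ[B] Ω) : (Ω ≃ₐ[B] Ω) ⧸ H) =
            ((1 : Ω ≃ₐ[B] Ω) : (Ω ≃ₐ[B] Ω) ⧸ H) := by
          change ((u⁻¹ * u : Ω ≃ₐ[B] Ω) : (Ω ≃ₐ[B] Ω) ⧸ H) = _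
          rw [inv_mul_cancel]
        rw [h0, mul_zero, h2, map_eq_zero] at h1
        exact hj h1
    refine ⟨fun x => Units.mk0 (Ξ j x) (hall x), fun g x => ?_⟩
    ext
    simp only [coe_act, Units.val_mk0, Units.val_mul, Units.val_pow_eq_pow_val]
    exact hΞ j g x

end Pool.Agent.LibCoc63
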