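import Pool.Agent.LibCoc63.Conj

/-!
[COC A2] The class of an algebra. exists_isCls: A g := a unit U with U * φ d = ρ d * U for φ = (d ↦ (ρ d).map g), chosen as a
function of φ (exists_conj; φ is an F-algebra homomorphism), so that A is continuous: φ depends only on g on the entries of
ρ(basis of D). δ from commutant: A g * (A h).map g * (A (g h))⁻¹ commutes with ρ(D).
unique: ρ' ∘ e = conjugate of ρ; A' g = λ g • P * A g * (P⁻¹).map g, λ continuous, δ' = δ * bd λ.
pow: det: det(A g) * g(det(A h)) = δ^n * det(A (g h)).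
-/

set_option autoImplicit false

open Finset Module

namespace Pool.Agent.LibCoc63

variable {F B Ω : Type*} [Field F] [Field B] [Field Ω] [Algebra F B] [Algebra B Ω] [Algebra F Ω]
  [IsScalarTower F B Ω]
variable {D : Type*} [Ring D] [Algebra F D] {n : Type*} [Fintype n] [DecidableEq n]

omit [Fintype n] [DecidableEq n] in
lemma map_map_mul (g h : Ω ≃ₐ[B] Ω) (M : Matrix n n Ω) : (M.map h).map g = M.map (g * h) := by
  ext i j; simp

omit [DecidableEq n] in
lemma map_mul_alg (g : Ω ≃ₐ[B] Ω) (M N : Matrix n n Ω) : (M * N).map g = M.map g * N.map g := by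
  ext i j; simp [Matrix.mul_apply]

omit [Fintype n] in
lemma map_one_alg (g : Ω ≃ₐ[B] Ω) : (1 : Matrix n n Ω).map g = 1 := by
  ext i j
  rw [Matrix.map_apply, Matrix.one_apply]
  split_ifs <;> simp

omit [Fintype n] [DecidableEq n] in
lemma map_smul_alg (g : Ω ≃ₐ[B] Ω) (c : Ω) (M : Matrix n n Ω) : (c • M).map g = g c • M.map g := by
  ext i j; simp

/-- The conjugate representation. -/
def conjRep (g : Ω ≃ₐ[B] Ω) (ρ : D →ₐ[F] Matrix n n Ω) : D →ₐ[F] Matrix n n Ω :=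
  ((g.restrictScalars F : Ω ≃ₐ[F] Ω) : Ω →ₐ[F] Ω).mapMatrix.comp ρ

lemma conjRep_apply (g : Ω ≃ₐ[B] Ω) (ρ : D →ₐ[F] Matrix n n Ω) (d : D) :
    conjRep g ρ d = (ρ d).map g := rfl

lemma cts_conjRep [Nonempty n] {ρ : D →ₐ[F] Matrix n n Ω} (hρ : IsRep ρ) :
    Cts (fun g : Ω ≃ₐ[B] Ω => conjRep g ρ) := by
  have := hρ.finiteDimensional
  let b := Module.finBasis F D
  have h : Cts (fun g : Ω ≃ₐ[B] Ω => fun i : Fin (finrank F D) => fun k : n => fun l : n => g (ρ (b i) k l)) :=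
    Cts.pi fun i => Cts.pi fun k => Cts.pi fun l => Cts.eval _
  obtain ⟨T, hT⟩ := h
  refine ⟨T, fun g g' hg => ?_⟩
  have h1 := hT g g' hg
  apply AlgHom.toLinearMap_injective
  apply b.ext
  intro i
  change conjRep g ρ (b i) = conjRep g' ρ (b i)
  rw [conjRep_apply, conjRep_apply]
  ext k l
  exact congrFun (congrFun (congrFun h1 i) k) l

theorem exists_isCls (B : Type*) [Field B] [Algebra F B] [Algebra B Ω] [IsScalarTower F B Ω]
    [Nonempty n] {ρ : D →ₐ[F] Matrix n n Ω} (hρ : IsRep ρ) :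
    ∃ v : V B Ω, IsCls B ρ v := by
  choose U hU using fun φ : D →ₐ[F] Matrix n n Ω => hρ.exists_conj φ
  have key : ∀ g h : Ω ≃ₐ[B] Ω, ∃ c : Ωˣ, (U (conjRep g ρ) : Matrix n n Ω) *
      (U (conjRep h ρ) : Matrix n n Ω).map g = (c : Ω) • (U (conjRep (g * h) ρ) : Matrix n n Ω) := by
    intro g h
    have r1 : ∀ (g : Ω ≃ₐ[B] Ω) (d : D), (U (conjRep g ρ) : Matrix n n Ω) * (ρ d).map g =
        ρ d * (U (conjRep g ρ) : Matrix n n Ω) := fun g d => hU (conjRep g ρ) d
    set A := U (conjRep g ρ) with hA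
    set C := U (conjRep h ρ) with hC
    set E := U (conjRep (g * h) ρ) with hE
    have r2 : ∀ d : D, (C : Matrix n n Ω).map g * (ρ d).map (g * h) =
        (ρ d).map g * (C : Matrix n n Ω).map g := by
      intro d
      have h1 := congrArg (fun M : Matrix n n Ω => M.map g) (r1 h d)
      simp only [map_mul_alg, map_map_mul] at h1
      exact h1
    have r3 : ∀ d : D, ((E⁻¹ : (Matrix n n Ω)ˣ) : Matrix n n Ω) * ρ d =
        (ρ d).map (g * h) * ((E⁻¹ : (Matrix n n Ω)ˣ) : Matrix n n Ω) := by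
      intro d
      have h1 := r1 (g * h) d
      rw [← hE] at h1
      rw [Units.inv_mul_eq_iff_eq_mul, ← mul_assoc, Units.eq_mul_inv_iff_mul_eq]
      exact h1.symm
    have hcomm : ∀ d : D, ((A : Matrix n n Ω) * (C : Matrix n n Ω).map g *
        ((E⁻¹ : (Matrix n n Ω)ˣ) : Matrix n n Ω)) * ρ d =
        ρ d * ((A : Matrix n n Ω) * (C : Matrix n n Ω).map g * ((E⁻¹ : (Matrix n n Ω)ˣ) : Matrix n n Ω)) := by
      intro d
      rw [mul_assoc, r3, ← mul_assoc, mul_assoc (A : Matrix n n Ω), r2, ← mul_assoc, r1 g d, mul_assoc (ρ d),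
        mul_assoc (ρ d)]
    obtain ⟨c, hc⟩ := hρ.commutant hcomm
    have hc' : (A : Matrix n n Ω) * (C : Matrix n n Ω).map g = c • (E : Matrix n n Ω) := by
      rw [Units.mul_inv_eq_iff_eq_mul] at hc
      rw [hc, smul_mul_assoc, one_mul]
    have hc0 : c ≠ 0 := by
      rintro rfl
      rw [zero_smul] at hc'
      have h1 : (C : Matrix n n Ω).map g = 0 := by
        have := congrArg (fun M : Matrix n n Ω => ((A⁻¹ : (Matrix n n Ω)ˣ) : Matrix n n Ω) * M) hc'
        simpa using this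
      have h2 : (C : Matrix n n Ω) = 0 := by
        ext i j
        have := congrFun (congrFun h1 i) j
        rw [Matrix.map_apply, Matrix.zero_apply] at this
        rw [Matrix.zero_apply]
        exact (map_eq_zero g).1 this
      exact C.ne_zero h2
    exact ⟨Units.mk0 c hc0, hc'⟩
  choose δ hδ using key
  refine ⟨cl δ, fun g => U (conjRep g ρ), δ, ⟨?_, fun g d => hU (conjRep g ρ) d, hδ⟩, rfl⟩
  exact (cts_conjRep hρ).comp U

theorem isCls_unique [Nonempty n] {ρ : D →ₐ[F] Matrix n n Ω} (hρ : IsRep ρ) {D' : Type*} [Ring D']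
    [Algebra F D'] (e : D ≃ₐ[F] D') {n' : Type*} [Fintype n'] [DecidableEq n']
    {ρ' : D' →ₐ[F] Matrix n' n' Ω} (hρ' : IsRep ρ') {v v' : V B Ω} (h : IsCls B ρ v)
    (h' : IsCls B ρ' v') : v = v' := by
  obtain ⟨A, δ, ⟨hA, hAρ, hδ⟩, rfl⟩ := h
  obtain ⟨A', δ', ⟨hA', hAρ', hδ'⟩, rfl⟩ := h'
  -- the two index sets have the same size
  have hcard : Fintype.card n = Fintype.card n' := by
    have h1 : finrank F D = finrank F D' := e.toLinearEquiv.finrank_eq
    rw [hρ.2, hρ'.2] at h1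
    exact Nat.pow_left_injective (by norm_num : 2 ≠ 0) h1
  let σ : n' ≃ n := (Fintype.equivOfCardEq hcard).symm
  let R : Matrix n' n' Ω ≃ₐ[F] Matrix n n Ω := Matrix.reindexAlgEquiv F Ω σ
  have hR : ∀ (g : Ω ≃ₐ[B] Ω) (M : Matrix n' n' Ω), R (M.map g) = (R M).map g := by
    intro g M
    ext i j
    rfl
  have hRs : ∀ (c : Ω) (M : Matrix n' n' Ω), R (c • M) = c • R M := by
    intro c M
    ext i j
    rfl
  let ρ₁ : D →ₐ[F] Matrix n n Ω := (R : Matrix n' n' Ω →ₐ[F] Matrix n n Ω).comp (ρ'.comp (e : D →ₐ[F] D'))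
  have hρ₁ : ∀ d, ρ₁ d = R (ρ' (e d)) := fun d => rfl
  obtain ⟨P, hP⟩ := hρ.exists_conj ρ₁
  have hP' : ∀ d, ((P⁻¹ : (Matrix n n Ω)ˣ) : Matrix n n Ω) * ρ d = ρ₁ d * ((P⁻¹ : (Matrix n n Ω)ˣ) : Matrix n n Ω) := by
    intro d
    rw [Units.inv_mul_eq_iff_eq_mul, ← mul_assoc, Units.eq_mul_inv_iff_mul_eq]
    exact (hP d).symm
  let Q : Matrix n n Ω := ((P⁻¹ : (Matrix n n Ω)ˣ) : Matrix n n Ω)
  -- the transported cochain
  let N : (Ω ≃ₐ[B] Ω) → Matrix n n Ω := fun g => (P : Matrix n n Ω) * R (A' g) * Q.map g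
  have hPQ : (P : Matrix n n Ω) * Q = 1 := P.mul_inv
  have hQP : Q * (P : Matrix n n Ω) = 1 := P.inv_mul
  have hQPg : ∀ g : Ω ≃ₐ[B] Ω, Q.map g * (P : Matrix n n Ω).map g = 1 := by
    intro g
    rw [← map_mul_alg, hQP, map_one_alg]
  have hRA' : ∀ g (d : D), R (A' g) * (ρ₁ d).map g = ρ₁ d * R (A' g) := by
    intro g d
    rw [hρ₁, ← hR, ← map_mul, ← map_mul, hAρ']
  have hN : ∀ g (d : D), N g * (ρ d).map g = ρ d * N g := by
    intro g d
    have e1 : Q.map g * (ρ d).map g = (ρ₁ d).map g * Q.map g := by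
      rw [← map_mul_alg, ← map_mul_alg]
      exact congrArg (fun M : Matrix n n Ω => M.map g) (hP' d)
    change (P : Matrix n n Ω) * R (A' g) * Q.map g * (ρ d).map g = ρ d * ((P : Matrix n n Ω) * R (A' g) * Q.map g)
    rw [mul_assoc, e1, mul_assoc, ← mul_assoc (R (A' g) : Matrix n n Ω), hRA', ← mul_assoc, ← mul_assoc, hP,
      mul_assoc (ρ d), mul_assoc (ρ d), mul_assoc]
  -- the scalars
  have hex : ∀ g : Ω ≃ₐ[B] Ω, ∃ c : Ωˣ, N g = (c : Ω) • (A g : Matrix n n Ω) := by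
    intro g
    have r3 : ∀ d : D, (((A g)⁻¹ : (Matrix n n Ω)ˣ) : Matrix n n Ω) * ρ d =
        (ρ d).map g * (((A g)⁻¹ : (Matrix n n Ω)ˣ) : Matrix n n Ω) := by
      intro d
      rw [Units.inv_mul_eq_iff_eq_mul, ← mul_assoc, Units.eq_mul_inv_iff_mul_eq]
      exact (hAρ g d).symm
    have hcomm : ∀ d : D, (N g * (((A g)⁻¹ : (Matrix n n Ω)ˣ) : Matrix n n Ω)) * ρ d =
        ρ d * (N g * (((A g)⁻¹ : (Matrix n n Ω)ˣ) : Matrix n n Ω)) := by
      intro d
      rw [mul_assoc, r3, ← mul_assoc, hN, mul_assoc]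
    obtain ⟨c, hc⟩ := hρ.commutant hcomm
    rw [Units.mul_inv_eq_iff_eq_mul, smul_mul_assoc, one_mul] at hc
    have hc0 : c ≠ 0 := by
      rintro rfl
      rw [zero_smul] at hc
      have h1 : R (A' g) = 0 := by
        have h2 : Q * N g * (P : Matrix n n Ω).map g = R (A' g) := by
          change Q * ((P : Matrix n n Ω) * R (A' g) * Q.map g) * (P : Matrix n n Ω).map g = R (A' g)
          rw [mul_assoc (P : Matrix n n Ω), ← mul_assoc Q, hQP, one_mul, mul_assoc, hQPg, mul_one]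
        rw [← h2, hc, mul_zero, zero_mul]
      have h3 : (A' g : Matrix n' n' Ω) = 0 := by
        rwa [map_eq_zero_iff R R.injective] at h1
      have : Nonempty n' := σ.nonempty_congr.2 inferInstance
      exact (A' g).ne_zero h3
    exact ⟨Units.mk0 c hc0, hc⟩
  choose l hl using hex
  have hinj : ∀ (g : Ω ≃ₐ[B] Ω) (a b : Ω), a • (A g : Matrix n n Ω) = b • (A g : Matrix n n Ω) → a = b := by
    intro g a b hab
    have h1 := sub_eq_zero.2 hab
    rw [← sub_smul, smul_eq_zero] at h1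
    rcases h1 with h1 | h1
    · exact sub_eq_zero.1 h1
    · exact absurd h1 (A g).ne_zero
  have hcts : Cts l := by
    have h1 : Cts (fun g : Ω ≃ₐ[B] Ω => fun i : n => fun j : n => g (Q i j)) :=
      Cts.pi fun i => Cts.pi fun j => Cts.eval _
    obtain ⟨T, hT⟩ := (h1.prodMk (hA.prodMk hA'))
    refine ⟨T, fun g g' hg => ?_⟩
    have h2 := hT g g' hg
    rw [Prod.mk.injEq, Prod.mk.injEq] at h2
    obtain ⟨h3, h4, h5⟩ := h2
    have h6 : N g = N g' := by
      change (P : Matrix n n Ω) * R (A' g) * Q.map g = (P : Matrix n n Ω) * R (A' g') * Q.map g'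
      have h7 : Q.map g = Q.map g' := by
        ext i j
        exact congrFun (congrFun h3 i) j
      rw [h5, h7]
    rw [hl, hl, ← h4] at h6
    exact Units.ext (hinj g _ _ h6)
  symm
  refine cl_eq hcts fun g h => ?_
  rw [bd, ← mul_assoc, eq_mul_inv_iff_mul_eq]
  ext
  apply hinj (g * h)
  -- compute `N g * (N h)^g` in two ways
  have c1 : N g * (N h).map g = (δ' g h : Ω) • N (g * h) := by
    change (P : Matrix n n Ω) * R (A' g) * Q.map g * ((P : Matrix n n Ω) * R (A' h) * Q.map h).map g =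
      (δ' g h : Ω) • ((P : Matrix n n Ω) * R (A' (g * h)) * Q.map (g * h))
    rw [map_mul_alg, map_mul_alg, map_map_mul, ← mul_assoc, ← mul_assoc, mul_assoc ((P : Matrix n n Ω) * R (A' g)), hQPg,
      mul_one, ← hR, mul_assoc (P : Matrix n n Ω), ← map_mul, hδ', hRs, mul_smul_comm, smul_mul_assoc]
  have c2 : N g * (N h).map g = ((l g : Ω) * g (l h : Ω) * (δ g h : Ω)) • (A (g * h) : Matrix n n Ω) := by
    rw [hl, hl, map_smul_alg, smul_mul_assoc, mul_smul_comm, hδ, smul_smul, smul_smul]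
  rw [c2, hl, smul_smul] at c1
  simp only [Units.val_mul, coe_act]
  rw [← c1]
  congr 1
  ring

theorem isCls_pow {ρ : D →ₐ[F] Matrix n n Ω} {v : V B Ω} (h : IsCls B ρ v) :
    v ^ Fintype.card n = 1 := by
  obtain ⟨A, δ, ⟨hA, _, hδ⟩, rfl⟩ := h
  rw [← cl_pow, cl_eq_one]
  refine ⟨fun g => Units.map (Matrix.detMonoidHom : Matrix n n Ω →* Ω) (A g), hA.comp _, ?_⟩
  funext g h
  have h1 := congrArg Matrix.det (hδ g h)
  rw [Matrix.det_mul, Matrix.det_smul] at h1
  have h2 : ((A h : Matrix n n Ω).map g).det = g (A h : Matrix n n Ω).det := by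
    have := (AlgEquiv.map_det g (A h : Matrix n n Ω)).symm
    exact this
  rw [h2] at h1
  rw [bd, eq_mul_inv_iff_mul_eq]
  ext
  simpa using h1.symm

end Pool.Agent.LibCoc63
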