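import Pool.Agent.LibCoc63.Alg
import Pool.Agent.LibMS46.Central

set_option autoImplicit false

open Finset Module
open scoped TensorProduct

namespace Pool.Agent.LibCoc63

variable {F Ω : Type*} [Field F] [Field Ω] [Algebra F Ω]
variable {D : Type*} [Ring D] [Algebra F D] {n : Type*} [Fintype n] [DecidableEq n]

/-- The `Ω`-linear extension of `ρ`. -/
noncomputable def ext63 (ρ : D →ₐ[F] Matrix n n Ω) : Ω ⊗[F] D →ₐ[Ω] Matrix n n Ω :=
  Algebra.TensorProduct.lift (Algebra.ofId Ω (Matrix n n Ω)) ρ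
    (fun x y => Algebra.commutes x (ρ y))

theorem ext63_tmul (ρ : D →ₐ[F] Matrix n n Ω) (w : Ω) (d : D) :
    ext63 ρ (w ⊗ₜ d) = w • ρ d := by
  rw [Algebra.smul_def]
  exact Algebra.TensorProduct.lift_tmul _ _ _ _ _

theorem exists_rep (F Ω D : Type*) [Field F] [Field Ω] [Algebra F Ω] [IsAlgClosed Ω] [Ring D]
    [Algebra F D] [IsSimpleRing D] [Algebra.IsCentral F D] [FiniteDimensional F D] :
    ∃ m : ℕ, m ≠ 0 ∧ ∃ ρ : D →ₐ[F] Matrix (Fin m) (Fin m) Ω, IsRep ρ := by
  have h1 : IsSimpleRing (Ω ⊗[F] D) := LibMS46.isSimpleRing_baseChange F Ω D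
  obtain ⟨m, hm, ⟨e⟩⟩ := IsSimpleRing.exists_algEquiv_matrix_of_isAlgClosed Ω (Ω ⊗[F] D)
  refine ⟨m, hm.out, (e.toAlgHom.restrictScalars F).comp Algebra.TensorProduct.includeRight,
    ?_, ?_⟩
  · rw [eq_top_iff]
    intro M _
    obtain ⟨x, rfl⟩ := e.surjective M
    induction x using TensorProduct.induction_on with
    | zero => rw [map_zero]; exact zero_mem _
    | tmul w d =>
      have h2 : w ⊗ₜ[F] d = w • ((1 : Ω) ⊗ₜ[F] d) := by
        rw [TensorProduct.smul_tmul', smul_eq_mul, mul_one]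
      rw [h2, map_smul]
      exact Submodule.smul_mem _ _ (Submodule.subset_span ⟨d, rfl⟩)
    | add x y hx hy => rw [map_add]; exact add_mem (hx trivial) (hy trivial)
  · have h1 := e.toLinearEquiv.finrank_eq
    rw [Module.finrank_baseChange, Module.finrank_matrix] at h1
    rw [h1]
    simp [sq]

theorem IsRep.finiteDimensional [Nonempty n] {ρ : D →ₐ[F] Matrix n n Ω} (hρ : IsRep ρ) :
    FiniteDimensional F D := by
  apply Module.finite_of_finrank_pos
  rw [hρ.2]
  exact pow_pos Fintype.card_pos 2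

theorem IsRep.bijective [Nonempty n] {ρ : D →ₐ[F] Matrix n n Ω} (hρ : IsRep ρ) :
    Function.Bijective (ext63 ρ) := by
  have := hρ.finiteDimensional
  have hs : Function.Surjective (ext63 ρ).toLinearMap := by
    rw [← LinearMap.range_eq_top, eq_top_iff, ← hρ.1, Submodule.span_le]
    rintro _ ⟨d, rfl⟩
    exact ⟨1 ⊗ₜ d, by rw [AlgHom.toLinearMap_apply, ext63_tmul, one_smul]⟩
  have hd : finrank Ω (Ω ⊗[F] D) = finrank Ω (Matrix n n Ω) := by
    rw [Module.finrank_baseChange, Module.finrank_matrix, hρ.2]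
    simp [sq]
  exact ⟨(LinearMap.injective_iff_surjective_of_finrank_eq_finrank hd).2 hs, hs⟩

/-- A family which is linearly independent over `F` stays independent in the matrices over `Ω`. -/
theorem IsRep.linearIndependent [Nonempty n] {ρ : D →ₐ[F] Matrix n n Ω} (hρ : IsRep ρ)
    {ι : Type*} {v : ι → D} (hv : LinearIndependent F v) :
    LinearIndependent Ω (fun i => ρ (v i)) := by
  have h1 : LinearIndependent Ω (fun i => (1 : Ω) ⊗ₜ[F] v i) := by
    have hs : LinearIndepOn F id (Set.range v) := hv.linearIndepOn_id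
    let b := Module.Basis.extend hs
    have h3 := (Algebra.TensorProduct.basis Ω b).linearIndependent.comp
      (fun i => (⟨v i, hs.subset_extend _ ⟨i, rfl⟩⟩ : hs.extend (Set.subset_univ _)))
      (fun i j h => hv.injective (congrArg Subtype.val h))
    convert h3 using 1
    funext i
    rw [Function.comp_apply, Algebra.TensorProduct.basis_apply, Module.Basis.extend_apply_self]
  have h2 := h1.map' (ext63 ρ).toLinearMap (LinearMap.ker_eq_bot.2 hρ.bijective.1)
  have h4 : (fun i => ρ (v i)) = (ext63 ρ).toLinearMap ∘ fun i => (1 : Ω) ⊗ₜ[F] v i := by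
    funext i
    rw [Function.comp_apply, AlgHom.toLinearMap_apply, ext63_tmul, one_smul]
  rw [h4]
  exact h2

theorem IsRep.commutant {ρ : D →ₐ[F] Matrix n n Ω} (hρ : IsRep ρ) {M : Matrix n n Ω}
    (hM : ∀ d, M * ρ d = ρ d * M) : ∃ c : Ω, M = c • (1 : Matrix n n Ω) := by
  have h1 : ∀ N : Matrix n n Ω, M * N = N * M := by
    intro N
    have hN : N ∈ Submodule.span Ω (Set.range ρ) := by rw [hρ.1]; trivial
    induction hN using Submodule.span_induction with
    | mem x hx =>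
      obtain ⟨d, rfl⟩ := hx
      exact hM d
    | zero => rw [mul_zero, zero_mul]
    | add x y _ _ hx hy => rw [mul_add, add_mul, hx, hy]
    | smul c x _ hx => rw [mul_smul_comm, smul_mul_assoc, hx]
  have h2 : M ∈ Subalgebra.center Ω (Matrix n n Ω) :=
    Subalgebra.mem_center_iff.2 (fun N => (h1 N).symm)
  obtain ⟨c, hc⟩ := (Algebra.IsCentral.mem_center_iff Ω).1 h2
  exact ⟨c, by rw [hc, Algebra.algebraMap_eq_smul_one]⟩

theorem IsRep.exists_conj [Nonempty n] {ρ : D →ₐ[F] Matrix n n Ω} (hρ : IsRep ρ)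
    (ρ' : D →ₐ[F] Matrix n n Ω) :
    ∃ U : (Matrix n n Ω)ˣ, ∀ d, (U : Matrix n n Ω) * ρ' d = ρ d * (U : Matrix n n Ω) := by
  have hfin := hρ.finiteDimensional
  let e : Ω ⊗[F] D ≃ₐ[Ω] Matrix n n Ω := AlgEquiv.ofBijective (ext63 ρ) hρ.bijective
  have hs : IsSimpleRing (Ω ⊗[F] D) := IsSimpleRing.of_ringEquiv e.symm.toRingEquiv inferInstance
  have hinj : Function.Injective (ext63 ρ') := (ext63 ρ').toRingHom.injective
  have hd : finrank Ω (Ω ⊗[F] D) = finrank Ω (Matrix n n Ω) := e.toLinearEquiv.finrank_eq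
  have hsur : Function.Surjective (ext63 ρ') :=
    (LinearMap.injective_iff_surjective_of_finrank_eq_finrank hd (f := (ext63 ρ').toLinearMap)).1
      hinj
  let e' : Ω ⊗[F] D ≃ₐ[Ω] Matrix n n Ω := AlgEquiv.ofBijective (ext63 ρ') ⟨hinj, hsur⟩
  let f : Module.End Ω (n → Ω) ≃ₐ[Ω] Module.End Ω (n → Ω) :=
    ((Matrix.toLinAlgEquiv'.symm.trans e.symm).trans e').trans Matrix.toLinAlgEquiv'
  obtain ⟨T, hT⟩ := f.eq_linearEquivConjAlgEquiv
  have h1 : ∀ d, Matrix.toLinAlgEquiv' (ρ' d) = T.conjAlgEquiv Ω (Matrix.toLinAlgEquiv' (ρ d)) := by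
    intro d
    rw [← hT]
    have h2 : e (1 ⊗ₜ d) = ρ d := by
      show ext63 ρ (1 ⊗ₜ d) = ρ d
      rw [ext63_tmul, one_smul]
    have h3 : e' (1 ⊗ₜ d) = ρ' d := by
      show ext63 ρ' (1 ⊗ₜ d) = ρ' d
      rw [ext63_tmul, one_smul]
    show _ = Matrix.toLinAlgEquiv' (e' (e.symm (Matrix.toLinAlgEquiv'.symm
      (Matrix.toLinAlgEquiv' (ρ d)))))
    rw [AlgEquiv.symm_apply_apply, ← h2, AlgEquiv.symm_apply_apply, h3]
  let t : Module.End Ω (n → Ω) := T.toLinearMap
  let t' : Module.End Ω (n → Ω) := T.symm.toLinearMap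
  have ht : t * t' = 1 := LinearMap.ext (fun x => T.apply_symm_apply x)
  have ht' : t' * t = 1 := LinearMap.ext (fun x => T.symm_apply_apply x)
  refine ⟨⟨Matrix.toLinAlgEquiv'.symm t', Matrix.toLinAlgEquiv'.symm t, ?_, ?_⟩, fun d => ?_⟩
  · rw [← map_mul, ht', map_one]
  · rw [← map_mul, ht, map_one]
  · apply Matrix.toLinAlgEquiv'.injective
    show Matrix.toLinAlgEquiv' (Matrix.toLinAlgEquiv'.symm t' * ρ' d) =
      Matrix.toLinAlgEquiv' (ρ d * Matrix.toLinAlgEquiv'.symm t')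
    rw [map_mul, map_mul, AlgEquiv.apply_symm_apply, h1]
    refine LinearMap.ext (fun x => ?_)
    show T.symm (T (Matrix.toLinAlgEquiv' (ρ d) (T.symm x))) = _
    rw [LinearEquiv.symm_apply_apply]
    rfl

end Pool.Agent.LibCoc63
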