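import Mathlib

/-!
# Symbols with values in explicit 2-cochains modulo continuous coboundaries

`G = Ω ≃ₐ[B] Ω`.  A function on `G` is continuous (`Cts`) if it depends only on the values of `g` on
a finite subset of `Ω`.
-/

set_option autoImplicit false

open Finset

namespace Pool.Agent.LibCoc63

section basics

variable {B Ω : Type*} [Field B] [Field Ω] [Algebra B Ω]

/-- The action of a Galois automorphism on the units. -/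
def act (g : Ω ≃ₐ[B] Ω) : Ωˣ →* Ωˣ := Units.map (g : Ω →* Ω)

@[simp] lemma coe_act (g : Ω ≃ₐ[B] Ω) (u : Ωˣ) : ((act g u : Ωˣ) : Ω) = g (u : Ω) := rfl

@[simp] lemma act_one (u : Ωˣ) : act (1 : Ω ≃ₐ[B] Ω) u = u := by ext; simp

lemma act_mul (g h : Ω ≃ₐ[B] Ω) (u : Ωˣ) : act (g * h) u = act g (act h u) := by ext; simp

/-- Locally constant functions on the Galois group. -/
def Cts {Y : Type*} (f : (Ω ≃ₐ[B] Ω) → Y) : Prop :=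
  ∃ T : Finset Ω, ∀ g g' : Ω ≃ₐ[B] Ω, (∀ t ∈ T, g t = g' t) → f g = f g'

lemma Cts.const {Y : Type*} (y : Y) : Cts (fun _ : Ω ≃ₐ[B] Ω => y) := ⟨∅, fun _ _ _ => rfl⟩

lemma Cts.comp {Y Z : Type*} {f : (Ω ≃ₐ[B] Ω) → Y} (hf : Cts f) (φ : Y → Z) :
    Cts (fun g => φ (f g)) := by
  obtain ⟨T, hT⟩ := hf
  exact ⟨T, fun g g' h => congrArg φ (hT g g' h)⟩

lemma Cts.prodMk {Y Z : Type*} {f : (Ω ≃ₐ[B] Ω) → Y} {f' : (Ω ≃ₐ[B] Ω) → Z} (hf : Cts f)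
    (hf' : Cts f') : Cts (fun g => (f g, f' g)) := by
  classical
  obtain ⟨T, hT⟩ := hf
  obtain ⟨T', hT'⟩ := hf'
  refine ⟨T ∪ T', fun g g' h => ?_⟩
  exact Prod.ext (hT g g' (fun t ht => h t (mem_union_left _ ht)))
    (hT' g g' (fun t ht => h t (mem_union_right _ ht)))

lemma Cts.comp₂ {Y Z W : Type*} {f : (Ω ≃ₐ[B] Ω) → Y} {f' : (Ω ≃ₐ[B] Ω) → Z} (hf : Cts f)
    (hf' : Cts f') (φ : Y → Z → W) : Cts (fun g => φ (f g) (f' g)) :=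
  (hf.prodMk hf').comp (fun p => φ p.1 p.2)

lemma Cts.eval (x : Ω) : Cts (fun g : Ω ≃ₐ[B] Ω => g x) :=
  ⟨{x}, fun _ _ h => h x (mem_singleton_self x)⟩

lemma Cts.pi {ι : Type*} [Finite ι] {Y : ι → Type*} {f : (Ω ≃ₐ[B] Ω) → ∀ i, Y i}
    (hf : ∀ i, Cts (fun g => f g i)) : Cts f := by
  classical
  cases nonempty_fintype ι
  choose T hT using hf
  refine ⟨univ.biUnion T, fun g g' h => ?_⟩
  funext i
  exact hT i g g' (fun t ht => h t (mem_biUnion.2 ⟨i, mem_univ i, ht⟩))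

/-- The coboundary of a 1-cochain. -/
def bd (β : (Ω ≃ₐ[B] Ω) → Ωˣ) : (Ω ≃ₐ[B] Ω) → (Ω ≃ₐ[B] Ω) → Ωˣ :=
  fun g h => β g * act g (β h) * (β (g * h))⁻¹

variable (B Ω) in
/-- Continuous coboundaries. -/
def Cob : Subgroup ((Ω ≃ₐ[B] Ω) → (Ω ≃ₐ[B] Ω) → Ωˣ) where
  carrier := {c | ∃ β, Cts β ∧ c = bd β}
  one_mem' := ⟨1, ⟨∅, fun _ _ _ => rfl⟩, by funext g h; simp [bd]⟩
  mul_mem' := by
    rintro c c' ⟨β, hβ, rfl⟩ ⟨β', hβ', rfl⟩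
    refine ⟨β * β', hβ.comp₂ hβ' (· * ·), ?_⟩
    funext g h
    simp only [bd, Pi.mul_apply, map_mul, mul_inv]
    ac_rfl
  inv_mem' := by
    rintro c ⟨β, hβ, rfl⟩
    refine ⟨β⁻¹, hβ.comp (·⁻¹), ?_⟩
    funext g h
    simp only [bd, Pi.inv_apply, map_inv, mul_inv]

variable (B Ω) in
/-- 2-cochains modulo continuous coboundaries. -/
abbrev V : Type _ := ((Ω ≃ₐ[B] Ω) → (Ω ≃ₐ[B] Ω) → Ωˣ) ⧸ Cob B Ω

/-- The class of a cochain. -/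
def cl (c : (Ω ≃ₐ[B] Ω) → (Ω ≃ₐ[B] Ω) → Ωˣ) : V B Ω := QuotientGroup.mk c

lemma cl_mul (c c' : (Ω ≃ₐ[B] Ω) → (Ω ≃ₐ[B] Ω) → Ωˣ) : cl (c * c') = cl c * cl c' := rfl

lemma cl_pow (c : (Ω ≃ₐ[B] Ω) → (Ω ≃ₐ[B] Ω) → Ωˣ) (n : ℕ) : cl (c ^ n) = cl c ^ n := rfl

lemma cl_eq_one {c : (Ω ≃ₐ[B] Ω) → (Ω ≃ₐ[B] Ω) → Ωˣ} : cl c = 1 ↔ ∃ β, Cts β ∧ c = bd β :=
  QuotientGroup.eq_one_iff c

lemma cl_eq {c c' : (Ω ≃ₐ[B] Ω) → (Ω ≃ₐ[B] Ω) → Ωˣ} {β : (Ω ≃ₐ[B] Ω) → Ωˣ} (hβ : Cts β)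
    (h : ∀ g h, c g h = c' g h * bd β g h) : cl c = cl c' := by
  have h1 : c = c' * bd β := by funext g k; exact h g k
  have h2 : cl (bd β) = 1 := cl_eq_one.2 ⟨β, hβ, rfl⟩
  rw [h1, cl_mul, h2]
  exact mul_one (cl c')

/-- A finite set with a continuous action of the Galois group. -/
class CtsSet (B Ω X : Type*) [Field B] [Field Ω] [Algebra B Ω] [MulAction (Ω ≃ₐ[B] Ω) X] : Prop where
  out : ∃ T : Finset Ω, ∀ g : Ω ≃ₐ[B] Ω, (∀ t ∈ T, g t = t) → ∀ x : X, g • x = x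

lemma CtsSet.smul_cts {X : Type*} [MulAction (Ω ≃ₐ[B] Ω) X] [CtsSet B Ω X] :
    ∃ T : Finset Ω, ∀ g g' : Ω ≃ₐ[B] Ω, (∀ t ∈ T, g t = g' t) → ∀ x : X, g • x = g' • x := by
  obtain ⟨T, hT⟩ := CtsSet.out (B := B) (Ω := Ω) (X := X)
  refine ⟨T, fun g g' h x => ?_⟩
  have h1 : (g'⁻¹ * g) • x = x := hT (g'⁻¹ * g) (fun t ht => by
    rw [AlgEquiv.mul_apply, h t ht, ← AlgEquiv.mul_apply, inv_mul_cancel, AlgEquiv.one_apply]) x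
  rw [← smul_smul, inv_smul_eq_iff] at h1
  exact h1

lemma CtsSet.inv_smul_cts {X : Type*} [MulAction (Ω ≃ₐ[B] Ω) X] [CtsSet B Ω X] :
    ∃ T : Finset Ω, ∀ g g' : Ω ≃ₐ[B] Ω, (∀ t ∈ T, g t = g' t) → ∀ x : X, g⁻¹ • x = g'⁻¹ • x := by
  obtain ⟨T, hT⟩ := CtsSet.smul_cts (B := B) (Ω := Ω) (X := X)
  refine ⟨T, fun g g' h x => ?_⟩
  rw [inv_smul_eq_iff, hT g g' h, smul_inv_smul]

variable (B Ω) in
/-- Equivariant functions with values in the units. -/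
def Eqv (X : Type*) [MulAction (Ω ≃ₐ[B] Ω) X] : Subgroup (X → Ωˣ) where
  carrier := {a | ∀ (g : Ω ≃ₐ[B] Ω) (x : X), a (g • x) = act g (a x)}
  one_mem' := fun g x => by simp
  mul_mem' := fun {a b} ha hb g x => by simp [ha g x, hb g x]
  inv_mem' := fun {a} ha g x => by simp [ha g x]

end basics

/-- A primitive root of unity of order `m` fixed by the Galois group. -/
structure PR (B Ω : Type*) [Field B] [Field Ω] [Algebra B Ω] (m : ℕ) where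
  ζ : Ωˣ
  pos : 0 < m
  prim : IsPrimitiveRoot ζ m
  fix : ∀ g : Ω ≃ₐ[B] Ω, act g ζ = ζ

section sym

variable {B Ω : Type*} [Field B] [Field Ω] [Algebra B Ω]
variable {X : Type*} [Fintype X] [MulAction (Ω ≃ₐ[B] Ω) X]

/-- The cochain `c` computes the symbol `(a, b)` with respect to the root of unity `z.ζ`. -/
def Comp {m : ℕ} (z : PR B Ω m) (a b : X → Ωˣ) (c : (Ω ≃ₐ[B] Ω) → (Ω ≃ₐ[B] Ω) → Ωˣ) : Prop :=
  ∃ (ξ : X → Ωˣ) (χ : (Ω ≃ₐ[B] Ω) → X → ℤ) (k : (Ω ≃ₐ[B] Ω) → (Ω ≃ₐ[B] Ω) → X → ℤ),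
    Cts χ ∧ (∀ x, ξ x ^ m = a x) ∧ (∀ g x, act g (ξ (g⁻¹ • x)) = z.ζ ^ χ g x * ξ x) ∧
    (∀ g h x, χ g x + χ h (g⁻¹ • x) - χ (g * h) x = m * k g h x) ∧
    ∀ g h, c g h = ∏ x, b x ^ k g h x

open Classical in
/-- The symbol `(a, b)` over the finite Galois set `X`, as a class of cochains. -/
noncomputable def S {m : ℕ} (z : PR B Ω m) (a b : X → Ωˣ) : V B Ω :=
  if h : ∃ c, Comp z a b c then cl h.choose else 1

end sym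

end Pool.Agent.LibCoc63
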