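import Pool.Agent.LibCoc63.Cls

/-!
[COC A4] Galois descent: an algebra with trivial class over B acts on B^n.
Let δ = bd β, A' g = (β g)⁻¹ • A g: A' g * (A' h).map g = A' (g h), A' continuous (depends on g on the finite set T),
Φ_g v = A' g *ᵥ (g ∘ v), Φ_g Φ_h = Φ_(gh), Φ_g (c v) = g c Φ_g v.
N = a finite normal extension of B in Ω containing T and the entries of v and c: Φ_g (c v) depends only on g|_N, and
w = ∑_(σ ∈ Gal(N/B)) Φ_σ (c v) = ∑ σ(c) Φ_σ v is fixed. A functional φ that vanishes on the fixed vectors gives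
∑ σ(c) φ(Φ_σ v) = 0 for all c ∈ N, so φ(v) = 0 (Dedekind). So the fixed vectors span Ω^n; P has n of them as columns.
-/

set_option autoImplicit false

open Finset Module

namespace Pool.Agent.LibCoc63

variable {F B Ω : Type*} [Field F] [Field B] [Field Ω] [Algebra F B] [Algebra B Ω] [Algebra F Ω]
  [IsScalarTower F B Ω]
variable {D : Type*} [Ring D] [Algebra F D] {n : Type*} [Fintype n] [DecidableEq n]

/-- The semilinear action. -/
private def phi (A : (Ω ≃ₐ[B] Ω) → (Matrix n n Ω)ˣ) (g : Ω ≃ₐ[B] Ω) (v : n → Ω) : n → Ω :=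
  Matrix.mulVec (A g : Matrix n n Ω) (fun i => g (v i))

private theorem phi_phi {A : (Ω ≃ₐ[B] Ω) → (Matrix n n Ω)ˣ}
    (hm : ∀ g h : Ω ≃ₐ[B] Ω, (A g : Matrix n n Ω) * (A h : Matrix n n Ω).map g = A (g * h))
    (g h : Ω ≃ₐ[B] Ω) (v : n → Ω) : phi A g (phi A h v) = phi A (g * h) v := by
  unfold phi
  rw [← hm g h, ← Matrix.mulVec_mulVec]
  congr 1
  funext i
  simp [Matrix.mulVec, dotProduct, map_sum, map_mul]

private theorem phi_smul {A : (Ω ≃ₐ[B] Ω) → (Matrix n n Ω)ˣ} (g : Ω ≃ₐ[B] Ω) (c : Ω)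
    (v : n → Ω) : phi A g (c • v) = g c • phi A g v := by
  unfold phi
  rw [← Matrix.mulVec_smul]
  congr 1
  funext i
  simp

private theorem phi_sum {A : (Ω ≃ₐ[B] Ω) → (Matrix n n Ω)ˣ} (g : Ω ≃ₐ[B] Ω) {ι : Type*}
    (s : Finset ι) (v : ι → n → Ω) : phi A g (∑ i ∈ s, v i) = ∑ i ∈ s, phi A g (v i) := by
  unfold phi
  rw [← Matrix.mulVec_sum]
  congr 1
  funext i
  simp [map_sum]

private theorem phi_one {A : (Ω ≃ₐ[B] Ω) → (Matrix n n Ω)ˣ}
    (hm : ∀ g h : Ω ≃ₐ[B] Ω, (A g : Matrix n n Ω) * (A h : Matrix n n Ω).map g = A (g * h))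
    (v : n → Ω) : phi A 1 v = v := by
  have h1 : (A 1 : Matrix n n Ω) = 1 := by
    have h := hm 1 1
    have h2 : (A 1 : Matrix n n Ω).map (1 : Ω ≃ₐ[B] Ω) = A 1 := by
      ext i j
      simp
    rw [h2, mul_one] at h
    have h3 : A 1 * A 1 = A 1 := Units.ext h
    rw [mul_eq_left] at h3
    rw [h3, Units.val_one]
  unfold phi
  rw [h1, Matrix.one_mulVec]
  funext i
  simp

/-- The average over the Galois group of a finite normal extension. -/
private theorem avg_fixed (A : (Ω ≃ₐ[B] Ω) → (Matrix n n Ω)ˣ)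
    (hm : ∀ g h : Ω ≃ₐ[B] Ω, (A g : Matrix n n Ω) * (A h : Matrix n n Ω).map g = A (g * h))
    (N : IntermediateField B Ω) [Normal B N] [FiniteDimensional B N]
    (hN : ∀ g g' : Ω ≃ₐ[B] Ω, (∀ t ∈ N, g t = g' t) → A g = A g')
    (s : (N ≃ₐ[B] N) → (Ω ≃ₐ[B] Ω)) (hs : ∀ (σ : N ≃ₐ[B] N) (x : N), s σ x = σ x)
    (v : n → Ω) (hv : ∀ i, v i ∈ N) (g : Ω ≃ₐ[B] Ω) :
    phi A g (∑ σ : N ≃ₐ[B] N, phi A (s σ) v) = ∑ σ : N ≃ₐ[B] N, phi A (s σ) v := by
  classical
  rw [phi_sum]
  have hr : ∀ x : N, (AlgEquiv.restrictNormalHom N g x : Ω) = g x := fun x =>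
    AlgEquiv.restrictNormal_commutes g N x
  refine Fintype.sum_equiv (Equiv.mulLeft (AlgEquiv.restrictNormalHom N g)) _ _ fun σ => ?_
  rw [phi_phi hm, Equiv.coe_mulLeft]
  have h1 : ∀ t ∈ N, (g * s σ) t = s (AlgEquiv.restrictNormalHom N g * σ) t := by
    intro t ht
    have h2 := hs (AlgEquiv.restrictNormalHom N g * σ) ⟨t, ht⟩
    have h3 := hs σ ⟨t, ht⟩
    have h4 := hr (σ ⟨t, ht⟩)
    rw [AlgEquiv.mul_apply] at h2
    rw [AlgEquiv.mul_apply]
    change g (s σ t) = _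
    change s σ t = _ at h3
    rw [h3, ← h4]
    exact h2.symm
  unfold phi
  rw [hN _ _ h1]
  congr 1
  funext i
  exact h1 _ (hv i)

/-- The fixed vectors span. -/
private theorem span_fixed [IsAlgClosed Ω] [Algebra.IsAlgebraic B Ω]
    (A : (Ω ≃ₐ[B] Ω) → (Matrix n n Ω)ˣ) (hA : Cts A)
    (hm : ∀ g h : Ω ≃ₐ[B] Ω, (A g : Matrix n n Ω) * (A h : Matrix n n Ω).map g = A (g * h)) :
    Submodule.span Ω {v : n → Ω | ∀ g, phi A g v = v} = ⊤ := by
  classical
  by_contra hne
  obtain ⟨φ, hφ0, hφ⟩ := Submodule.exists_le_ker_of_lt_top _ (lt_top_iff_ne_top.2 hne)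
  apply hφ0
  obtain ⟨T, hT⟩ := hA
  have : IsAlgClosure B Ω := ⟨inferInstance, inferInstance⟩
  have : Normal B Ω := IsAlgClosure.normal B Ω
  refine LinearMap.ext fun v => ?_
  rw [LinearMap.zero_apply]
  let S : Finset Ω := T ∪ univ.image v
  have hfd : FiniteDimensional B (IntermediateField.adjoin B (S : Set Ω)) :=
    IntermediateField.finiteDimensional_adjoin fun x _ =>
      (Algebra.IsAlgebraic.isAlgebraic x).isIntegral
  let N : IntermediateField B Ω :=
    IntermediateField.normalClosure B (IntermediateField.adjoin B (S : Set Ω)) Ω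
  have hSN : ∀ x ∈ S, x ∈ N := by
    intro x hx
    exact IntermediateField.le_normalClosure _ (IntermediateField.subset_adjoin B _ hx)
  have hN : ∀ g g' : Ω ≃ₐ[B] Ω, (∀ t ∈ N, g t = g' t) → A g = A g' := fun g g' h =>
    hT g g' fun t ht => h t (hSN t (mem_union_left _ ht))
  have hvN : ∀ i, v i ∈ N := fun i =>
    hSN _ (mem_union_right _ (mem_image_of_mem v (mem_univ i)))
  let s : (N ≃ₐ[B] N) → (Ω ≃ₐ[B] Ω) :=
    Function.surjInv (AlgEquiv.restrictNormalHom_surjective (F := B) (K₁ := N) Ω)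
  have hs : ∀ (σ : N ≃ₐ[B] N) (x : N), s σ x = σ x := by
    intro σ x
    have h1 : AlgEquiv.restrictNormalHom N (s σ) = σ :=
      Function.surjInv_eq (AlgEquiv.restrictNormalHom_surjective (F := B) (K₁ := N) Ω) σ
    have h2 : (AlgEquiv.restrictNormalHom N (s σ) x : Ω) = s σ x :=
      AlgEquiv.restrictNormal_commutes (s σ) N x
    rw [← h2, h1]
  -- characters
  let χ : (N ≃ₐ[B] N) → (N →* Ω) := fun σ => (N.val : N →* Ω).comp (σ : N →* N)
  have hχ : Function.Injective χ := by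
    intro σ τ h
    ext x
    exact DFunLike.congr_fun h x
  have hli : LinearIndependent Ω (fun σ : N ≃ₐ[B] N => (χ σ : N → Ω)) :=
    (linearIndependent_monoidHom N Ω).comp χ hχ
  have hz : ∀ σ : N ≃ₐ[B] N, φ (phi A (s σ) v) = 0 := by
    refine Fintype.linearIndependent_iff.1 hli _ ?_
    funext c
    have h1 : (∑ σ : N ≃ₐ[B] N, phi A (s σ) ((c : Ω) • v)) ∈
        {v : n → Ω | ∀ g, phi A g v = v} := fun g =>
      avg_fixed A hm N hN s hs _ (fun i => N.mul_mem c.2 (hvN i)) g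
    have h2 := hφ (Submodule.subset_span h1)
    rw [LinearMap.mem_ker, map_sum] at h2
    rw [Finset.sum_apply, Pi.zero_apply, ← h2]
    refine sum_congr rfl fun σ _ => ?_
    rw [phi_smul, map_smul, hs, Pi.smul_apply, smul_eq_mul, smul_eq_mul, mul_comm]
    rfl
  have h1 := hz 1
  have h2 : phi A (s 1) v = v := by
    have h3 : ∀ t ∈ N, s 1 t = (1 : Ω ≃ₐ[B] Ω) t := by
      intro t ht
      exact hs 1 ⟨t, ht⟩
    have h4 : phi A (s 1) v = phi A 1 v := by
      unfold phi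
      rw [hN _ _ h3]
      congr 1
      funext i
      exact h3 _ (hvN i)
    rw [h4, phi_one hm]
  rwa [h2] at h1

/-- Fixed vectors of a continuous semilinear action. -/
theorem exists_fixed_basis [Nonempty n] [IsAlgClosed Ω] [Algebra.IsAlgebraic B Ω] [PerfectField B]
    (A : (Ω ≃ₐ[B] Ω) → (Matrix n n Ω)ˣ) (hA : Cts A)
    (hm : ∀ g h : Ω ≃ₐ[B] Ω, (A g : Matrix n n Ω) * (A h : Matrix n n Ω).map g = A (g * h)) :
    ∃ P : (Matrix n n Ω)ˣ, ∀ g : Ω ≃ₐ[B] Ω,
      (A g : Matrix n n Ω) * (P : Matrix n n Ω).map g = P := by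
  classical
  have hsp := span_fixed A hA hm
  obtain ⟨b, hb1, hb2, hb3⟩ := exists_linearIndependent Ω {v : n → Ω | ∀ g, phi A g v = v}
  rw [hsp] at hb2
  let bs : Basis b Ω (n → Ω) := Basis.mk hb3 (by rw [Subtype.range_coe]; exact hb2.ge)
  have : Finite b := Module.Finite.finite_basis bs
  have : Fintype b := Fintype.ofFinite b
  have hc : Fintype.card b = Fintype.card n := by
    rw [← finrank_eq_card_basis bs, finrank_fintype_fun_eq_card]
  let e : b ≃ n := Fintype.equivOfCardEq hc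
  let bn : Basis n Ω (n → Ω) := bs.reindex e
  have hbn : ∀ (j : n) (g : Ω ≃ₐ[B] Ω), phi A g (bn j) = bn j := by
    intro j g
    have h1 : bn j = ((e.symm j : b) : n → Ω) := by
      rw [Basis.reindex_apply, Basis.mk_apply]
    rw [h1]
    exact hb1 (e.symm j).2 g
  let P : Matrix n n Ω := Matrix.of fun i j => bn j i
  have hP : IsUnit P := by
    have h1 : LinearIndependent Ω P.col := by
      exact bn.linearIndependent
    exact Matrix.linearIndependent_cols_iff_isUnit.1 h1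
  refine ⟨hP.unit, fun g => ?_⟩
  rw [IsUnit.unit_spec]
  ext i j
  have h1 := congrFun (hbn j g) i
  unfold phi at h1
  rw [Matrix.mul_apply]
  exact h1

/-- ρ'(d) = P⁻¹ ρ(d) P has entries fixed by the Galois group, so in B. -/
theorem exists_hom_of_isCls_one [Nonempty n] [IsAlgClosed Ω] [Algebra.IsAlgebraic B Ω]
    [PerfectField B] {ρ : D →ₐ[F] Matrix n n Ω} (h : IsCls B ρ (1 : V B Ω)) :
    Nonempty (D →ₐ[F] Matrix n n B) := by
  classical
  obtain ⟨A, δ, ⟨hA, hρ, hδ⟩, h1⟩ := h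
  obtain ⟨β, hβ, rfl⟩ := cl_eq_one.1 h1.symm
  let ι : Ωˣ →* (Matrix n n Ω)ˣ := Units.map (algebraMap Ω (Matrix n n Ω)).toMonoidHom
  have hι : ∀ u : Ωˣ, (ι u : Matrix n n Ω) = algebraMap Ω (Matrix n n Ω) u := fun _ => rfl
  let A' : (Ω ≃ₐ[B] Ω) → (Matrix n n Ω)ˣ := fun g => ι (β g)⁻¹ * A g
  have hA'v : ∀ g, (A' g : Matrix n n Ω) = ((β g)⁻¹ : Ωˣ).val • (A g : Matrix n n Ω) := by
    intro g
    show (ι (β g)⁻¹ : Matrix n n Ω) * A g = _
    rw [hι, Algebra.smul_def]
  have hA' : Cts A' := hβ.comp₂ hA fun u a => ι u⁻¹ * a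
  have hm : ∀ g h : Ω ≃ₐ[B] Ω,
      (A' g : Matrix n n Ω) * (A' h : Matrix n n Ω).map g = A' (g * h) := by
    intro g h
    have h2 : ((A' h : Matrix n n Ω)).map g =
        (act g (β h)⁻¹ : Ωˣ).val • (A h : Matrix n n Ω).map g := by
      rw [hA'v]
      ext i j
      simp only [Matrix.map_apply, Matrix.smul_apply, smul_eq_mul, map_mul, coe_act]
    rw [h2, hA'v, hA'v, smul_mul_smul_comm, hδ g h, smul_smul]
    congr 1
    rw [← Units.val_mul, ← Units.val_mul]
    congr 1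
    unfold bd
    rw [map_inv, show (β g)⁻¹ * (act g (β h))⁻¹ * (β g * act g (β h) * (β (g * h))⁻¹) =
      ((β g)⁻¹ * β g) * ((act g (β h))⁻¹ * act g (β h)) * (β (g * h))⁻¹ from by ac_rfl,
      inv_mul_cancel, inv_mul_cancel, one_mul, one_mul]
  obtain ⟨P, hP⟩ := exists_fixed_basis A' hA' hm
  have hρ' : ∀ (g : Ω ≃ₐ[B] Ω) (d : D),
      (A' g : Matrix n n Ω) * (ρ d).map g = ρ d * (A' g : Matrix n n Ω) := by
    intro g d
    rw [hA'v, smul_mul_assoc, hρ g d, mul_smul_comm]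
  let M : D →ₐ[F] Matrix n n Ω :=
    { toFun := fun d => (P⁻¹ : (Matrix n n Ω)ˣ).val * ρ d * (P : Matrix n n Ω)
      map_one' := by simp
      map_mul' := fun x y => by
        rw [map_mul]
        simp only [mul_assoc, Units.mul_inv_cancel_left]
      map_zero' := by simp
      map_add' := fun x y => by rw [map_add]; noncomm_ring
      commutes' := fun r => by
        rw [AlgHom.commutes, ← Algebra.commutes r ((P⁻¹ : (Matrix n n Ω)ˣ).val), mul_assoc,
          Units.inv_mul, mul_one] }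
  have hMg : ∀ (g : Ω ≃ₐ[B] Ω) (d : D), (M d).map g = M d := by
    intro g d
    have hmul : ∀ X Y : Matrix n n Ω, (X * Y).map g = X.map g * Y.map g := fun X Y =>
      Matrix.map_mul
    -- multiply by A' g * P.map g = P on the left
    have h2 : (P : Matrix n n Ω) * (M d).map g = P * M d := by
      have h3 : (P : Matrix n n Ω) * M d = ρ d * P := by
        show (P : Matrix n n Ω) * ((P⁻¹ : (Matrix n n Ω)ˣ).val * ρ d * (P : Matrix n n Ω)) = _
        rw [mul_assoc, Units.mul_inv_cancel_left]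
      rw [h3]
      conv_lhs => rw [← hP g]
      rw [mul_assoc, ← hmul, h3, hmul, ← mul_assoc, hρ', mul_assoc, hP g]
    exact (Units.mul_right_inj P).1 h2
  have : IsAlgClosure B Ω := ⟨inferInstance, inferInstance⟩
  have : Normal B Ω := IsAlgClosure.normal B Ω
  have : Algebra.IsSeparable B Ω := inferInstance
  have : IsGalois B Ω := ⟨⟩
  let f : Matrix n n B →ₐ[F] Matrix n n Ω := (IsScalarTower.toAlgHom F B Ω).mapMatrix
  have hf : Function.Injective f := by
    intro X Y hXY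
    ext i j
    have := congrFun (congrFun hXY i) j
    exact (algebraMap B Ω).injective this
  have hr : ∀ d, M d ∈ f.range := by
    intro d
    have h2 : ∀ i j, ∃ x : B, algebraMap B Ω x = M d i j := by
      intro i j
      have h3 : M d i j ∈ (⊥ : IntermediateField B Ω) := by
        rw [InfiniteGalois.mem_bot_iff_fixed]
        intro g
        exact congrFun (congrFun (hMg g d) i) j
      exact IntermediateField.mem_bot.1 h3
    choose X hX using h2
    exact ⟨Matrix.of X, by ext i j; exact hX i j⟩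
  exact ⟨((AlgEquiv.ofInjective f hf).symm : f.range →ₐ[F] Matrix n n B).comp
    (M.codRestrict f.range hr)⟩

end Pool.Agent.LibCoc63
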