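import Pool.Agent.LibCoc63.Conj

/-!
[COC A5] D division, centre F, dimension l². R = roots of f = minpoly of d ∈ D \ F in Ω. f is separable (F perfect).
ρ₀ from exists_rep. For θ ∈ R some u_θ ≠ 0 has ρ₀(d) u_θ = θ u_θ (else ρ₀(d) - θ is invertible and f/(T-θ), of degree
< deg f, kills ρ₀(d) = contradiction to IsRep.linearIndependent for 1, d, .., d^(deg f - 1)); so |R| = deg f ≤ l by independence
of eigenvectors, deg f = [F(d) : F] divides l² and is ≥ 2: |R| = l, (u_θ) is a basis, ρ = ρ₀ in this basis.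
d': for θ ≠ θ' the set {d : ρ d θ θ' = 0} is a proper F-subspace (the span of ρ(D) is everything); finitely many proper
subspaces do not cover D, F infinite (else D finite, commutative: `littleWedderburn`).
(`Subspace.biUnion_ne_univ_of_top_notMem` or similar.)
-/

set_option autoImplicit false

open Finset Module

namespace Pool.Agent.LibCoc63

/-- The degree of an element divides the dimension. -/
private lemma natDegree_dvd {F D : Type*} [Field F] [DivisionRing D] [Algebra F D]
    [FiniteDimensional F D] (d : D) : (minpoly F d).natDegree ∣ finrank F D := by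
  have hint : IsIntegral F d := Algebra.IsIntegral.isIntegral d
  have hirr : Irreducible (minpoly F d) := minpoly.irreducible hint
  haveI : Fact (Irreducible (minpoly F d)) := ⟨hirr⟩
  let φ : AdjoinRoot (minpoly F d) →+* D :=
    Ideal.Quotient.lift (Ideal.span {minpoly F d})
      ((Polynomial.aeval d : Polynomial F →ₐ[F] D) : Polynomial F →+* D) (by
        intro a ha
        obtain ⟨c, rfl⟩ := Ideal.mem_span_singleton'.1 ha
        change Polynomial.aeval d (c * minpoly F d) = 0
        rw [map_mul, minpoly.aeval, mul_zero])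
  letI : Module (AdjoinRoot (minpoly F d)) D := Module.compHom D φ
  have hsm : ∀ (k : AdjoinRoot (minpoly F d)) (x : D), k • x = φ k * x := fun _ _ => rfl
  have hφ : ∀ a : F, φ (algebraMap F (AdjoinRoot (minpoly F d)) a) = algebraMap F D a := by
    intro a
    change Polynomial.aeval d (Polynomial.C a) = _
    rw [Polynomial.aeval_C]
  haveI : IsScalarTower F (AdjoinRoot (minpoly F d)) D := by
    refine IsScalarTower.of_algebraMap_smul fun a x => ?_
    rw [hsm, hφ, Algebra.smul_def]
  have h1 : finrank F (AdjoinRoot (minpoly F d)) = (minpoly F d).natDegree := by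
    rw [(AdjoinRoot.powerBasis hirr.ne_zero).finrank, AdjoinRoot.powerBasis_dim]
  have h2 := Module.finrank_mul_finrank F (AdjoinRoot (minpoly F d)) D
  rw [h1] at h2
  exact ⟨_, h2.symm⟩

private lemma minpoly_rep {F Ω D : Type*} [Field F] [Field Ω] [Algebra F Ω]
    [Ring D] [Algebra F D] [FiniteDimensional F D] {m : ℕ} [Nonempty (Fin m)]
    {ρ : D →ₐ[F] Matrix (Fin m) (Fin m) Ω} (hρ : IsRep ρ) (d : D) :
    minpoly Ω (ρ d) = (minpoly F d).map (algebraMap F Ω) := by
  have hint : IsIntegral F d := Algebra.IsIntegral.isIntegral d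
  have hint' : IsIntegral Ω (ρ d) := Algebra.IsIntegral.isIntegral _
  have hmon : (minpoly F d).Monic := minpoly.monic hint
  have h0 : Polynomial.aeval (ρ d) ((minpoly F d).map (algebraMap F Ω)) = 0 := by
    rw [Polynomial.aeval_map_algebraMap, Polynomial.aeval_algHom_apply, minpoly.aeval, map_zero]
  have hdvd : minpoly Ω (ρ d) ∣ (minpoly F d).map (algebraMap F Ω) := minpoly.dvd _ _ h0
  have hind := hρ.linearIndependent (linearIndependent_pow (K := F) d)
  refine (Polynomial.eq_of_monic_of_dvd_of_natDegree_le (minpoly.monic hint') (hmon.map _) hdvd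
    ?_).symm
  rw [Polynomial.natDegree_map]
  by_contra hlt
  push Not at hlt
  have h1 : Polynomial.aeval (ρ d) (minpoly Ω (ρ d)) = 0 := minpoly.aeval _ _
  rw [Polynomial.aeval_eq_sum_range' hlt, Finset.sum_range] at h1
  have h2 := Fintype.linearIndependent_iff.1 hind
    (fun i => (minpoly Ω (ρ d)).coeff i) (by
      rw [← h1]
      refine Finset.sum_congr rfl fun i _ => ?_
      rw [map_pow])
  have h3 := h2 ⟨(minpoly Ω (ρ d)).natDegree, hlt⟩
  have h4 : (minpoly Ω (ρ d)).coeff (minpoly Ω (ρ d)).natDegree = 1 :=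
    (minpoly.monic hint').coeff_natDegree
  simp only at h3
  rw [h4] at h3
  exact one_ne_zero h3

theorem exists_diag {F Ω D : Type*} [Field F] [PerfectField F] [Field Ω] [Algebra F Ω]
    [IsAlgClosed Ω] [DecidableEq Ω] [DivisionRing D] [Algebra F D] [Algebra.IsCentral F D] {l : ℕ}
    (hl : l.Prime) (hD : finrank F D = l ^ 2) :
    ∃ R : Finset Ω, (∀ (g : Ω ≃ₐ[F] Ω), ∀ θ ∈ R, g θ ∈ R) ∧ R.card = l ∧
      ∃ (ρ : D →ₐ[F] Matrix R R Ω) (d d' : D), IsRep ρ ∧
        ρ d = Matrix.diagonal (fun θ : R => (θ : Ω)) ∧ ∀ θ θ' : R, θ ≠ θ' → ρ d' θ θ' ≠ 0 := by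
  haveI : FiniteDimensional F D := Module.finite_of_finrank_pos (by
    rw [hD]; exact pow_pos hl.pos 2)
  have hD1 : finrank F D ≠ 1 := by
    rw [hD]
    intro h
    exact hl.one_lt.ne' (by nlinarith [hl.one_lt])
  have hbt : (⊥ : Subalgebra F D) ≠ ⊤ := fun h => hD1 (Subalgebra.bot_eq_top_iff_finrank_eq_one.1 h)
  haveI hinf : Infinite F := by
    by_contra hfin
    rw [not_infinite_iff_finite] at hfin
    haveI : Finite D := Module.finite_of_finite F
    have hc := (Finite.isDomain_to_isField D).mul_comm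
    apply hbt
    rw [← Algebra.IsCentral.center_eq_bot F D, eq_top_iff]
    intro x _
    rw [Subalgebra.mem_center_iff]
    intro y
    exact hc y x
  obtain ⟨m, hm0, ρ₀, hρ₀⟩ := exists_rep F Ω D
  haveI : Nonempty (Fin m) := ⟨⟨0, Nat.pos_of_ne_zero hm0⟩⟩
  have hml : m = l := by
    have h1 := hρ₀.2
    rw [hD, Fintype.card_fin] at h1
    exact (Nat.pow_left_injective (le_refl 2 |>.trans (le_refl 2) |> fun _ => by norm_num) h1).symm
  subst hml
  -- the element `d`
  obtain ⟨d, hd⟩ : ∃ d : D, d ∉ (⊥ : Subalgebra F D) := by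
    by_contra hcon
    push Not at hcon
    exact hbt (eq_top_iff.2 fun x _ => hcon x)
  have hint : IsIntegral F d := Algebra.IsIntegral.isIntegral d
  set f := minpoly F d with hf
  have hirr : Irreducible f := minpoly.irreducible hint
  have hsep : f.Separable := PerfectField.separable_of_irreducible hirr
  have hdeg1 : f.natDegree ≠ 1 := by
    intro h
    rw [hf, minpoly.natDegree_eq_one_iff] at h
    exact hd (Algebra.mem_bot.2 h)
  have hdeg0 : 0 < f.natDegree := minpoly.natDegree_pos hint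
  let R : Finset Ω := (f.rootSet Ω).toFinset
  have hR : ∀ θ, θ ∈ R ↔ Polynomial.aeval θ f = 0 := by
    intro θ
    rw [Set.mem_toFinset, Polynomial.mem_rootSet]
    exact ⟨fun h => h.2, fun h => ⟨hirr.ne_zero, h⟩⟩
  have hcard : R.card = f.natDegree := by
    rw [Set.toFinset_card]
    exact Polynomial.card_rootSet_eq_natDegree hsep (IsAlgClosed.splits _)
  -- eigenvectors
  have hmin := minpoly_rep hρ₀ d
  have heig : ∀ θ : R, ∃ u : Fin m → Ω,
      Module.End.HasEigenvector (Matrix.toLin' (ρ₀ d)) (θ : Ω) u := by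
    intro θ
    have h1 : (minpoly Ω (Matrix.toLin' (ρ₀ d))).IsRoot (θ : Ω) := by
      rw [Matrix.minpoly_toLin', hmin, Polynomial.IsRoot.def, Polynomial.eval_map_algebraMap]
      exact (hR θ).1 θ.2
    exact (Module.End.hasEigenvalue_of_isRoot h1).exists_hasEigenvector
  choose u hu using heig
  have hind : LinearIndependent Ω u :=
    Module.End.eigenvectors_linearIndependent' (Matrix.toLin' (ρ₀ d)) (fun θ : R => (θ : Ω))
      Subtype.val_injective u hu
  have hle : R.card ≤ m := by
    have h1 := hind.fintype_card_le_finrank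
    rw [Module.finrank_fin_fun, Fintype.card_coe] at h1
    exact h1
  have hRm : R.card = m := by
    rw [hcard] at hle ⊢
    have h1 : f.natDegree ∣ m ^ 2 := by
      rw [← hD]
      exact natDegree_dvd d
    obtain ⟨k, hk, hk'⟩ := (Nat.dvd_prime_pow hl).1 h1
    interval_cases k
    · rw [pow_zero] at hk'
      exact absurd hk' hdeg1
    · rw [pow_one] at hk'
      exact hk'
    · exfalso
      rw [hk'] at hle
      nlinarith [hl.one_lt]
  haveI : Nonempty R := by
    rw [← Fintype.card_pos_iff, Fintype.card_coe, hRm]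
    exact hl.pos
  let b : Basis R Ω (Fin m → Ω) := basisOfLinearIndependentOfCardEqFinrank hind (by
    rw [Fintype.card_coe, hRm, Module.finrank_fin_fun])
  have hb : ∀ θ, b θ = u θ := fun θ => by simp [b]
  let e : Matrix (Fin m) (Fin m) Ω ≃ₐ[Ω] Matrix R R Ω :=
    (Matrix.toLinAlgEquiv' (R := Ω) (n := Fin m)).trans (LinearMap.toMatrixAlgEquiv b)
  let ρ : D →ₐ[F] Matrix R R Ω := ((e.restrictScalars F : Matrix (Fin m) (Fin m) Ω ≃ₐ[F]
    Matrix R R Ω) : Matrix (Fin m) (Fin m) Ω →ₐ[F] Matrix R R Ω).comp ρ₀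
  have hρe : ∀ x, ρ x = e (ρ₀ x) := fun _ => rfl
  have hspan : Submodule.span Ω (Set.range ρ) = ⊤ := by
    have h1 : Set.range ρ = (e.toLinearMap : Matrix (Fin m) (Fin m) Ω →ₗ[Ω] Matrix R R Ω) ''
        Set.range ρ₀ := by
      rw [← Set.range_comp]
      rfl
    rw [h1, Submodule.span_image, hρ₀.1, Submodule.map_top, LinearMap.range_eq_top]
    exact e.surjective
  have hrep : IsRep ρ := ⟨hspan, by rw [hD, Fintype.card_coe, hRm]⟩
  have hdiag : ρ d = Matrix.diagonal (fun θ : R => (θ : Ω)) := by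
    ext i j
    have h1 : ρ d i j = b.repr (Matrix.toLin' (ρ₀ d) (b j)) i := by
      rw [hρe]
      exact LinearMap.toMatrixAlgEquiv_apply b _ i j
    rw [h1, hb, (hu j).apply_eq_smul, map_smul, ← hb, Basis.repr_self, Finsupp.smul_apply,
      Finsupp.single_apply, Matrix.diagonal_apply, smul_eq_mul]
    by_cases hij : j = i
    · subst hij
      simp
    · rw [if_neg hij, if_neg (fun h => hij h.symm), mul_zero]
  have hd' : ∃ d' : D, ∀ θ θ' : R, θ ≠ θ' → ρ d' θ θ' ≠ 0 := by
    by_contra hcon
    push Not at hcon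
    let L : ∀ q : {q : R × R // q.1 ≠ q.2}, D →ₗ[F] Ω := fun q =>
      { toFun := fun x => ρ x q.1.1 q.1.2
        map_add' := fun x y => by rw [map_add]; rfl
        map_smul' := fun a x => by rw [map_smul]; rfl }
    have hcov : ⋃ q : {q : R × R // q.1 ≠ q.2}, ((LinearMap.ker (L q) : Subspace F D) : Set D) =
        Set.univ := by
      rw [Set.eq_univ_iff_forall]
      intro x
      obtain ⟨θ, θ', h1, h2⟩ := hcon x
      exact Set.mem_iUnion.2 ⟨⟨(θ, θ'), h1⟩, h2⟩
    obtain ⟨q, hq⟩ := Subspace.exists_eq_top_of_iUnion_eq_univ hcov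
    let N : Submodule Ω (Matrix R R Ω) :=
      { carrier := {M | M q.1.1 q.1.2 = 0}
        add_mem' := fun {a b} ha hb => by
          change a q.1.1 q.1.2 + b q.1.1 q.1.2 = 0
          rw [show a q.1.1 q.1.2 = 0 from ha, show b q.1.1 q.1.2 = 0 from hb, add_zero]
        zero_mem' := rfl
        smul_mem' := fun c a ha => by
          change c * a q.1.1 q.1.2 = 0
          rw [show a q.1.1 q.1.2 = 0 from ha, mul_zero] }
    have h1 : (⊤ : Submodule Ω (Matrix R R Ω)) ≤ N := by
      rw [← hspan, Submodule.span_le]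
      rintro _ ⟨x, rfl⟩
      have h2 : x ∈ LinearMap.ker (L q) := by rw [hq]; trivial
      exact h2
    have h2 : Matrix.single q.1.1 q.1.2 (1 : Ω) ∈ N := h1 trivial
    have h3 : Matrix.single q.1.1 q.1.2 (1 : Ω) q.1.1 q.1.2 = 0 := h2
    rw [Matrix.single_apply_same] at h3
    exact one_ne_zero h3
  obtain ⟨d', hd'⟩ := hd'
  refine ⟨R, ?_, hRm, ρ, d, d', hrep, hdiag, hd'⟩
  intro g θ hθ
  rw [hR] at hθ ⊢
  rw [Polynomial.aeval_algHom_apply, hθ, map_zero]

end Pool.Agent.LibCoc63
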