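import Pool.Agent.LibCoc63.RTDefs
import Pool.Agent.LibK2Tower.Symbol

/-!
[COC S8] From the K_2 theorem to W = 1. s_k : K_2(B) → Additive (V B Ω), {u, v} ↦ S_(z k) (cst u) (cst v) is a homomorphism
(Steinberg symbol; QuotientAddGroup.lift, see k2lift in LibBrS.Defs: copy it here), s_k = l^a • s_(k+a) (S_root), and
l^k • s_k = 0 (S_pow_eq_one). s_k kills {f, v}, f ∈ F: f = f₁^(l^k) (S_pow_left).
x = {u, v}, j • x ∈ baseSymbols, j = l^a j', l ∤ j': 0 = j • s_(k+a) x = j' • s_k x, and l^k • s_k x = 0: s_k x = 0.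
-/

set_option autoImplicit false

open Finset Pool.Agent.LibK2Tower

namespace Pool.Agent.LibCoc63

/-- The homomorphism on `K_2(E)` given by a symbol. -/
private noncomputable def limLift {E G : Type*} [Field E] [AddCommGroup G] (c : Eˣ → Eˣ → G)
    (hc : IsSymbol c) : K2 E →+ G :=
  QuotientAddGroup.lift (k2Relations E) (FreeAbelianGroup.lift fun p => c p.1 p.2) (by
    intro x hx
    refine AddSubgroup.closure_induction (p := fun x _ =>
      x ∈ (FreeAbelianGroup.lift fun p : Eˣ × Eˣ => c p.1 p.2).ker) ?_ ?_ ?_ ?_ hx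
    · rintro x ((⟨u, v, w, rfl⟩ | ⟨u, v, w, rfl⟩) | ⟨u, v, huv, rfl⟩)
      · simp [AddMonoidHom.mem_ker, hc.mul_left]
      · simp [AddMonoidHom.mem_ker, hc.mul_right]
      · simp [AddMonoidHom.mem_ker, hc.steinberg u v huv]
    · exact zero_mem _
    · intro x y _ _ hx hy
      exact add_mem hx hy
    · intro x _ hx
      exact NegMemClass.neg_mem hx)

private theorem limLift_symb {E G : Type*} [Field E] [AddCommGroup G] (c : Eˣ → Eˣ → G)
    (hc : IsSymbol c) (u v : Eˣ) : limLift c hc (symb u v) = c u v := by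
  change FreeAbelianGroup.lift (fun p : Eˣ × Eˣ => c p.1 p.2) (FreeAbelianGroup.of (u, v)) = c u v
  simp

section lim

variable {B Ω : Type*} [Field B] [Field Ω] [Algebra B Ω]

private theorem lim_cst_mul (u v : Bˣ) : cst Ω Unit (u * v) = cst Ω Unit u * cst Ω Unit v := by
  funext x
  simp only [cst, Pi.mul_apply, map_mul]

private theorem lim_cst_pow (u : Bˣ) (n : ℕ) : cst Ω Unit (u ^ n) = cst Ω Unit u ^ n := by
  funext x
  simp only [cst, Pi.pow_apply, map_pow]

variable [IsAlgClosed Ω]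

/-- The symbol of constants. -/
private noncomputable def limC {m : ℕ} (z : PR B Ω m) (u v : Bˣ) : Additive (V B Ω) :=
  Additive.ofMul (S z (cst Ω Unit u) (cst Ω Unit v))

private theorem lim_isSymbol {m : ℕ} (z : PR B Ω m) : IsSymbol (limC z) := by
  refine ⟨?_, ?_, ?_⟩
  · intro u v w
    unfold limC
    rw [lim_cst_mul, S_mul_left z (cst_mem Unit u) (cst_mem Unit v) (cst_mem Unit w), ofMul_mul]
  · intro u v w
    unfold limC
    rw [lim_cst_mul, S_mul_right z (cst_mem Unit u) (cst_mem Unit v) (cst_mem Unit w), ofMul_mul]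
  · intro u v huv
    unfold limC
    rw [S_steinberg z (cst_mem Unit u) (cst_mem Unit v), ofMul_one]
    intro x
    have h1 : algebraMap B Ω (u : B) + algebraMap B Ω (v : B) = 1 := by
      rw [← map_add, huv, map_one]
    simpa [cst] using h1

end lim

theorem W_eq_bot {F B Ω : Type*} [Field F] [Field B] [Field Ω] [Algebra F B] [Algebra B Ω]
    [IsAlgClosed Ω] {l : ℕ} (hl : l.Prime) (hF : ∀ k : ℕ, ∀ a : F, ∃ b : F, b ^ (l ^ k) = a)
    (z : ∀ k, PR B Ω (l ^ k)) (hz : ∀ k, (z (k + 1)).ζ ^ l = (z k).ζ)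
    (hQ : ∀ x : K2 B, ∃ j : ℕ, j ≠ 0 ∧ j • x ∈ baseSymbols F B) (k : ℕ) : W (z k) = ⊥ := by
  -- the homomorphisms
  let σ : ∀ k : ℕ, K2 B →+ Additive (V B Ω) := fun k => limLift (limC (z k)) (lim_isSymbol (z k))
  have hσ : ∀ (k : ℕ) (u v : Bˣ), σ k (symb u v) =
      Additive.ofMul (S (z k) (cst Ω Unit u) (cst Ω Unit v)) :=
    fun k u v => limLift_symb _ _ u v
  -- (1)
  have h1 : ∀ (k : ℕ) (x : K2 B), x ∈ baseSymbols F B → σ k x = 0 := by
    intro k x hx
    have hle : baseSymbols F B ≤ (σ k).ker := by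
      rw [baseSymbols, AddSubgroup.closure_le]
      rintro x ⟨f, e, rfl⟩
      obtain ⟨b, hb⟩ := hF k (f : F)
      have hl0 : l ^ k ≠ 0 := pow_ne_zero _ hl.ne_zero
      have hb0 : b ≠ 0 := by
        rintro rfl
        rw [zero_pow hl0] at hb
        exact f.ne_zero hb.symm
      have hf : f = (Units.mk0 b hb0) ^ (l ^ k) := by
        ext
        rw [Units.val_pow_eq_pow_val, Units.val_mk0, hb]
      change σ k (symb (Units.map (algebraMap F B).toMonoidHom f) e) = 0
      rw [hσ, hf, map_pow, lim_cst_pow, S_pow_left (z k) (cst_mem Unit _) (cst_mem Unit _)]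
      rfl
    exact hle hx
  -- (3)
  have hroot : ∀ (a k : ℕ), (z k).ζ = (z (k + a)).ζ ^ (l ^ a) := by
    intro a
    induction a with
    | zero => intro k; rw [pow_zero, pow_one, add_zero]
    | succ a ih =>
      intro k
      have e2 : l * l ^ a = l ^ (a + 1) := by ring
      calc (z k).ζ = (z (k + a)).ζ ^ (l ^ a) := ih k
        _ = ((z (k + a + 1)).ζ ^ l) ^ (l ^ a) := by rw [hz (k + a)]
        _ = (z (k + a + 1)).ζ ^ (l * l ^ a) := (pow_mul _ _ _).symm
        _ = (z (k + a + 1)).ζ ^ (l ^ (a + 1)) :=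
          congrArg (fun t : ℕ => (z (k + a + 1)).ζ ^ t) e2
  -- the symbols
  have key : ∀ u w : Bˣ, S (z k) (cst Ω Unit u) (cst Ω Unit w) = 1 := by
    intro u w
    obtain ⟨j, hj, hjx⟩ := hQ (symb u w)
    obtain ⟨a, j', hj', hja⟩ := Nat.exists_eq_pow_mul_and_not_dvd hj l hl.ne_one
    have e1 : S (z k) (cst Ω Unit u) (cst Ω Unit w) =
        S (z (k + a)) (cst Ω Unit u) (cst Ω Unit w) ^ (l ^ a) :=
      S_root (z k) (z (k + a)) (pow_add l k a) (hroot a k) (cst_mem Unit u) (cst_mem Unit w)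
    have e2 : S (z (k + a)) (cst Ω Unit u) (cst Ω Unit w) ^ j = 1 := by
      have h2 := h1 (k + a) _ hjx
      rw [map_nsmul, hσ] at h2
      exact h2
    have e3 : S (z k) (cst Ω Unit u) (cst Ω Unit w) ^ j' = 1 := by
      rw [e1, ← pow_mul, ← hja, e2]
    have e4 : S (z k) (cst Ω Unit u) (cst Ω Unit w) ^ (l ^ k) = 1 :=
      S_pow_eq_one (z k) (cst_mem Unit u) (cst_mem Unit w)
    have e5 : orderOf (S (z k) (cst Ω Unit u) (cst Ω Unit w)) ∣ Nat.gcd j' (l ^ k) :=
      Nat.dvd_gcd (orderOf_dvd_of_pow_eq_one e3) (orderOf_dvd_of_pow_eq_one e4)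
    have e6 : Nat.gcd j' (l ^ k) = 1 :=
      Nat.Coprime.pow_right k (Nat.Coprime.symm ((Nat.Prime.coprime_iff_not_dvd hl).2 hj'))
    rw [e6, Nat.dvd_one] at e5
    exact orderOf_eq_one_iff.1 e5
  rw [W, Subgroup.closure_eq_bot_iff]
  rintro v ⟨u, w, rfl⟩
  exact key u w

end Pool.Agent.LibCoc63
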