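import Pool.Agent.LibCoc63.Prime
import Pool.Agent.LibCoc63.Lim
import Pool.Agent.LibBrS.Cyclic
import Pool.Agent.LibBrS.Cyclo

/-!
[COC A7] No central division algebra of prime degree. l = p: B = F, D → M_l(F) is impossible for a division ring of dimension
l² > l (a nonzero D-module has dimension divisible by dim D over F). l ≠ p: Ω = AlgebraicClosure F, B = F(μ_(l^∞))
(IntermediateField.adjoin of all ξ with ξ^(l^k) = 1), z k a compatible system in Ω. Every finite subset of B lies in some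
F(ξ), ξ^(l^k) = 1; hQB: every x ∈ K_2(B) comes from K_2(F(ξ)), where j x ∈ baseSymbols (hQ), and map to B (k2res). D → M_l(B)
has its entries in E = F(ξ): D → M_l(E), so D → M_l(K), K ⊗ D = M_l(K) for K = E as in `exists_cyclo` (cyclic over F);
`cyclic_descent`: D = M_l(F), contradiction.
-/

set_option autoImplicit false

open Finset Module Pool.Agent.LibK2Tower
open scoped TensorProduct

namespace Pool.Agent.LibCoc63

/-- The K_2 theorem for all extensions by roots of unity. -/
def HQ (F : Type) [Field F] : Prop :=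
  ∀ (E : Type) [Field E] [Algebra F E] (N : ℕ), N ≠ 0 → (N : F) ≠ 0 → ∀ ζ : E, ζ ^ N = 1 →
    IntermediateField.adjoin F {ζ} = ⊤ →
      ∀ x : K2 E, ∃ j : ℕ, j ≠ 0 ∧ j • x ∈ baseSymbols F E

section level

variable {F : Type} [Field F] {Ω : Type} [Field Ω] [Algebra F Ω] {l : ℕ}

/-- A generator of the group of the roots of unity of order `l ^ k`. -/
private lemma a7_gen (Ω : Type) [Field Ω] (hl : l.Prime) (k : ℕ) : ∃ g : Ω, g ^ (l ^ k) = 1 ∧
    ∀ ξ : Ω, ξ ^ (l ^ k) = 1 → ∃ i : ℕ, g ^ i = ξ := by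
  haveI : NeZero (l ^ k) := ⟨pow_ne_zero _ hl.ne_zero⟩
  obtain ⟨g, hg⟩ := IsCyclic.exists_generator (α := rootsOfUnity (l ^ k) Ω)
  refine ⟨((g : Ωˣ) : Ω), ?_, fun ξ hξ => ?_⟩
  · have := g.2
    rw [mem_rootsOfUnity'] at this
    exact this
  · obtain ⟨i, hi⟩ := mem_powers_iff_mem_zpowers.2 (hg (rootsOfUnity.mkOfPowEq ξ hξ))
    refine ⟨i, ?_⟩
    have h1 : g ^ i = rootsOfUnity.mkOfPowEq ξ hξ := hi
    have h2 := congrArg (fun x : rootsOfUnity (l ^ k) Ω => ((x : Ωˣ) : Ω)) h1
    simpa using h2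

variable (F) in
private lemma a7_level (hl : l.Prime) {g : ℕ → Ω}
    (hg : ∀ k, g k ^ (l ^ k) = 1 ∧ ∀ ξ : Ω, ξ ^ (l ^ k) = 1 → ∃ i : ℕ, g k ^ i = ξ) {x : Ω}
    (hx : x ∈ IntermediateField.adjoin F {ξ : Ω | ∃ k : ℕ, ξ ^ (l ^ k) = 1}) :
    ∃ k, ∀ m, k ≤ m → x ∈ IntermediateField.adjoin F {g m} := by
  obtain ⟨T, hT, hxT⟩ := IntermediateField.exists_finset_of_mem_adjoin hx
  have h1 : ∀ t ∈ T, ∃ k : ℕ, t ^ (l ^ k) = 1 := fun t ht => hT ht
  choose! κ hκ using h1
  refine ⟨T.sup κ, fun m hm => ?_⟩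
  have h2 : IntermediateField.adjoin F (T : Set Ω) ≤ IntermediateField.adjoin F {g m} := by
    rw [IntermediateField.adjoin_le_iff]
    intro t ht
    have h3 : κ t ≤ m := (Finset.le_sup (f := κ) ht).trans hm
    have h4 : t ^ (l ^ m) = 1 := by
      obtain ⟨c, hc⟩ := pow_dvd_pow l h3
      rw [hc, pow_mul, hκ t ht, one_pow]
    obtain ⟨i, hi⟩ := (hg m).2 t h4
    rw [← hi]
    exact pow_mem (IntermediateField.mem_adjoin_simple_self F (g m)) i
  exact h2 hxT

private lemma a7_level_finset (hl : l.Prime) {g : ℕ → Ω}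
    (hg : ∀ k, g k ^ (l ^ k) = 1 ∧ ∀ ξ : Ω, ξ ^ (l ^ k) = 1 → ∃ i : ℕ, g k ^ i = ξ)
    {ι : Type*} (T : Finset ι) (f : ι → Ω)
    (hx : ∀ t ∈ T, f t ∈ IntermediateField.adjoin F {ξ : Ω | ∃ k : ℕ, ξ ^ (l ^ k) = 1}) :
    ∃ k, ∀ m, k ≤ m → ∀ t ∈ T, f t ∈ IntermediateField.adjoin F {g m} := by
  have h1 : ∀ t ∈ T, ∃ k, ∀ m, k ≤ m → f t ∈ IntermediateField.adjoin F {g m} :=
    fun t ht => a7_level F hl hg (hx t ht)
  choose! κ hκ using h1
  exact ⟨T.sup κ, fun m hm t ht => hκ t ht m ((Finset.le_sup (f := κ) ht).trans hm)⟩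

variable (F) in
private lemma a7_le {x : Ω} {k : ℕ} (hx : x ^ (l ^ k) = 1) :
    IntermediateField.adjoin F {x} ≤
      IntermediateField.adjoin F {ξ : Ω | ∃ k : ℕ, ξ ^ (l ^ k) = 1} := by
  apply IntermediateField.adjoin.mono
  intro y hy
  rw [Set.mem_singleton_iff.1 hy]
  exact ⟨k, hx⟩

variable (F) in
private lemma a7_top (x : Ω) : IntermediateField.adjoin F
    {(⟨x, IntermediateField.mem_adjoin_simple_self F x⟩ : IntermediateField.adjoin F {x})} = ⊤ := by
  apply IntermediateField.lift_injective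
  rw [IntermediateField.lift_adjoin_simple, IntermediateField.lift_top]

end level

/-- The image of `K_2` under a homomorphism over `F`. -/
private lemma a7_map_base {F E K : Type*} [Field F] [Field E] [Field K] [Algebra F E] [Algebra F K]
    [Algebra E K] [IsScalarTower F E K] {x : K2 E} (hx : x ∈ baseSymbols F E) :
    Pool.Agent.LibBrS.k2res E K x ∈ baseSymbols F K := by
  have h : baseSymbols F E ≤ (baseSymbols F K).comap (Pool.Agent.LibBrS.k2res E K) := by
    refine (AddSubgroup.closure_le _).2 ?_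
    rintro _ ⟨f, e, rfl⟩
    show Pool.Agent.LibBrS.k2res E K _ ∈ baseSymbols F K
    rw [Pool.Agent.LibBrS.k2res_symb]
    refine AddSubgroup.subset_closure ⟨f, Units.map (algebraMap E K).toMonoidHom e, ?_⟩
    congr 1
    ext
    exact (IsScalarTower.algebraMap_apply F E K f).symm
  exact h hx

private lemma a7_infinite {F : Type} [Field F] (h : HQ F) {Ω : Type} [Field Ω] [Algebra F Ω]
    {l : ℕ} (hl : l.Prime) (hlF : (l : F) ≠ 0) {B : IntermediateField F Ω}
    (hB : B = IntermediateField.adjoin F {ξ : Ω | ∃ k : ℕ, ξ ^ (l ^ k) = 1}) (x : K2 B) :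
    ∃ j : ℕ, j ≠ 0 ∧ j • x ∈ baseSymbols F B := by
  choose g hg using a7_gen Ω hl
  have hle : ∀ m, IntermediateField.adjoin F {g m} ≤ B := fun m => by
    rw [hB]
    exact a7_le F (hg m).1
  letI alg : ∀ m, Algebra (IntermediateField.adjoin F {g m}) B := fun m =>
    (IntermediateField.inclusion (hle m)).toRingHom.toAlgebra
  haveI tow : ∀ m, IsScalarTower F (IntermediateField.adjoin F {g m}) B := fun m =>
    IsScalarTower.of_algebraMap_eq fun a => rfl
  have hval : ∀ m (a : IntermediateField.adjoin F {g m}),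
      ((algebraMap (IntermediateField.adjoin F {g m}) B a : B) : Ω) = (a : Ω) := fun m a => rfl
  have key : ∃ k, ∀ m, k ≤ m → ∃ y : K2 (IntermediateField.adjoin F {g m}),
      Pool.Agent.LibBrS.k2res (IntermediateField.adjoin F {g m}) B y = x := by
    induction x using K2.induction with
    | h0 => exact ⟨0, fun m _ => ⟨0, map_zero _⟩⟩
    | hs u v =>
      obtain ⟨k, hk⟩ := a7_level F hl hg (hB.le (u : B).2)
      obtain ⟨k', hk'⟩ := a7_level F hl hg (hB.le (v : B).2)
      refine ⟨max k k', fun m hm => ?_⟩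
      have hu := hk m ((le_max_left _ _).trans hm)
      have hv := hk' m ((le_max_right _ _).trans hm)
      have hu0 : (⟨((u : B) : Ω), hu⟩ : IntermediateField.adjoin F {g m}) ≠ 0 := by
        intro h0
        apply u.ne_zero
        have h1 : ((u : B) : Ω) = 0 := congrArg Subtype.val h0
        exact Subtype.ext h1
      have hv0 : (⟨((v : B) : Ω), hv⟩ : IntermediateField.adjoin F {g m}) ≠ 0 := by
        intro h0
        apply v.ne_zero
        have h1 : ((v : B) : Ω) = 0 := congrArg Subtype.val h0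
        exact Subtype.ext h1
      refine ⟨symb (Units.mk0 _ hu0) (Units.mk0 _ hv0), ?_⟩
      rw [Pool.Agent.LibBrS.k2res_symb]
      congr 1
      · ext
        rfl
      · ext
        rfl
    | hn x ih =>
      obtain ⟨k, hk⟩ := ih
      refine ⟨k, fun m hm => ?_⟩
      obtain ⟨y, hy⟩ := hk m hm
      exact ⟨-y, by rw [map_neg, hy]⟩
    | ha x x' ih ih' =>
      obtain ⟨k, hk⟩ := ih
      obtain ⟨k', hk'⟩ := ih'
      refine ⟨max k k', fun m hm => ?_⟩
      obtain ⟨y, hy⟩ := hk m ((le_max_left _ _).trans hm)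
      obtain ⟨y', hy'⟩ := hk' m ((le_max_right _ _).trans hm)
      exact ⟨y + y', by rw [map_add, hy, hy']⟩
  obtain ⟨k, hk⟩ := key
  obtain ⟨y, hy⟩ := hk k le_rfl
  have hN : ((l ^ k : ℕ) : F) ≠ 0 := by
    rw [Nat.cast_pow]
    exact pow_ne_zero _ hlF
  obtain ⟨j, hj, hj'⟩ := h (IntermediateField.adjoin F {g k}) (l ^ k)
    (pow_ne_zero _ hl.ne_zero) hN ⟨g k, IntermediateField.mem_adjoin_simple_self F (g k)⟩
    (Subtype.ext (hg k).1) (a7_top F (g k)) y
  refine ⟨j, hj, ?_⟩
  have h1 := a7_map_base (K := B) hj'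
  rwa [map_nsmul, hy] at h1

theorem HQ.infinite {F : Type} [Field F] (h : HQ F) {Ω : Type} [Field Ω] [Algebra F Ω] {l : ℕ}
    (hl : l.Prime) (hlF : (l : F) ≠ 0)
    (x : K2 (IntermediateField.adjoin F {ξ : Ω | ∃ k : ℕ, ξ ^ (l ^ k) = 1})) :
    ∃ j : ℕ, j ≠ 0 ∧ j • x ∈
      baseSymbols F (IntermediateField.adjoin F {ξ : Ω | ∃ k : ℕ, ξ ^ (l ^ k) = 1}) :=
  a7_infinite h hl hlF rfl x

theorem exists_hom_finite {F : Type} [Field F] {Ω : Type} [Field Ω] [Algebra F Ω] {l : ℕ}
    (hl : l.Prime) {D : Type} [Ring D] [Algebra F D] [FiniteDimensional F D]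
    (hD : D →ₐ[F] Matrix (Fin l) (Fin l)
      (IntermediateField.adjoin F {ξ : Ω | ∃ k : ℕ, ξ ^ (l ^ k) = 1})) :
    ∃ (k : ℕ) (ξ : Ω), ξ ^ (l ^ k) = 1 ∧
      Nonempty (D →ₐ[F] Matrix (Fin l) (Fin l) (IntermediateField.adjoin F {ξ})) := by
  classical
  choose g hg using a7_gen Ω hl
  set B : IntermediateField F Ω := IntermediateField.adjoin F {ξ : Ω | ∃ k : ℕ, ξ ^ (l ^ k) = 1}
    with hB
  have hle : ∀ m, IntermediateField.adjoin F {g m} ≤ B := fun m => a7_le F (hg m).1
  let b := Module.finBasis F D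
  obtain ⟨k, hk⟩ := a7_level_finset (F := F) hl hg
    (Finset.univ : Finset (Fin (finrank F D) × Fin l × Fin l))
    (fun t => ((hD (b t.1) t.2.1 t.2.2 : B) : Ω)) (fun t _ => (hD (b t.1) t.2.1 t.2.2).2)
  set E : IntermediateField F Ω := IntermediateField.adjoin F {g k} with hE
  have hk1 : ∀ (i : Fin (finrank F D)) (x y : Fin l), ((hD (b i) x y : B) : Ω) ∈ E :=
    fun i x y => hk k le_rfl (i, x, y) (Finset.mem_univ _)
  have hk2 : ∀ (d : D) (x y : Fin l), ((hD d x y : B) : Ω) ∈ E := by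
    intro d x y
    have h1 : hD d = ∑ i, b.repr d i • hD (b i) := by
      conv_lhs => rw [← b.sum_repr d]
      rw [map_sum]
      exact Finset.sum_congr rfl fun i _ => map_smul _ _ _
    rw [h1, Matrix.sum_apply]
    have h2 : (((∑ i, (b.repr d i • hD (b i)) x y : B)) : Ω) =
        ∑ i, b.repr d i • ((hD (b i) x y : B) : Ω) := by
      rw [AddSubmonoidClass.coe_finset_sum]
      exact Finset.sum_congr rfl fun i _ => rfl
    rw [h2]
    exact E.sum_mem fun i _ => E.smul_mem (hk1 i x y)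
  let ι : Matrix (Fin l) (Fin l) E →ₐ[F] Matrix (Fin l) (Fin l) B :=
    (IntermediateField.inclusion (hle k)).mapMatrix
  have hι : Function.Injective ι := by
    intro M N h
    ext x y
    have h1 : ι M x y = ι N x y := congrFun (congrFun h x) y
    have h2 : ((ι M x y : B) : Ω) = ((ι N x y : B) : Ω) := congrArg Subtype.val h1
    exact h2
  have hr : ∀ d, hD d ∈ ι.range := by
    intro d
    refine ⟨fun x y => ⟨((hD d x y : B) : Ω), hk2 d x y⟩, ?_⟩
    ext x y
    rfl
  exact ⟨k, g k, (hg k).1,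
    ⟨(AlgEquiv.ofInjective ι hι).symm.toAlgHom.comp (hD.codRestrict ι.range hr)⟩⟩

section simple

variable {F K D : Type} [Field F] [Field K] [Algebra F K] [DivisionRing D] [Algebra F D]
  [Algebra.IsCentral F D]

/-- Elements of a basis of `K` over `F` stay independent over `D` in any `K`-algebra. -/
private lemma a7_indep {ι : Type} [Fintype ι] (κ : Module.Basis ι F K) {A : Type} [Ring A]
    [Nontrivial A] [Algebra F A] [Algebra K A] [IsScalarTower F K A] (ρ : D →ₐ[F] A) :
    ∀ (n : ℕ) (x : ι → D), (∃ S : Finset ι, S.card ≤ n ∧ ∀ i, i ∉ S → x i = 0) →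
      ∑ i, κ i • ρ (x i) = 0 → x = 0 := by
  classical
  intro n
  induction n with
  | zero =>
    rintro x ⟨S, hS, h⟩ _
    funext i
    apply h
    rw [Finset.card_eq_zero.1 (Nat.le_zero.1 hS)]
    exact Finset.notMem_empty i
  | succ n ih =>
    rintro x ⟨S, hS, h⟩ hx
    by_contra hne
    obtain ⟨j, hj⟩ : ∃ j, x j ≠ 0 := by
      by_contra hcon
      push_neg at hcon
      exact hne (funext hcon)
    have hjS : j ∈ S := by
      by_contra h1
      exact hj (h j h1)
    have hy : ∑ i, κ i • ρ ((x j)⁻¹ * x i) = 0 := by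
      have h1 : ρ (x j)⁻¹ * ∑ i, κ i • ρ (x i) = 0 := by rw [hx, mul_zero]
      rw [Finset.mul_sum] at h1
      rw [← h1]
      refine Finset.sum_congr rfl fun i _ => ?_
      rw [map_mul, mul_smul_comm]
    have hcomm : ∀ d : D, ∀ i, d * ((x j)⁻¹ * x i) = ((x j)⁻¹ * x i) * d := by
      intro d
      have h1 := ih (fun i => d * ((x j)⁻¹ * x i) - ((x j)⁻¹ * x i) * d)
        ⟨S.erase j, by
          rw [Finset.card_erase_of_mem hjS]
          omega, fun i hi => by
          by_cases hij : i = j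
          · rw [hij, inv_mul_cancel₀ hj, mul_one, one_mul, sub_self]
          · have h2 : i ∉ S := fun h3 => hi (Finset.mem_erase.2 ⟨hij, h3⟩)
            show d * ((x j)⁻¹ * x i) - ((x j)⁻¹ * x i) * d = 0
            rw [h i h2, mul_zero, mul_zero, zero_mul, sub_self]⟩ ?_
      · intro i
        have h2 := congrFun h1 i
        exact sub_eq_zero.1 h2
      · have h3 : ρ d * ∑ i, κ i • ρ ((x j)⁻¹ * x i) - (∑ i, κ i • ρ ((x j)⁻¹ * x i)) * ρ d = 0 := by
          rw [hy, mul_zero, zero_mul, sub_self]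
        rw [← h3, Finset.mul_sum, Finset.sum_mul, ← Finset.sum_sub_distrib]
        refine Finset.sum_congr rfl fun i _ => ?_
        rw [map_sub, map_mul ρ d, map_mul ρ _ d, smul_sub, mul_smul_comm, smul_mul_assoc]
    have hcen : ∀ i, ∃ c : F, algebraMap F D c = (x j)⁻¹ * x i := by
      intro i
      have h1 : (x j)⁻¹ * x i ∈ Subalgebra.center F D :=
        Subalgebra.mem_center_iff.2 fun d => hcomm d i
      rw [Algebra.IsCentral.center_eq_bot F D] at h1
      exact Algebra.mem_bot.1 h1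
    choose c hc using hcen
    have h2 : ∑ i, κ i • ρ ((x j)⁻¹ * x i) = algebraMap K A (∑ i, c i • κ i) := by
      rw [map_sum]
      refine Finset.sum_congr rfl fun i _ => ?_
      rw [← hc i, AlgHom.commutes, Algebra.smul_def, IsScalarTower.algebraMap_apply F K A,
        ← map_mul, Algebra.smul_def, mul_comm]
    rw [h2, map_eq_zero_iff _ (algebraMap K A).injective] at hy
    have h3 : ∀ i, c i = 0 := Fintype.linearIndependent_iff.1 κ.linearIndependent c hy
    have h4 := hc j
    rw [h3 j, map_zero, inv_mul_cancel₀ hj] at h4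
    exact zero_ne_one h4

/-- The extension of a representation to `K ⊗ D` is injective. -/
private lemma a7_inj [FiniteDimensional F K] {A : Type} [Ring A] [Nontrivial A] [Algebra F A]
    [Algebra K A] [IsScalarTower F K A] (ρ : D →ₐ[F] A) :
    ∃ σ : K ⊗[F] D →ₐ[K] A, Function.Injective σ := by
  let σ : K ⊗[F] D →ₐ[K] A := Algebra.TensorProduct.lift (Algebra.ofId K A) ρ
    (fun x y => Algebra.commutes x (ρ y))
  refine ⟨σ, ?_⟩
  let κ := Module.finBasis F K
  have hrep : ∀ t : K ⊗[F] D, ∃ x : Fin (finrank F K) → D, t = ∑ i, κ i ⊗ₜ[F] x i := by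
    intro t
    induction t using TensorProduct.induction_on with
    | zero => exact ⟨0, by simp⟩
    | tmul k d =>
      refine ⟨fun i => κ.repr k i • d, ?_⟩
      conv_lhs => rw [← κ.sum_repr k]
      rw [TensorProduct.sum_tmul]
      refine Finset.sum_congr rfl fun i _ => ?_
      rw [TensorProduct.smul_tmul]
    | add t t' ht ht' =>
      obtain ⟨x, hx⟩ := ht
      obtain ⟨x', hx'⟩ := ht'
      refine ⟨x + x', ?_⟩
      rw [hx, hx', ← Finset.sum_add_distrib]
      refine Finset.sum_congr rfl fun i _ => ?_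
      rw [Pi.add_apply, TensorProduct.tmul_add]
  rw [injective_iff_map_eq_zero]
  intro t ht
  obtain ⟨x, rfl⟩ := hrep t
  have h1 : ∑ i, κ i • ρ (x i) = 0 := by
    rw [← ht, map_sum]
    refine Finset.sum_congr rfl fun i _ => ?_
    show κ i • ρ (x i) = Algebra.ofId K A (κ i) * ρ (x i)
    rw [Algebra.smul_def]
    rfl
  have h2 := a7_indep κ ρ _ x ⟨Finset.univ, le_rfl, fun i hi => absurd (Finset.mem_univ i) hi⟩ h1
  rw [h2]
  simp

private lemma a7_not_matrix {l : ℕ} (hl : 1 < l) (e : D ≃ₐ[F] Matrix (Fin l) (Fin l) F) :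
    False := by
  let i : Fin l := ⟨0, by omega⟩
  let j : Fin l := ⟨1, hl⟩
  have hij : i ≠ j := by
    intro h
    have := congrArg Fin.val h
    simp [i, j] at this
  have h1 : (Matrix.single i i (1 : F)) * (Matrix.single j j (1 : F)) = 0 := by
    rw [Matrix.single_mul_single_of_ne _ _ _ _ hij]
  have h2 : ∀ i : Fin l, e.symm (Matrix.single i i (1 : F)) ≠ 0 := by
    intro i h
    rw [map_eq_zero_iff _ e.symm.injective] at h
    have := congrFun (congrFun h i) i
    rw [Matrix.single_apply_same] at this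
    exact one_ne_zero this
  have h3 : e.symm (Matrix.single i i (1 : F)) * e.symm (Matrix.single j j (1 : F)) = 0 := by
    rw [← map_mul, h1, map_zero]
  rcases mul_eq_zero.1 h3 with h | h
  · exact h2 i h
  · exact h2 j h

end simple

/-- A compatible system of primitive roots of unity. -/
private lemma a7_system {Ω : Type} [Field Ω] [IsAlgClosed Ω] {l : ℕ} (hl : l.Prime)
    (hlΩ : (l : Ω) ≠ 0) : ∃ u : ℕ → Ωˣ, (∀ k, IsPrimitiveRoot (u k) (l ^ k)) ∧
      ∀ k, u (k + 1) ^ l = u k := by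
  haveI : NeZero (l : Ω) := ⟨hlΩ⟩
  haveI : NeZero l := ⟨hl.ne_zero⟩
  haveI : Fact l.Prime := ⟨hl⟩
  obtain ⟨ζ, hζ⟩ := HasEnoughRootsOfUnity.exists_primitiveRoot Ω l
  have hζ' : IsPrimitiveRoot (Units.mk0 ζ (hζ.ne_zero hl.ne_zero)) l := by
    rw [← IsPrimitiveRoot.coe_units_iff]
    exact hζ
  have hroot : ∀ a : Ωˣ, ∃ b : Ωˣ, b ^ l = a := by
    intro a
    obtain ⟨b, hb⟩ := IsAlgClosed.exists_pow_nat_eq (a : Ω) hl.pos
    have hb0 : b ≠ 0 := by
      rintro rfl
      rw [zero_pow hl.ne_zero] at hb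
      exact a.ne_zero hb.symm
    exact ⟨Units.mk0 b hb0, by ext; simpa using hb⟩
  choose r hr using hroot
  set ζ' := Units.mk0 ζ (hζ.ne_zero hl.ne_zero) with hζ'def
  have hv : ∀ k, (r^[k + 1] ζ') ^ l = r^[k] ζ' := by
    intro k
    rw [Function.iterate_succ_apply', hr]
  have hprim : ∀ k, IsPrimitiveRoot (r^[k] ζ') (l ^ (k + 1)) := by
    intro k
    induction k with
    | zero => simpa using hζ'
    | succ k ih =>
      rw [IsPrimitiveRoot.iff_orderOf]
      apply orderOf_eq_prime_pow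
      · rw [pow_succ' l k, pow_mul, hv]
        intro h
        have h1 := ih.dvd_of_pow_eq_one _ h
        have h2 := Nat.le_of_dvd (pow_pos hl.pos k) h1
        exact absurd h2 (not_le.2 (Nat.pow_lt_pow_right hl.one_lt (Nat.lt_succ_self k)))
      · rw [pow_succ' l (k + 1), pow_mul, hv]
        exact ih.pow_eq_one
  refine ⟨fun k => Nat.casesOn k 1 fun j => r^[j] ζ', fun k => ?_, fun k => ?_⟩
  · cases k with
    | zero =>
      rw [pow_zero]
      exact IsPrimitiveRoot.one
    | succ k => exact hprim k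
  · cases k with
    | zero => exact hζ'.pow_eq_one
    | succ k => exact hv k

theorem prime_degree {F : Type} [Field F] (p : ℕ) [Fact p.Prime] [CharP F p]
    (hF : ∀ n : ℕ, n ≠ 0 → ∀ a : F, ∃ b : F, b ^ n = a) (hQ : HQ F) {D : Type} [DivisionRing D]
    [Algebra F D] [Algebra.IsCentral F D] {l : ℕ} (hl : l.Prime) : finrank F D ≠ l ^ 2 := by
  classical
  intro hD
  have hl1 : 1 < l := hl.one_lt
  have hp : p.Prime := Fact.out
  haveI : FiniteDimensional F D := FiniteDimensional.of_finrank_pos (by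
    rw [hD]
    exact pow_pos hl.pos 2)
  haveI : ExpChar F p := ExpChar.prime hp
  haveI : PerfectRing F p := PerfectRing.ofSurjective F p fun a => hF p hp.ne_zero a
  haveI : PerfectField F := PerfectRing.toPerfectField F p
  by_cases hlp : l = p
  · subst hlp
    haveI : CharP (AlgebraicClosure F) l :=
      charP_of_injective_algebraMap (algebraMap F (AlgebraicClosure F)).injective l
    obtain ⟨f⟩ := exists_hom_of_prime (F := F) (B := F) (Ω := AlgebraicClosure F) (D := D) hl hD
      (Or.inl inferInstance)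
    obtain ⟨e⟩ := split_of_hom hl.ne_zero hD f
    exact a7_not_matrix hl1 e
  · have hlF : (l : F) ≠ 0 := by
      intro h
      rw [CharP.cast_eq_zero_iff F p l, Nat.prime_dvd_prime_iff_eq hp hl] at h
      exact hlp h.symm
    have hlΩ : (l : AlgebraicClosure F) ≠ 0 := by
      intro h
      apply hlF
      apply (algebraMap F (AlgebraicClosure F)).injective
      rw [map_natCast, h, map_zero]
    obtain ⟨u, hu, hu'⟩ := a7_system hl hlΩ
    let B : IntermediateField F (AlgebraicClosure F) :=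
      IntermediateField.adjoin F {ξ : AlgebraicClosure F | ∃ k : ℕ, ξ ^ (l ^ k) = 1}
    have huB : ∀ k, ((u k : (AlgebraicClosure F)ˣ) : AlgebraicClosure F) ∈ B := by
      intro k
      apply IntermediateField.subset_adjoin
      refine ⟨k, ?_⟩
      have := congrArg Units.val (hu k).pow_eq_one
      simpa using this
    haveI : Algebra.IsAlgebraic B (AlgebraicClosure F) := Algebra.IsAlgebraic.tower_top (K := F) B
    haveI : PerfectField B := Algebra.IsAlgebraic.perfectField (K := F) (L := B)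
    let z : ∀ k, PR B (AlgebraicClosure F) (l ^ k) := fun k =>
      { ζ := u k
        pos := pow_pos hl.pos k
        prim := hu k
        fix := by
          intro g
          ext
          exact g.commutes (⟨_, huB k⟩ : B) }
    have hW : W (z 1) = ⊥ := W_eq_bot (F := F) hl
      (fun k a => hF (l ^ k) (pow_ne_zero _ hl.ne_zero) a) z hu'
      (fun x => HQ.infinite hQ hl hlF x) 1
    have hW' : ∃ z : PR B (AlgebraicClosure F) (l ^ 1), W z = ⊥ := ⟨z 1, hW⟩
    rw [pow_one] at hW'
    obtain ⟨f⟩ := exists_hom_of_prime (F := F) (B := B) (Ω := AlgebraicClosure F) (D := D) hl hD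
      (Or.inr hW')
    obtain ⟨k, ξ, hξ, ⟨f'⟩⟩ := exists_hom_finite hl f
    have hcop : (l ^ k).Coprime p := by
      apply Nat.Coprime.pow_left
      exact (Nat.coprime_primes hl hp).2 hlp
    obtain ⟨K, _, _, _, _, _, _, hcyc, _⟩ := LibBrS.exists_cyclo (F := F)
      (E := IntermediateField.adjoin F {ξ}) p hcop (pow_pos hl.pos k)
      (ζ := ⟨ξ, IntermediateField.mem_adjoin_simple_self F ξ⟩) (Subtype.ext hξ) (a7_top F ξ)
      (n := 1) (Nat.coprime_one_left p) one_pos
    let f'' : D →ₐ[F] Matrix (Fin l) (Fin l) K :=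
      (IsScalarTower.toAlgHom F (IntermediateField.adjoin F {ξ}) K).mapMatrix.comp f'
    haveI : Nonempty (Fin l) := ⟨⟨0, hl.pos⟩⟩
    obtain ⟨σ, hσ⟩ := a7_inj (K := K) f''
    have hdim : finrank K (K ⊗[F] D) = finrank K (Matrix (Fin l) (Fin l) K) := by
      rw [Module.finrank_baseChange, hD, Module.finrank_matrix, Module.finrank_self,
        Fintype.card_fin]
      ring
    have hbij : Function.Bijective σ := ⟨hσ,
      (LinearMap.injective_iff_surjective_of_finrank_eq_finrank hdim (f := σ.toLinearMap)).1 hσ⟩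
    obtain ⟨e⟩ := LibBrS.cyclic_descent (F := F) (L := K) hcyc
      (fun c => hF (finrank F K) Module.finrank_pos.ne' c) hl.ne_zero (AlgEquiv.ofBijective σ hbij)
    exact a7_not_matrix hl1 e

end Pool.Agent.LibCoc63
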