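import Pool.Agent.LibCoc63.Tensor
import Pool.Agent.LibCoc63.Desc
import Pool.Agent.LibCoc63.Fin
import Pool.Agent.LibMS46.Reduce

/-!
The classes of central simple algebras form an invariant in the sense of `LibMS46.Invariant`, and
the statement on division algebras of prime degree in the form of `LibMS46.Assembly`.
-/

set_option autoImplicit false

open Finset Module Pool.Agent.LibK2Tower
open scoped TensorProduct

namespace Pool.Agent.LibCoc63

theorem perfectField_of_div {F : Type} [Field F] (p : ℕ) [Fact p.Prime] [CharP F p]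
    (hF : ∀ n : ℕ, n ≠ 0 → ∀ a : F, ∃ b : F, b ^ n = a) : PerfectField F := by
  have : ExpChar F p := ExpChar.prime Fact.out
  have : PerfectRing F p := PerfectRing.ofSurjective F p (fun a => by
    obtain ⟨b, hb⟩ := hF p (Fact.out : p.Prime).ne_zero a
    exact ⟨b, by rw [frobenius_def, hb]⟩)
  exact PerfectRing.toPerfectField F p

/-- The class relation of an algebra. -/
def Rel (F : Type) [Field F] (A : Type) [Ring A] [Algebra F A]
    (v : V F (AlgebraicClosure F)) : Prop :=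
  ∃ n : ℕ, n ≠ 0 ∧ ∃ ρ : A →ₐ[F] Matrix (Fin n) (Fin n) (AlgebraicClosure F),
    IsRep ρ ∧ IsCls F ρ v

theorem exists_rel {F A : Type} [Field F] [Ring A] [Algebra F A] (hA : LibMS46.IsCSA F A) :
    ∃ v, Rel F A v := by
  obtain ⟨_, _, _⟩ := hA
  obtain ⟨n, hn, ρ, hρ⟩ := exists_rep F (AlgebraicClosure F) A
  have : NeZero n := ⟨hn⟩
  obtain ⟨v, hv⟩ := exists_isCls F hρ
  exact ⟨v, n, hn, ρ, hρ, hv⟩

theorem rel_unique {F A : Type} [Field F] [Ring A] [Algebra F A]
    {n : Type} [Fintype n] [DecidableEq n] [Nonempty n]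
    {ρ : A →ₐ[F] Matrix n n (AlgebraicClosure F)} (hρ : IsRep ρ)
    {v w : V F (AlgebraicClosure F)} (hv : IsCls F ρ v) (hw : Rel F A w) : w = v := by
  obtain ⟨m, hm, σ, hσ, hw⟩ := hw
  have : NeZero m := ⟨hm⟩
  exact (isCls_unique hρ AlgEquiv.refl hσ hv hw).symm

theorem invariant (p : ℕ) [Fact p.Prime] (F : Type) [Field F] [CharP F p]
    (hF : ∀ n : ℕ, n ≠ 0 → ∀ a : F, ∃ b : F, b ^ n = a) :
    LibMS46.Invariant F (V F (AlgebraicClosure F)) p (fun A _ _ v => Rel F A v) := by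
  have hP : PerfectField F := perfectField_of_div p hF
  refine ⟨?_, ?_, ?_, ?_, ?_, ?_, ?_⟩
  · intro A _ _ hA
    exact exists_rel hA
  · obtain ⟨v, n, hn, ρ, hρ, hv⟩ := exists_rel (LibMS46.IsCSA.self F)
    have : NeZero n := ⟨hn⟩
    obtain ⟨e⟩ := split_of_hom (F := F) (D := F) one_ne_zero (by rw [finrank_self, one_pow])
      (Algebra.ofId F (Matrix (Fin 1) (Fin 1) F))
    have h1 := isCls_split e hρ hv
    rw [h1] at hv
    exact ⟨n, hn, ρ, hρ, hv⟩
  · intro A B _ _ _ _ v w hA hB hv hw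
    obtain ⟨n, hn, ρ, hρ, hv⟩ := hv
    obtain ⟨m, hm, σ, hσ, hw⟩ := hw
    have : NeZero n := ⟨hn⟩
    have : NeZero m := ⟨hm⟩
    obtain ⟨τ, hτ, hvw⟩ := isCls_tensor hρ hσ hv hw
    obtain ⟨u, hu⟩ := exists_rel (hA.tensor hB)
    have h1 := rel_unique hτ hvw hu
    rwa [h1] at hu
  · intro A _ _ v _ hv
    obtain ⟨n, hn, ρ, hρ, hv⟩ := hv
    refine ⟨n, hn, ?_⟩
    have := isCls_pow hv
    rwa [Fintype.card_fin] at this
  · intro v hv
    have : CharP (AlgebraicClosure F) p :=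
      charP_of_injective_algebraMap (algebraMap F (AlgebraicClosure F)).injective p
    exact eq_one_of_pow_char p hv
  · intro A _ _ v hA hv h1
    obtain ⟨_, _, _⟩ := hA
    obtain ⟨n, hn, ρ, hρ, hv⟩ := hv
    have : NeZero n := ⟨hn⟩
    rw [h1] at hv
    obtain ⟨f⟩ := exists_hom_of_isCls_one hv
    have hd : finrank F A = n ^ 2 := by rw [hρ.2, Fintype.card_fin]
    exact ⟨n, hn, split_of_hom hn hd f⟩
  · intro A _ _ v hA hv
    obtain ⟨r, hr, ⟨e⟩⟩ := hA
    obtain ⟨n, hn, ρ, hρ, hv⟩ := hv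
    have : NeZero n := ⟨hn⟩
    exact isCls_split e hρ hv

/-- The third input of `LibMS46.finalStatement_of`. -/
theorem exists_invariant : ∀ (p : ℕ) [Fact p.Prime] (F : Type) [Field F] [CharP F p],
    (∀ n : ℕ, n ≠ 0 → ∀ a : F, ∃ b : F, b ^ n = a) → ∃ (V : Type) (_ : CommGroup V)
      (C : ∀ (A : Type) [Ring A] [Algebra F A], V → Prop), LibMS46.Invariant F V p C := by
  intro p _ F _ _ hF
  exact ⟨V F (AlgebraicClosure F), inferInstance, fun A _ _ v => Rel F A v, invariant p F hF⟩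

/-- The second input of `LibMS46.finalStatement_of`. -/
theorem prime_degree_of
    (H : ∀ (p : ℕ) [Fact p.Prime] (F E : Type) [Field F] [CharP F p] [Field E] [Algebra F E],
      (∀ n : ℕ, n ≠ 0 → ∀ a : F, ∃ b : F, b ^ n = a) → ∀ (z : E) (N : ℕ), N.Coprime p → 0 < N →
      z ^ N = 1 → IntermediateField.adjoin F {z} = ⊤ → ∀ x : K2 E, ∃ j : ℕ, j ≠ 0 ∧
        j • x ∈ baseSymbols F E) :
    ∀ (p : ℕ) [Fact p.Prime] (F : Type) [Field F] [CharP F p],
      (∀ n : ℕ, n ≠ 0 → ∀ a : F, ∃ b : F, b ^ n = a) → ∀ (D : Type) [DivisionRing D]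
      [Algebra F D] [Algebra.IsCentral F D] (l : ℕ), l.Prime → finrank F D ≠ l ^ 2 := by
  intro p _ F _ _ hF D _ _ _ l hl
  have hQ : HQ F := by
    intro E _ _ N hN hNF ζ hζ hE x
    refine H p F E hF ζ N ?_ (Nat.pos_of_ne_zero hN) hζ hE x
    refine ((Nat.Prime.coprime_iff_not_dvd (Fact.out : p.Prime)).2 (fun h => hNF ?_)).symm
    exact (CharP.cast_eq_zero_iff F p N).2 h
  exact prime_degree p hF hQ hl

end Pool.Agent.LibCoc63
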