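import Pool.Agent.LibCoc63.RTRec

/-!
[COC S7] The theorem of Rosset and Tate.
-/

set_option autoImplicit false

open Finset Polynomial

namespace Pool.Agent.LibCoc63

variable {B Ω : Type*} [Field B] [Field Ω] [Algebra B Ω]

omit [Algebra B Ω] [Field Ω] in
theorem rt_dvd_eq {f g : B[X]} (hf : Irreducible f) (hfm : f.Monic) (hg : Irreducible g)
    (hgm : g.Monic) (h : f ∣ g) : f = g :=
  eq_of_monic_of_associated hfm hgm (hf.associated_of_dvd hg h)

omit [Algebra B Ω] [Field Ω] in
theorem rt_not_dvd_X {f : B[X]} (hf : Irreducible f) (hfm : f.Monic) (hfX : f ≠ Polynomial.X) :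
    ¬ f ∣ (Polynomial.X : B[X]) :=
  fun h => hfX (rt_dvd_eq hf hfm irreducible_X monic_X h)

variable [IsAlgClosed Ω] [Algebra.IsAlgebraic B Ω] [PerfectField B]

theorem rt_ev_C {m : ℕ} (z : PR B Ω m) {f : B[X]} {c : B} (hc : c ≠ 0) :
    S z (ev Ω f Polynomial.X) (ev Ω f (C c)) ∈ W z := by
  have h1 : ev Ω f (C c) = cst Ω (f.rootSet Ω) (Units.mk0 c hc) := by
    funext x
    have h2 : aeval (x : Ω) (C c : B[X]) = algebraMap B Ω c := aeval_C _ _
    have h3 : ¬ aeval (x : Ω) (C c : B[X]) = 0 := by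
      rw [h2]
      exact fun h => hc ((map_eq_zero_iff _ (algebraMap B Ω).injective).1 h)
    ext
    rw [ev, dif_neg h3, Units.val_mk0, h2]
    rfl
  rw [h1]
  exact S_cst_right z (ev_mem f _) _

theorem rt_main {m : ℕ} (z : PR B Ω m) (n : ℕ) : ∀ f : B[X], Irreducible f → f.Monic →
    f.natDegree = n → f ≠ Polynomial.X → ∀ h : B[X], ¬ f ∣ h →
      S z (ev Ω f Polynomial.X) (ev Ω f h) ∈ W z := by
  induction n using Nat.strong_induction_on with
  | h n IH =>
    intro f hf hfm hfn hfX
    have hXf : ¬ f ∣ (Polynomial.X : B[X]) := rt_not_dvd_X hf hfm hfX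
    have hdeg : ∀ h : B[X], h ≠ 0 → h.natDegree < n → ¬ f ∣ h := by
      intro h h0 hd hdvd
      have := natDegree_le_of_dvd hdvd h0
      omega
    -- monic irreducible of smaller degree
    have hirr : ∀ g : B[X], Irreducible g → g.Monic → g.natDegree < n →
        S z (ev Ω f Polynomial.X) (ev Ω f g) ∈ W z := by
      intro g hg hgm hgn
      by_cases hgX : g = Polynomial.X
      · rw [hgX, S_self z (ev_mem f _)]
        have h1 : (-1 : f.rootSet Ω → Ωˣ) = cst Ω (f.rootSet Ω) (-1 : Bˣ) := by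
          funext x
          ext
          simp [cst]
        rw [h1]
        exact S_cst_right z (ev_mem f _) _
      · have hfg : f ≠ g := by
          rintro rfl
          omega
        refine reciprocity z hf hfm hg hgm hfg hfX hgX ?_
        refine IH g.natDegree hgn g hg hgm rfl hgX f ?_
        intro hd
        exact hfg (rt_dvd_eq hg hgm hf hfm hd).symm
    have hsmall : ∀ h : B[X], h ≠ 0 → h.natDegree < n →
        S z (ev Ω f Polynomial.X) (ev Ω f h) ∈ W z := by
      intro h
      refine WfDvdMonoid.induction_on_irreducible (motive := fun h : B[X] => h ≠ 0 → h.natDegree < n →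
        S z (ev Ω f Polynomial.X) (ev Ω f h) ∈ W z) h (fun h0 => absurd rfl h0) ?_ ?_
      · intro u hu h0 _
        obtain ⟨c, hc, rfl⟩ := Polynomial.isUnit_iff.1 hu
        exact rt_ev_C z hc.ne_zero
      · intro a i ha hi hP _ hd
        rw [natDegree_mul hi.ne_zero ha] at hd
        have hia : ¬ f ∣ i := hdeg i hi.ne_zero (by omega)
        have haa : ¬ f ∣ a := hdeg a ha (by omega)
        rw [ev_mul hf hia haa, S_mul_right z (ev_mem f _) (ev_mem f _) (ev_mem f _)]
        refine mul_mem ?_ (hP ha (by omega))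
        -- normalise `i`
        set c := i.leadingCoeff with hc
        have hc0 : c ≠ 0 := leadingCoeff_ne_zero.2 hi.ne_zero
        set g := i * C c⁻¹ with hg
        have hgm : g.Monic := monic_mul_leadingCoeff_inv hi.ne_zero
        have hgi : Irreducible g := irreducible_mul_leadingCoeff_inv.2 hi
        have hgd : g.natDegree = i.natDegree := by
          rw [hg, natDegree_mul_C (inv_ne_zero hc0)]
        have hig : i = C c * g := by
          rw [hg, mul_comm i, ← mul_assoc, ← C_mul, mul_inv_cancel₀ hc0, C_1, one_mul]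
        have hCc : ¬ f ∣ (C c : B[X]) := by
          refine hdeg _ (by rwa [Ne, C_eq_zero]) ?_
          rw [natDegree_C, ← hfn]
          exact hf.natDegree_pos
        have hgg : ¬ f ∣ g := hdeg g hgi.ne_zero (by omega)
        rw [hig, ev_mul hf hCc hgg, S_mul_right z (ev_mem f _) (ev_mem f _) (ev_mem f _)]
        exact mul_mem (rt_ev_C z hc0) (hirr g hgi hgm (by omega))
    intro h hh
    have h1 : ev Ω f h = ev Ω f (h %ₘ f) := by
      funext x
      have h2 : aeval (x : Ω) h = aeval (x : Ω) (h %ₘ f) := by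
        have h3 : aeval (x : Ω) f = 0 := aeval_eq_zero_of_mem_rootSet x.2
        conv_lhs => rw [← modByMonic_add_div h f]
        rw [map_add, map_mul, h3, zero_mul, add_zero]
      by_cases h0 : aeval (x : Ω) h = 0
      · have h0' : aeval (x : Ω) (h %ₘ f) = 0 := h2 ▸ h0
        rw [ev, ev, dif_pos h0, dif_pos h0']
      · have h0' : ¬ aeval (x : Ω) (h %ₘ f) = 0 := h2 ▸ h0
        ext
        rw [ev, ev, dif_neg h0, dif_neg h0', Units.val_mk0, Units.val_mk0, h2]
    rw [h1]
    have h0 : h %ₘ f ≠ 0 := fun h4 => hh ((modByMonic_eq_zero_iff_dvd hfm).1 h4)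
    refine hsmall _ h0 ?_
    rw [← hfn]
    refine natDegree_modByMonic_lt h hfm ?_
    rintro rfl
    exact hf.not_isUnit isUnit_one

theorem rosset_tate {X : Type*} [Fintype X] [Nonempty X] [MulAction (Ω ≃ₐ[B] Ω) X]
    [CtsSet B Ω X] [MulAction.IsPretransitive (Ω ≃ₐ[B] Ω) X] {m : ℕ} (z : PR B Ω m)
    {a b : X → Ωˣ} (ha : a ∈ Eqv B Ω X) (hb : b ∈ Eqv B Ω X) : S z a b ∈ W z := by
  obtain ⟨x₀⟩ := ‹Nonempty X›
  set f := minpoly B (a x₀ : Ω) with hfdef
  have hint : IsIntegral B (a x₀ : Ω) := Algebra.IsIntegral.isIntegral _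
  have hf : Irreducible f := minpoly.irreducible hint
  have hfm : f.Monic := minpoly.monic hint
  have hfX : f ≠ Polynomial.X := by
    intro h
    have h1 : aeval (a x₀ : Ω) f = 0 := minpoly.aeval B _
    rw [h, aeval_X] at h1
    exact (a x₀).ne_zero h1
  have hroot : ∀ x, (a x : Ω) ∈ f.rootSet Ω := by
    intro x
    obtain ⟨g, rfl⟩ := MulAction.exists_smul_eq (Ω ≃ₐ[B] Ω) x₀ x
    rw [mem_rootSet]
    refine ⟨hf.ne_zero, ?_⟩
    rw [ha g x₀, coe_act]
    have h1 : aeval (g (a x₀ : Ω)) f = g (aeval (a x₀ : Ω) f) :=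
      aeval_algHom_apply g.toAlgHom (a x₀ : Ω) f
    rw [h1, minpoly.aeval, map_zero]
  let p : X → f.rootSet Ω := fun x => ⟨a x, hroot x⟩
  have hp : ∀ (g : Ω ≃ₐ[B] Ω) x, p (g • x) = g • p x := by
    intro g x
    apply Subtype.ext
    rw [rootSet.coe_smul]
    show (a (g • x) : Ω) = g (a x : Ω)
    rw [ha g x, coe_act]
  have hap : a = (ev Ω f Polynomial.X) ∘ p := by
    funext x
    ext
    rw [Function.comp_apply, coe_ev hf (rt_not_dvd_X hf hfm hfX), aeval_X]
  have hb' := nm_mem hp hb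
  obtain ⟨q, hq⟩ := exists_poly (B := B) (p x₀ : Ω) (nm p b (p x₀) : Ω) (by
    intro g hg
    have h1 : g • p x₀ = p x₀ := Subtype.ext (by rw [rootSet.coe_smul]; exact hg)
    have h2 := hb' g (p x₀)
    rw [h1] at h2
    exact (congrArg Units.val h2).symm)
  have hfq : ¬ f ∣ q := by
    intro hd
    have h1 := aeval_eq_zero_of_mem_rootSet (p x₀).2
    have h2 : aeval (p x₀ : Ω) q = 0 := by
      obtain ⟨c, rfl⟩ := hd
      rw [map_mul, h1, zero_mul]
    rw [hq] at h2
    exact (nm p b (p x₀)).ne_zero h2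
  have hbq : nm p b = ev Ω f q := by
    funext y
    obtain ⟨g, rfl⟩ := exists_smul_eq hf (p x₀) y
    rw [hb' g (p x₀), ev_mem f q g (p x₀)]
    congr 1
    ext
    rw [coe_ev hf hfq, hq]
  have h3 := S_proj_right z hp (ev_mem f Polynomial.X) hb
  rw [hap, h3, hbq]
  exact rt_main z _ f hf hfm rfl hfX q hfq

end Pool.Agent.LibCoc63
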