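import Pool.Agent.LibCoc63.Cls

/-!
[COC A3] Tensor products, split algebras, p-torsion.
isCls_tensor: ρ(d ⊗ d') = kronecker product, A g = kronecker product, δ δ'.
isCls_split: the standard representation M_r(F) → M_r(Ω) has A = 1, δ = 1; then isCls_unique.
p-torsion: δ^p = bd β; p-th roots in Ω are unique (Frobenius is bijective): β = β'^p, δ = bd β'.
split_of_hom: D simple, D → M_n(F) is injective and the dimensions are equal.
-/

set_option autoImplicit false

open Finset Module
open scoped TensorProduct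

namespace Pool.Agent.LibCoc63

variable {F B Ω : Type*} [Field F] [Field B] [Field Ω] [Algebra F B] [Algebra B Ω] [Algebra F Ω]
  [IsScalarTower F B Ω]
variable {D : Type*} [Ring D] [Algebra F D] {n : Type*} [Fintype n] [DecidableEq n]

open Kronecker in
/-- `d ↦ ρ d ⊗ 1`. -/
private noncomputable def tLeft {n' : Type*} [Fintype n'] [DecidableEq n']
    (ρ : D →ₐ[F] Matrix n n Ω) : D →ₐ[F] Matrix (n × n') (n × n') Ω where
  toFun d := ρ d ⊗ₖ (1 : Matrix n' n' Ω)
  map_one' := by rw [map_one, Matrix.one_kronecker_one]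
  map_mul' x y := by rw [map_mul, ← Matrix.mul_kronecker_mul, one_mul]
  map_zero' := by rw [map_zero, Matrix.zero_kronecker]
  map_add' x y := by rw [map_add, Matrix.add_kronecker]
  commutes' r := by
    rw [AlgHom.commutes, Algebra.algebraMap_eq_smul_one, Algebra.algebraMap_eq_smul_one,
      Matrix.smul_kronecker, Matrix.one_kronecker_one]

open Kronecker in
/-- `d ↦ 1 ⊗ ρ d`. -/
private noncomputable def tRight {D' : Type*} [Ring D'] [Algebra F D'] {n' : Type*} [Fintype n']
    [DecidableEq n'] (n : Type*) [Fintype n] [DecidableEq n]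
    (ρ' : D' →ₐ[F] Matrix n' n' Ω) : D' →ₐ[F] Matrix (n × n') (n × n') Ω where
  toFun d := (1 : Matrix n n Ω) ⊗ₖ ρ' d
  map_one' := by rw [map_one, Matrix.one_kronecker_one]
  map_mul' x y := by rw [map_mul, ← Matrix.mul_kronecker_mul, one_mul]
  map_zero' := by rw [map_zero, Matrix.kronecker_zero]
  map_add' x y := by rw [map_add, Matrix.kronecker_add]
  commutes' r := by
    rw [AlgHom.commutes, Algebra.algebraMap_eq_smul_one, Algebra.algebraMap_eq_smul_one,
      Matrix.kronecker_smul, Matrix.one_kronecker_one]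

open Kronecker in
/-- The product of two representations. -/
private lemma exists_tensorRep {D' : Type*} [Ring D'] [Algebra F D'] {n' : Type*} [Fintype n']
    [DecidableEq n'] (ρ : D →ₐ[F] Matrix n n Ω) (ρ' : D' →ₐ[F] Matrix n' n' Ω) :
    ∃ σ : D ⊗[F] D' →ₐ[F] Matrix (n × n') (n × n') Ω,
      ∀ d d', σ (d ⊗ₜ[F] d') = ρ d ⊗ₖ ρ' d' := by
  refine ⟨Algebra.TensorProduct.lift (tLeft (n' := n') ρ) (tRight n ρ') ?_, ?_⟩
  · intro d d'
    change ρ d ⊗ₖ (1 : Matrix n' n' Ω) * ((1 : Matrix n n Ω) ⊗ₖ ρ' d') =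
      ((1 : Matrix n n Ω) ⊗ₖ ρ' d') * (ρ d ⊗ₖ (1 : Matrix n' n' Ω))
    rw [← Matrix.mul_kronecker_mul, ← Matrix.mul_kronecker_mul, one_mul, one_mul, mul_one, mul_one]
  · intro d d'
    rw [Algebra.TensorProduct.lift_tmul]
    change ρ d ⊗ₖ (1 : Matrix n' n' Ω) * ((1 : Matrix n n Ω) ⊗ₖ ρ' d') = _
    rw [← Matrix.mul_kronecker_mul, one_mul, mul_one]

open Kronecker in
private lemma kron_map {n' : Type*} (g : Ω ≃ₐ[B] Ω) (M : Matrix n n Ω) (N : Matrix n' n' Ω) :
    (M ⊗ₖ N).map g = (M.map g) ⊗ₖ (N.map g) := by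
  ext ⟨i, i'⟩ ⟨j, j'⟩
  simp only [Matrix.map_apply, Matrix.kroneckerMap_apply, map_mul]

open Kronecker in
/-- The Kronecker product of units. -/
private noncomputable def kronU {n' : Type*} [Fintype n'] [DecidableEq n'] (U : (Matrix n n Ω)ˣ)
    (U' : (Matrix n' n' Ω)ˣ) : (Matrix (n × n') (n × n') Ω)ˣ where
  val := (U : Matrix n n Ω) ⊗ₖ (U' : Matrix n' n' Ω)
  inv := ((U⁻¹ : (Matrix n n Ω)ˣ) : Matrix n n Ω) ⊗ₖ ((U'⁻¹ : (Matrix n' n' Ω)ˣ) : Matrix n' n' Ω)
  val_inv := by
    rw [← Matrix.mul_kronecker_mul, Units.mul_inv, Units.mul_inv, Matrix.one_kronecker_one]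
  inv_val := by
    rw [← Matrix.mul_kronecker_mul, Units.inv_mul, Units.inv_mul, Matrix.one_kronecker_one]

theorem isCls_tensor {D' : Type*} [Ring D'] [Algebra F D'] {n' : Type*} [Fintype n']
    [DecidableEq n'] {ρ : D →ₐ[F] Matrix n n Ω} {ρ' : D' →ₐ[F] Matrix n' n' Ω} (hρ : IsRep ρ)
    (hρ' : IsRep ρ') {v v' : V B Ω} (h : IsCls B ρ v) (h' : IsCls B ρ' v') :
    ∃ σ : D ⊗[F] D' →ₐ[F] Matrix (n × n') (n × n') Ω, IsRep σ ∧ IsCls B σ (v * v') := by
  obtain ⟨σ, hσ⟩ := exists_tensorRep ρ ρ'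
  refine ⟨σ, ⟨?_, ?_⟩, ?_⟩
  · -- the span
    have key : ∀ (M : Matrix n n Ω) (N : Matrix n' n' Ω),
        Matrix.kroneckerMap (· * ·) M N ∈ Submodule.span Ω (Set.range σ) := by
      intro M N
      have hM : M ∈ Submodule.span Ω (Set.range ρ) := by
        rw [hρ.1]
        exact Submodule.mem_top
      have hN : N ∈ Submodule.span Ω (Set.range ρ') := by
        rw [hρ'.1]
        exact Submodule.mem_top
      induction hM using Submodule.span_induction with
      | mem x hx =>
        obtain ⟨d, rfl⟩ := hx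
        induction hN using Submodule.span_induction with
        | mem y hy =>
          obtain ⟨d', rfl⟩ := hy
          exact Submodule.subset_span ⟨d ⊗ₜ[F] d', hσ d d'⟩
        | zero =>
          have h0 : Matrix.kroneckerMap (· * ·) (ρ d) (0 : Matrix n' n' Ω) = 0 :=
            Matrix.kronecker_zero _
          rw [h0]
          exact zero_mem _
        | add x y _ _ hx hy =>
          have h0 : Matrix.kroneckerMap (· * ·) (ρ d) (x + y) =
              Matrix.kroneckerMap (· * ·) (ρ d) x + Matrix.kroneckerMap (· * ·) (ρ d) y :=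
            Matrix.kronecker_add _ _ _
          rw [h0]
          exact add_mem hx hy
        | smul a x _ hx =>
          have h0 : Matrix.kroneckerMap (· * ·) (ρ d) (a • x) =
              a • Matrix.kroneckerMap (· * ·) (ρ d) x := Matrix.kronecker_smul _ _ _
          rw [h0]
          exact Submodule.smul_mem _ _ hx
      | zero =>
        have h0 : Matrix.kroneckerMap (· * ·) (0 : Matrix n n Ω) N = 0 := Matrix.zero_kronecker _
        rw [h0]
        exact zero_mem _
      | add x y _ _ hx hy =>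
        have h0 : Matrix.kroneckerMap (· * ·) (x + y) N =
            Matrix.kroneckerMap (· * ·) x N + Matrix.kroneckerMap (· * ·) y N :=
          Matrix.add_kronecker _ _ _
        rw [h0]
        exact add_mem hx hy
      | smul a x _ hx =>
        have h0 : Matrix.kroneckerMap (· * ·) (a • x) N =
            a • Matrix.kroneckerMap (· * ·) x N := Matrix.smul_kronecker _ _ _
        rw [h0]
        exact Submodule.smul_mem _ _ hx
    rw [eq_top_iff]
    intro M _
    rw [Matrix.matrix_eq_sum_single M]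
    refine Submodule.sum_mem _ fun i _ => Submodule.sum_mem _ fun j _ => ?_
    have h1 : Matrix.single i j (M i j) = Matrix.kroneckerMap (· * ·)
        (Matrix.single i.1 j.1 (M i j)) (Matrix.single i.2 j.2 (1 : Ω)) := by
      ext ⟨a, a'⟩ ⟨b, b'⟩
      rw [Matrix.kroneckerMap_apply, Matrix.single_apply, Matrix.single_apply, Matrix.single_apply]
      by_cases h2 : i.1 = a ∧ j.1 = b
      · by_cases h3 : i.2 = a' ∧ j.2 = b'
        · rw [if_pos h2, if_pos h3, mul_one, if_pos ⟨Prod.ext h2.1 h3.1, Prod.ext h2.2 h3.2⟩]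
        · rw [if_neg h3, mul_zero, if_neg]
          rintro ⟨h4, h5⟩
          exact h3 ⟨congrArg Prod.snd h4, congrArg Prod.snd h5⟩
      · rw [if_neg h2, zero_mul, if_neg]
        rintro ⟨h4, h5⟩
        exact h2 ⟨congrArg Prod.fst h4, congrArg Prod.fst h5⟩
    rw [h1]
    exact key _ _
  · rw [finrank_tensorProduct, hρ.2, hρ'.2, Fintype.card_prod, mul_pow]
  · obtain ⟨A, δ, ⟨hA1, hA2, hA3⟩, rfl⟩ := h
    obtain ⟨A', δ', ⟨hA1', hA2', hA3'⟩, rfl⟩ := h'
    refine ⟨fun g => kronU (A g) (A' g), δ * δ', ⟨hA1.comp₂ hA1' kronU, ?_, ?_⟩, ?_⟩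
    · intro g d
      change Matrix.kroneckerMap (· * ·) (A g : Matrix n n Ω) (A' g : Matrix n' n' Ω) *
        (σ d).map g = σ d *
          Matrix.kroneckerMap (· * ·) (A g : Matrix n n Ω) (A' g : Matrix n' n' Ω)
      induction d using TensorProduct.induction_on with
      | zero =>
        rw [map_zero, Matrix.map_zero _ (map_zero g), mul_zero, zero_mul]
      | tmul x y =>
        rw [hσ, kron_map, ← Matrix.mul_kronecker_mul, ← Matrix.mul_kronecker_mul, hA2, hA2']
      | add x y hx hy =>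
        rw [map_add, Matrix.map_add _ (map_add g), mul_add, add_mul, hx, hy]
    · intro g h
      change Matrix.kroneckerMap (· * ·) (A g : Matrix n n Ω) (A' g : Matrix n' n' Ω) *
        (Matrix.kroneckerMap (· * ·) (A h : Matrix n n Ω) (A' h : Matrix n' n' Ω)).map g =
        ((δ g h * δ' g h : Ωˣ) : Ω) • Matrix.kroneckerMap (· * ·) (A (g * h) : Matrix n n Ω)
          (A' (g * h) : Matrix n' n' Ω)
      rw [kron_map, ← Matrix.mul_kronecker_mul, hA3, hA3', Matrix.smul_kronecker,
        Matrix.kronecker_smul, smul_smul, Units.val_mul]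
    · rw [cl_mul]

theorem isCls_split {r : ℕ} (e : D ≃ₐ[F] Matrix (Fin r) (Fin r) F) [Nonempty n]
    {ρ : D →ₐ[F] Matrix n n Ω} (hρ : IsRep ρ) {v : V B Ω} (h : IsCls B ρ v) : v = 1 := by
  obtain ⟨ρ0, hρ0⟩ : ∃ ρ0 : Matrix (Fin r) (Fin r) F →ₐ[F] Matrix (Fin r) (Fin r) Ω,
      ∀ M, ρ0 M = M.map (algebraMap F Ω) :=
    ⟨(Algebra.ofId F Ω).mapMatrix, fun M => rfl⟩
  have hrep : IsRep ρ0 := by
    refine ⟨?_, ?_⟩
    · rw [eq_top_iff]
      intro M _
      rw [Matrix.matrix_eq_sum_single M]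
      refine Submodule.sum_mem _ fun i _ => Submodule.sum_mem _ fun j _ => ?_
      have h1 : Matrix.single i j (M i j) = M i j • ρ0 (Matrix.single i j 1) := by
        rw [hρ0]
        ext a b
        rw [Matrix.smul_apply, Matrix.map_apply, Matrix.single_apply, Matrix.single_apply]
        by_cases h2 : i = a ∧ j = b
        · rw [if_pos h2, if_pos h2, map_one, smul_eq_mul, mul_one]
        · rw [if_neg h2, if_neg h2, map_zero, smul_zero]
      rw [h1]
      exact Submodule.smul_mem _ _ (Submodule.subset_span ⟨_, rfl⟩)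
    · rw [finrank_matrix, finrank_self, Fintype.card_fin, mul_one, sq]
  have hcls : IsCls B ρ0 (1 : V B Ω) := by
    refine ⟨1, 1, ⟨Cts.const 1, ?_, ?_⟩, rfl⟩
    · intro g d
      change (1 : Matrix (Fin r) (Fin r) Ω) * (ρ0 d).map g = ρ0 d * 1
      rw [one_mul, mul_one, hρ0]
      ext i j
      rw [Matrix.map_apply, Matrix.map_apply, IsScalarTower.algebraMap_apply F B Ω,
        AlgEquiv.commutes]
    · intro g h
      change (1 : Matrix (Fin r) (Fin r) Ω) * (1 : Matrix (Fin r) (Fin r) Ω).map g =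
        ((1 : Ωˣ) : Ω) • (1 : Matrix (Fin r) (Fin r) Ω)
      rw [one_mul, Units.val_one, one_smul, Matrix.map_one _ (map_zero g) (map_one g)]
  exact isCls_unique hρ e hrep h hcls

theorem eq_one_of_pow_char [IsAlgClosed Ω] (p : ℕ) [Fact p.Prime] [CharP Ω p] {v : V B Ω}
    (h : v ^ p = 1) : v = 1 := by
  obtain ⟨c, rfl⟩ : ∃ c, v = cl c := by
    induction v using QuotientGroup.induction_on with
    | H c => exact ⟨c, rfl⟩
  rw [← cl_pow, cl_eq_one] at h
  obtain ⟨β, hβ, hc⟩ := h
  have hp : 0 < p := (Fact.out : p.Prime).pos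
  have hroot : ∀ x : Ωˣ, ∃ y : Ωˣ, y ^ p = x := by
    intro x
    obtain ⟨y, hy⟩ := IsAlgClosed.exists_pow_nat_eq (x : Ω) hp
    have hy0 : y ≠ 0 := by
      rintro rfl
      rw [zero_pow hp.ne'] at hy
      exact x.ne_zero hy.symm
    refine ⟨Units.mk0 y hy0, ?_⟩
    ext
    rw [Units.val_pow_eq_pow_val, Units.val_mk0, hy]
  have hinj : ∀ x y : Ωˣ, x ^ p = y ^ p → x = y := by
    intro x y hxy
    ext
    have h1 : (x : Ω) ^ p = (y : Ω) ^ p := by
      rw [← Units.val_pow_eq_pow_val, ← Units.val_pow_eq_pow_val, hxy]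
    have h2 : ((x : Ω) - y) ^ p = 0 := by
      rw [sub_pow_char, h1, sub_self]
    exact sub_eq_zero.1 (eq_zero_of_pow_eq_zero h2)
  choose φ hφ using hroot
  rw [cl_eq_one]
  refine ⟨fun g => φ (β g), hβ.comp φ, ?_⟩
  funext g k
  apply hinj
  have h1 : (c g k) ^ p = bd β g k := by
    have h2 := congrFun (congrFun hc g) k
    exact h2
  rw [h1]
  unfold bd
  rw [mul_pow, mul_pow, inv_pow, hφ, hφ, ← map_pow, hφ]

theorem split_of_hom [IsSimpleRing D] {m : ℕ} (hm : m ≠ 0) (hD : finrank F D = m ^ 2)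
    (f : D →ₐ[F] Matrix (Fin m) (Fin m) F) : Nonempty (D ≃ₐ[F] Matrix (Fin m) (Fin m) F) := by
  have hpos : 0 < finrank F D := by
    rw [hD]
    positivity
  have hfd : FiniteDimensional F D := FiniteDimensional.of_finrank_pos hpos
  have hne : Nonempty (Fin m) := ⟨⟨0, Nat.pos_of_ne_zero hm⟩⟩
  have hinj : Function.Injective f := RingHom.injective (f : D →+* Matrix (Fin m) (Fin m) F)
  have hfr : finrank F D = finrank F (Matrix (Fin m) (Fin m) F) := by
    rw [hD, finrank_matrix, finrank_self, Fintype.card_fin, mul_one, sq]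
  have hsurj : Function.Surjective f :=
    (LinearMap.injective_iff_surjective_of_finrank_eq_finrank (f := f.toLinearMap) hfr).1 hinj
  exact ⟨AlgEquiv.ofBijective f ⟨hinj, hsurj⟩⟩

end Pool.Agent.LibCoc63
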