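import Pool.Agent.LibCoc63.Diag
import Pool.Agent.LibCoc63.Chi
import Pool.Agent.LibCoc63.Tensor
import Pool.Agent.LibCoc63.Desc
import Pool.Agent.LibCoc63.RT

/-!
[COC A6] Division algebras of prime degree. R, ρ, d, d' from exists_diag; G = Ω ≃ₐ[B] Ω acts on R.
A, δ from exists_isCls. A g * diag(g θ) = diag(θ) * A g, so A g is monomial: A g θ' θ = 0 unless θ' = g θ; μ g θ := A g (gθ) θ,
a unit. M θ' θ := if θ' = θ then 1 else ρ d' θ' θ. (h1) from A g * (ρ d').map g = ρ d' * A g, (h2) from the relation of δ.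
comb + exists_chi: δ^|X| = ∏ b^k * bd β. ζ-case: S z (ξ^l) b = cl(∏ b^k) ∈ W z = 1 (rosset_tate, S_eq; k, χ cast to ℤ).
char case: b = b'^l (l-th roots are unique, b' equivariant), ∏ b^k = bd (g ↦ ∏_x b' x ^ χ g x). So v^|X| = 1, v^l = 1: v = 1.
-/

set_option autoImplicit false

open Finset Module

namespace Pool.Agent.LibCoc63

variable {B Ω : Type*} [Field B] [Field Ω] [Algebra B Ω]

/-- The scalars of the monomial cochain. -/
theorem exists_mono {F : Type*} [Field F] [Algebra F B] [Algebra F Ω] [IsScalarTower F B Ω]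
    {D : Type*} [Ring D] [Algebra F D] {R : Type*} [Fintype R] [DecidableEq R]
    [MulAction (Ω ≃ₐ[B] Ω) R] [CtsSet B Ω R] (ι : R → Ω) (hι : Function.Injective ι)
    (hιg : ∀ (g : Ω ≃ₐ[B] Ω) (θ : R), ι (g • θ) = g (ι θ)) (ρ : D →ₐ[F] Matrix R R Ω) (d d' : D)
    (hd : ρ d = Matrix.diagonal ι) (hd' : ∀ θ θ' : R, θ ≠ θ' → ρ d' θ θ' ≠ 0)
    (A : (Ω ≃ₐ[B] Ω) → (Matrix R R Ω)ˣ) (δ : (Ω ≃ₐ[B] Ω) → (Ω ≃ₐ[B] Ω) → Ωˣ)
    (h : IsCo B ρ A δ) :
    ∃ (μ : (Ω ≃ₐ[B] Ω) → R → Ωˣ) (M : R → R → Ωˣ), Cts μ ∧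
      (∀ g θ' θ, M (g • θ') (g • θ) = μ g θ' * act g (M θ' θ) * (μ g θ)⁻¹) ∧
      (∀ g h θ, μ g (h • θ) * act g (μ h θ) = δ g h * μ (g * h) θ) := by
  obtain ⟨hA, hA1, hA2⟩ := h
  have hmono : ∀ (g : Ω ≃ₐ[B] Ω) (θ' θ : R), θ' ≠ g • θ → (A g : Matrix R R Ω) θ' θ = 0 := by
    intro g θ' θ hne
    have h1 := congrFun (congrFun (hA1 g d) θ') θ
    rw [hd] at h1
    have h2 : (Matrix.diagonal ι).map g = Matrix.diagonal (fun θ => g (ι θ)) :=
      Matrix.diagonal_map (map_zero g)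
    rw [h2, Matrix.mul_diagonal, Matrix.diagonal_mul, ← hιg] at h1
    have h3 : (ι (g • θ) - ι θ') * (A g : Matrix R R Ω) θ' θ = 0 := by
      rw [sub_mul, sub_eq_zero, ← h1, mul_comm]
    rcases mul_eq_zero.1 h3 with h4 | h4
    · exact absurd (hι (sub_eq_zero.1 h4)).symm hne
    · exact h4
  have hsum : ∀ (g : Ω ≃ₐ[B] Ω) (θ : R) (f : R → Ω),
      ∑ j, f j * (A g : Matrix R R Ω) j θ = f (g • θ) * (A g : Matrix R R Ω) (g • θ) θ := by
    intro g θ f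
    refine Finset.sum_eq_single _ (fun j _ hj => ?_) (fun hj => absurd (Finset.mem_univ _) hj)
    rw [hmono g j θ hj, mul_zero]
  have hsum' : ∀ (g : Ω ≃ₐ[B] Ω) (θ : R) (f : R → Ω),
      ∑ j, (A g : Matrix R R Ω) (g • θ) j * f j = (A g : Matrix R R Ω) (g • θ) θ * f θ := by
    intro g θ f
    refine Finset.sum_eq_single _ (fun j _ hj => ?_) (fun hj => absurd (Finset.mem_univ _) hj)
    rw [hmono g (g • θ) j (fun h => hj ?_), zero_mul]
    exact (smul_left_cancel g h).symm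
  have hne : ∀ (g : Ω ≃ₐ[B] Ω) (θ : R), (A g : Matrix R R Ω) (g • θ) θ ≠ 0 := by
    intro g θ h0
    have h1 : (((A g)⁻¹ : (Matrix R R Ω)ˣ) : Matrix R R Ω) * (A g : Matrix R R Ω) = 1 :=
      Units.inv_mul (A g)
    have h2 := congrFun (congrFun h1 θ) θ
    rw [Matrix.mul_apply, hsum g θ (fun j => (((A g)⁻¹ : (Matrix R R Ω)ˣ) : Matrix R R Ω) θ j), h0,
      mul_zero, Matrix.one_apply_eq] at h2
    exact zero_ne_one h2
  refine ⟨fun g θ => Units.mk0 _ (hne g θ),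
    fun θ' θ => if h : θ' = θ then 1 else Units.mk0 _ (hd' θ' θ h), ?_, ?_, ?_⟩
  · obtain ⟨T1, hT1⟩ := hA
    obtain ⟨T2, hT2⟩ := CtsSet.smul_cts (B := B) (Ω := Ω) (X := R)
    classical
    refine ⟨T1 ∪ T2, fun g g' h => ?_⟩
    have e1 := hT1 g g' (fun t ht => h t (mem_union_left _ ht))
    have e2 := hT2 g g' (fun t ht => h t (mem_union_right _ ht))
    funext θ
    ext
    simp only [Units.val_mk0]
    rw [e1, e2]
  · intro g θ' θ
    by_cases hθ : θ' = θ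
    · subst hθ
      simp
    · have hθ' : g • θ' ≠ g • θ := fun h => hθ (smul_left_cancel g h)
      simp only [dif_neg hθ, dif_neg hθ']
      rw [eq_mul_inv_iff_mul_eq]
      ext
      have h1 := congrFun (congrFun (hA1 g d') (g • θ')) θ
      rw [Matrix.mul_apply, Matrix.mul_apply, hsum' g θ' (fun j => (ρ d').map g j θ),
        hsum g θ (fun j => ρ d' (g • θ') j)] at h1
      exact h1.symm
  · intro g h θ
    ext
    have h1 := congrFun (congrFun (hA2 g h) (g • (h • θ))) θ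
    rw [Matrix.mul_apply, hsum' g (h • θ) (fun j => (A h : Matrix R R Ω).map g j θ),
      Matrix.smul_apply] at h1
    simp only [Units.val_mul, Units.val_mk0, coe_act]
    rw [mul_smul]
    exact h1

/-- In characteristic `l` the cochain of the combinatorial core is a coboundary. -/
theorem core_char {l : ℕ} (hl : l.Prime) [CharP Ω l] [IsAlgClosed Ω] {X : Type*} [Fintype X]
    [MulAction (Ω ≃ₐ[B] Ω) X] {b : X → Ωˣ} (hb : b ∈ Eqv B Ω X)
    (χ : (Ω ≃ₐ[B] Ω) → X → ℕ) (hχ : Cts χ) (k : (Ω ≃ₐ[B] Ω) → (Ω ≃ₐ[B] Ω) → X → ℕ)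
    (hk : ∀ g h x, χ g x + χ h (g⁻¹ • x) = χ (g * h) x + l * k g h x) :
    cl (fun g h => ∏ x, b x ^ k g h x) = 1 := by
  haveI : Fact l.Prime := ⟨hl⟩
  have hex : ∀ x, ∃ c : Ωˣ, c ^ l = b x := by
    intro x
    obtain ⟨c, hc⟩ := IsAlgClosed.exists_pow_nat_eq (b x : Ω) hl.pos
    have hc0 : c ≠ 0 := by
      rintro rfl
      rw [zero_pow hl.ne_zero] at hc
      exact (b x).ne_zero hc.symm
    exact ⟨Units.mk0 c hc0, Units.ext hc⟩
  choose c hc using hex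
  have hinj : ∀ u w : Ωˣ, u ^ l = w ^ l → u = w := by
    intro u w h
    have h1 : (u : Ω) ^ l = (w : Ω) ^ l := by
      have := congrArg Units.val h
      simpa using this
    exact Units.ext (frobenius_inj Ω l h1)
  have hcE : ∀ (g : Ω ≃ₐ[B] Ω) x, c (g • x) = act g (c x) := by
    intro g x
    apply hinj
    rw [hc, hb g x, ← map_pow, hc]
  rw [cl_eq_one]
  refine ⟨fun g => ∏ x, c x ^ χ g x, hχ.comp (fun f => ∏ x, c x ^ f x), ?_⟩
  funext g h
  rw [bd, eq_mul_inv_iff_mul_eq, map_prod]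
  have e1 : ∏ x, act g (c x ^ χ h x) = ∏ x, c x ^ χ h (g⁻¹ • x) := by
    rw [← Equiv.prod_comp (MulAction.toPerm g) (fun y => c y ^ χ h (g⁻¹ • y))]
    refine Finset.prod_congr rfl (fun x _ => ?_)
    rw [MulAction.toPerm_apply, inv_smul_smul, hcE, map_pow]
  rw [e1, ← Finset.prod_mul_distrib, ← Finset.prod_mul_distrib]
  refine Finset.prod_congr rfl (fun x _ => ?_)
  rw [← pow_add, hk, ← hc, ← pow_mul, pow_add, mul_comm]

theorem exists_hom_of_prime {F D : Type*} [Field F] [Algebra F B]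
    [Algebra F Ω] [IsScalarTower F B Ω] [PerfectField F] [PerfectField B]
    [IsAlgClosed Ω] [Algebra.IsAlgebraic B Ω] [DivisionRing D] [Algebra F D]
    [Algebra.IsCentral F D] {l : ℕ} (hl : l.Prime) (hD : finrank F D = l ^ 2)
    (hW : CharP Ω l ∨ ∃ z : PR B Ω l, W z = ⊥) :
    Nonempty (D →ₐ[F] Matrix (Fin l) (Fin l) B) := by
  classical
  obtain ⟨R, hRg, hRl, ρ, d, d', hρ, hd, hd'⟩ := exists_diag (F := F) (Ω := Ω) (D := D) hl hD
  letI : MulAction (Ω ≃ₐ[B] Ω) R :=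
    { smul := fun g θ => ⟨g θ, hRg (g.restrictScalars F) θ θ.2⟩
      one_smul := fun θ => Subtype.ext rfl
      mul_smul := fun g h θ => Subtype.ext rfl }
  have hιg : ∀ (g : Ω ≃ₐ[B] Ω) (θ : R), ((g • θ : R) : Ω) = g (θ : Ω) := fun _ _ => rfl
  haveI : CtsSet B Ω R := ⟨⟨R, fun g hg θ => Subtype.ext (hg θ θ.2)⟩⟩
  have hcard : Fintype.card R = l := by rw [Fintype.card_coe, hRl]
  haveI : Nonempty R := by
    rw [← Fintype.card_pos_iff, hcard]
    exact hl.pos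
  obtain ⟨θ₀⟩ := ‹Nonempty R›
  haveI : Nonempty R := ⟨θ₀⟩
  obtain ⟨v, hv⟩ := exists_isCls B hρ
  have hvl : v ^ l = 1 := by rw [← hcard]; exact isCls_pow hv
  have hv' := hv
  obtain ⟨A, δ, hAδ, hvδ⟩ := hv'
  obtain ⟨μ, M, hμ, h1, h2⟩ := exists_mono (fun θ : R => (θ : Ω)) Subtype.val_injective hιg ρ d d'
    hd hd' A δ hAδ
  obtain ⟨H, _, _, hX, r, s, χ, k, hs, hχc, hχ, hk, hξ⟩ := exists_chi hl hcard θ₀
    (fun θ : R => (θ : Ω)) Subtype.val_injective hιg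
  obtain ⟨b, hb, β, hβ, hδ⟩ := comb μ M δ hμ h1 h2 r s hl.pos hs θ₀ χ hχc hχ k hk
  have hone : cl (fun g h => ∏ x, b x ^ k g h x) = 1 := by
    rcases hW with hW | ⟨z, hW⟩
    · exact core_char hl hb χ hχc k hk
    · obtain ⟨ξ, hξ⟩ := hξ z
      have ha : (fun x => ξ x ^ l) ∈ Eqv B Ω ((Ω ≃ₐ[B] Ω) ⧸ H) := by
        intro g x
        have h3 := hξ g (g • x)
        rw [inv_smul_smul] at h3
        rw [map_pow, h3, mul_pow, ← pow_mul, mul_comm (χ g (g • x)), pow_mul, z.prim.pow_eq_one,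
          one_pow, one_mul]
      have hC : Comp z (fun x => ξ x ^ l) b (fun g h => ∏ x, b x ^ k g h x) := by
        refine ⟨ξ, fun g x => (χ g x : ℤ), fun g h x => (k g h x : ℤ),
          hχc.comp (fun f x => (f x : ℤ)), fun _ => rfl, ?_, ?_, ?_⟩
        · intro g x
          rw [hξ g x, zpow_natCast]
        · intro g h x
          have := hk g h x
          zify at this
          linarith
        · intro g h
          simp only [zpow_natCast]
      have hS := rosset_tate z ha hb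
      rw [hW, Subgroup.mem_bot, S_eq z hb hC] at hS
      exact hS
  have hX1 : v ^ Fintype.card ((Ω ≃ₐ[B] Ω) ⧸ H) = 1 := by
    rw [hvδ, ← cl_pow, ← hone]
    exact cl_eq hβ (fun g h => by rw [← hδ g h]; rfl)
  have hv1 : v = 1 := by
    have h3 : v ^ Nat.gcd (Fintype.card ((Ω ≃ₐ[B] Ω) ⧸ H)) l = 1 :=
      pow_gcd_eq_one.2 ⟨hX1, hvl⟩
    rwa [Nat.Coprime.gcd_eq_one hX, pow_one] at h3
  rw [hv1] at hv
  obtain ⟨f⟩ := exists_hom_of_isCls_one hv
  exact ⟨(Matrix.reindexAlgEquiv F B (Fintype.equivFinOfCardEq hcard)).toAlgHom.comp f⟩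

end Pool.Agent.LibCoc63
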