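import Pool.Agent.LibCoc63.Sym2

/-!
[COC S3] Projection formulas for an equivariant map p : Y → X. Both are equalities of cochains.
-/

set_option autoImplicit false

open Finset

namespace Pool.Agent.LibCoc63

variable {B Ω : Type*} [Field B] [Field Ω] [Algebra B Ω]
variable {X : Type*} [Fintype X] [MulAction (Ω ≃ₐ[B] Ω) X]
variable {Y : Type*} [Fintype Y] [MulAction (Ω ≃ₐ[B] Ω) Y]

open Classical in
/-- The product over the fibres. -/
noncomputable def nm (p : Y → X) (b : Y → Ωˣ) : X → Ωˣ := fun x => ∏ y with p y = x, b y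

omit [Fintype X] in
open Classical in
private lemma prod_fib {M : Type*} [CommMonoid M] {p : Y → X}
    (hp : ∀ (g : Ω ≃ₐ[B] Ω) y, p (g • y) = g • p y) (g : Ω ≃ₐ[B] Ω) (x : X) (f : Y → M) :
    ∏ y with p y = g • x, f y = ∏ y with p y = x, f (g • y) := by
  refine (prod_equiv (MulAction.toPerm g) (fun y => ?_) fun y _ => rfl).symm
  rw [mem_filter, mem_filter, MulAction.toPerm_apply, hp, smul_left_cancel_iff]
  exact ⟨fun h => ⟨mem_univ _, h.2⟩, fun h => ⟨mem_univ _, h.2⟩⟩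

omit [Fintype X] in
open Classical in
private lemma sum_fib {M : Type*} [AddCommMonoid M] {p : Y → X}
    (hp : ∀ (g : Ω ≃ₐ[B] Ω) y, p (g • y) = g • p y) (g : Ω ≃ₐ[B] Ω) (x : X) (f : Y → M) :
    ∑ y with p y = g • x, f y = ∑ y with p y = x, f (g • y) := by
  refine (sum_equiv (MulAction.toPerm g) (fun y => ?_) fun y _ => rfl).symm
  rw [mem_filter, mem_filter, MulAction.toPerm_apply, hp, smul_left_cancel_iff]
  exact ⟨fun h => ⟨mem_univ _, h.2⟩, fun h => ⟨mem_univ _, h.2⟩⟩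

private lemma zpow_sum' {ι M : Type*} [CommGroup M] (s : Finset ι) (f : ι → ℤ) (b : M) :
    b ^ (∑ i ∈ s, f i) = ∏ i ∈ s, b ^ f i := by
  classical
  induction s using Finset.induction_on with
  | empty => rw [sum_empty, prod_empty, zpow_zero]
  | insert i s hi ih => rw [sum_insert hi, prod_insert hi, zpow_add, ih]

theorem nm_mem {p : Y → X} (hp : ∀ (g : Ω ≃ₐ[B] Ω) y, p (g • y) = g • p y) {b : Y → Ωˣ}
    (hb : b ∈ Eqv B Ω Y) : nm p b ∈ Eqv B Ω X := by
  intro g x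
  rw [nm, prod_fib hp, nm, map_prod]
  exact prod_congr rfl fun y _ => hb g y

theorem comp_mem {p : Y → X} (hp : ∀ (g : Ω ≃ₐ[B] Ω) y, p (g • y) = g • p y) {b : X → Ωˣ}
    (hb : b ∈ Eqv B Ω X) : b ∘ p ∈ Eqv B Ω Y := by
  intro g y
  rw [Function.comp_apply, hp, hb g (p y)]
  rfl

theorem S_proj_right [IsAlgClosed Ω] [CtsSet B Ω X] [CtsSet B Ω Y] {m : ℕ} (z : PR B Ω m)
    {p : Y → X} (hp : ∀ (g : Ω ≃ₐ[B] Ω) y, p (g • y) = g • p y) {a : X → Ωˣ}
    (ha : a ∈ Eqv B Ω X) {b : Y → Ωˣ} (hb : b ∈ Eqv B Ω Y) :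
    S z (a ∘ p) b = S z a (nm p b) := by
  classical
  obtain ⟨c, hc⟩ := comp_exists z ha (nm p b)
  rw [S_eq z (nm_mem hp hb) hc]
  obtain ⟨ξ, χ, k, hχ, h1, h2, h3, h4⟩ := hc
  refine S_eq z hb ⟨fun y => ξ (p y), fun g y => χ g (p y), fun g h y => k g h (p y),
    hχ.comp (fun u y => u (p y)), fun y => h1 (p y), fun g y => ?_, fun g h y => ?_,
    fun g h => ?_⟩
  · show act g (ξ (p (g⁻¹ • y))) = z.ζ ^ χ g (p y) * ξ (p y)
    rw [hp]
    exact h2 g (p y)
  · show χ g (p y) + χ h (p (g⁻¹ • y)) - χ (g * h) (p y) = m * k g h (p y)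
    rw [hp]
    exact h3 g h (p y)
  · rw [h4, ← prod_fiberwise univ p]
    refine prod_congr rfl fun x _ => ?_
    rw [nm, ← prod_zpow]
    refine prod_congr rfl fun y hy => ?_
    show b y ^ k g h x = b y ^ k g h (p y)
    rw [(mem_filter.1 hy).2]

theorem S_proj_left [IsAlgClosed Ω] [CtsSet B Ω X] [CtsSet B Ω Y] {m : ℕ} (z : PR B Ω m)
    {p : Y → X} (hp : ∀ (g : Ω ≃ₐ[B] Ω) y, p (g • y) = g • p y) {a : Y → Ωˣ}
    (ha : a ∈ Eqv B Ω Y) {b : X → Ωˣ} (hb : b ∈ Eqv B Ω X) :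
    S z a (b ∘ p) = S z (nm p a) b := by
  classical
  obtain ⟨c, hc⟩ := comp_exists z ha (b ∘ p)
  rw [S_eq z (comp_mem hp hb) hc]
  obtain ⟨ξ, χ, k, hχ, h1, h2, h3, h4⟩ := hc
  refine (S_eq z hb ⟨nm p ξ, fun g x => ∑ y with p y = x, χ g y,
    fun g h x => ∑ y with p y = x, k g h y,
    hχ.comp (fun u x => ∑ y with p y = x, u y), fun x => ?_, fun g x => ?_, fun g h x => ?_,
    fun g h => ?_⟩).symm
  · rw [nm, nm, ← prod_pow]
    exact prod_congr rfl fun y _ => h1 y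
  · rw [nm, nm, prod_fib hp, map_prod, zpow_sum', ← prod_mul_distrib]
    exact prod_congr rfl fun y _ => h2 g y
  · show ∑ y with p y = x, χ g y + ∑ y with p y = g⁻¹ • x, χ h y -
      ∑ y with p y = x, χ (g * h) y = m * ∑ y with p y = x, k g h y
    rw [sum_fib hp, ← sum_add_distrib, ← sum_sub_distrib, mul_sum]
    exact sum_congr rfl fun y _ => h3 g h y
  · rw [h4, ← prod_fiberwise univ p]
    refine prod_congr rfl fun x _ => ?_
    rw [zpow_sum']
    refine prod_congr rfl fun y hy => ?_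
    rw [Function.comp_apply, (mem_filter.1 hy).2]

end Pool.Agent.LibCoc63
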