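import Pool.Agent.LibCoc63.Stein

/-!
[COC S5] Galois theory for the theorem of Rosset and Tate. B is perfect, Ω is an algebraic closure of B, so Ω/B is
Galois (`IsGalois`; separable: PerfectField; normal: algebraically closed).
-/

set_option autoImplicit false

open Finset Polynomial

namespace Pool.Agent.LibCoc63

variable {B Ω : Type*} [Field B] [Field Ω] [Algebra B Ω]

/-- The constant function with value `u ∈ Bˣ`. -/
def cst (Ω : Type*) {B : Type*} [Field B] [Field Ω] [Algebra B Ω] (X : Type*) (u : Bˣ) : X → Ωˣ :=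
  fun _ => Units.map (algebraMap B Ω).toMonoidHom u

theorem cst_mem (X : Type*) [MulAction (Ω ≃ₐ[B] Ω) X] (u : Bˣ) : cst Ω X u ∈ Eqv B Ω X := by
  intro g x
  ext
  simp [cst]

/-- The subgroup generated by the symbols of constants. -/
noncomputable def W {m : ℕ} (z : PR B Ω m) : Subgroup (V B Ω) :=
  Subgroup.closure {v | ∃ u w : Bˣ, v = S z (cst Ω Unit u) (cst Ω Unit w)}

open Classical in
/-- The values of the polynomial `h` on the roots of `f`. -/
noncomputable def ev (Ω : Type*) {B : Type*} [Field B] [Field Ω] [Algebra B Ω] (f h : B[X]) :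
    f.rootSet Ω → Ωˣ :=
  fun x => if h0 : aeval (x : Ω) h = 0 then 1 else Units.mk0 _ h0

instance instCtsSetUnit : CtsSet B Ω Unit := ⟨⟨∅, fun _ _ _ => rfl⟩⟩

instance instCtsSetRootSet (f : B[X]) : CtsSet B Ω (f.rootSet Ω) := by
  refine ⟨⟨(rootSet_finite f Ω).toFinset, fun g hg x => ?_⟩⟩
  apply Subtype.ext
  rw [rootSet.coe_smul]
  exact hg x ((rootSet_finite f Ω).mem_toFinset.2 x.2)

theorem ev_mem (f h : B[X]) : ev Ω f h ∈ Eqv B Ω (f.rootSet Ω) := by
  intro g x
  have e : aeval ((g • x : f.rootSet Ω) : Ω) h = g (aeval (x : Ω) h) := by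
    rw [rootSet.coe_smul]
    exact aeval_algHom_apply g.toAlgHom (x : Ω) h
  unfold ev
  by_cases h0 : aeval (x : Ω) h = 0
  · have h1 : aeval ((g • x : f.rootSet Ω) : Ω) h = 0 := by rw [e, h0, map_zero]
    rw [dif_pos h0, dif_pos h1, map_one]
  · have h1 : aeval ((g • x : f.rootSet Ω) : Ω) h ≠ 0 := by
      rw [e]
      exact (map_ne_zero g).2 h0
    rw [dif_neg h0, dif_neg h1]
    ext
    rw [Units.val_mk0, coe_act, Units.val_mk0, e]

theorem rtd_ne_zero {f h : B[X]} (hf : Irreducible f) (hh : ¬ f ∣ h) (x : f.rootSet Ω) :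
    aeval (x : Ω) h ≠ 0 := by
  intro h0
  obtain ⟨a, b, hab⟩ := (hf.coprime_iff_not_dvd).2 hh
  have h1 : aeval (x : Ω) f = 0 := aeval_eq_zero_of_mem_rootSet x.2
  have := congrArg (aeval (x : Ω)) hab
  rw [map_add, map_mul, map_mul, h0, h1, mul_zero, mul_zero, add_zero, map_one] at this
  exact zero_ne_one this

theorem rtd_coe_ev {f h : B[X]} (hf : Irreducible f) (hh : ¬ f ∣ h) (x : f.rootSet Ω) :
    (ev Ω f h x : Ω) = aeval (x : Ω) h := by
  unfold ev
  rw [dif_neg (rtd_ne_zero hf hh x), Units.val_mk0]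

variable [IsAlgClosed Ω] [Algebra.IsAlgebraic B Ω] [PerfectField B]

theorem ev_mul {f h h' : B[X]} (hf : Irreducible f) (hh : ¬ f ∣ h) (hh' : ¬ f ∣ h') :
    ev Ω f (h * h') = ev Ω f h * ev Ω f h' := by
  funext x
  have h2 : ¬ f ∣ h * h' := fun hd => (hf.prime.dvd_or_dvd hd).elim hh hh'
  ext
  rw [Pi.mul_apply, Units.val_mul, rtd_coe_ev hf hh, rtd_coe_ev hf hh', rtd_coe_ev hf h2, map_mul]

theorem coe_ev {f h : B[X]} (hf : Irreducible f) (hh : ¬ f ∣ h) (x : f.rootSet Ω) :
    (ev Ω f h x : Ω) = aeval (x : Ω) h := rtd_coe_ev hf hh x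

omit [IsAlgClosed Ω] in
theorem rtd_sep : Algebra.IsSeparable B Ω := inferInstance

theorem rtd_galois : IsGalois B Ω := by
  have : IsAlgClosure B Ω := ⟨inferInstance, inferInstance⟩
  have : Normal B Ω := IsAlgClosure.normal B Ω
  exact ⟨⟩

/-- f is separable, so this is the factorisation of `f`. -/
theorem prod_roots {f : B[X]} (hf : Irreducible f) (hm : f.Monic) (t : Ω) :
    ∏ x : f.rootSet Ω, (t - (x : Ω)) = aeval t f := by
  classical
  have hsep : f.Separable := PerfectField.separable_of_irreducible hf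
  have hnd : (f.map (algebraMap B Ω)).roots.Nodup := nodup_roots hsep.map
  have hsp : (f.map (algebraMap B Ω)).Splits := IsAlgClosed.splits _
  have e1 : ∏ x : f.rootSet Ω, (t - (x : Ω)) =
      ∏ x ∈ (f.map (algebraMap B Ω)).roots.toFinset, (t - x) := by
    refine (Finset.prod_subtype _ (fun x => ?_) (fun x => t - x)).symm
    rw [Multiset.mem_toFinset, rootSet_def, Finset.mem_coe, Multiset.mem_toFinset]
  rw [e1]
  show (Multiset.map (fun x => t - x) (f.map (algebraMap B Ω)).roots.toFinset.val).prod = _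
  rw [Multiset.toFinset_val, Multiset.dedup_eq_self.2 hnd,
    ← hsp.eval_eq_prod_roots_of_monic (hm.map _), eval_map_algebraMap]

theorem exists_base (u : Ωˣ) (hu : ∀ g : Ω ≃ₐ[B] Ω, act g u = u) :
    ∃ w : Bˣ, u = Units.map (algebraMap B Ω).toMonoidHom w := by
  have := rtd_galois (B := B) (Ω := Ω)
  have h1 : (u : Ω) ∈ Set.range (algebraMap B Ω) := by
    rw [InfiniteGalois.mem_range_algebraMap_iff_fixed]
    intro g
    have := congrArg Units.val (hu g)
    exact this
  obtain ⟨y, hy⟩ := h1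
  have hy0 : y ≠ 0 := by
    rintro rfl
    rw [map_zero] at hy
    exact u.ne_zero hy.symm
  refine ⟨Units.mk0 y hy0, ?_⟩
  ext
  rw [← hy]
  rfl

/-- `InfiniteGalois.fixedField_fixingSubgroup` for B(x), and B(x) = B[x]. -/
theorem exists_poly (x y : Ω) (h : ∀ g : Ω ≃ₐ[B] Ω, g x = x → g y = y) :
    ∃ q : B[X], aeval x q = y := by
  have := rtd_galois (B := B) (Ω := Ω)
  have h1 : y ∈ IntermediateField.adjoin B {x} := by
    rw [← InfiniteGalois.fixedField_fixingSubgroup (IntermediateField.adjoin B {x}),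
      IntermediateField.mem_fixedField_iff]
    intro g hg
    apply h g
    rw [IntermediateField.mem_fixingSubgroup_iff] at hg
    exact hg x (IntermediateField.mem_adjoin_simple_self B x)
  have h2 : y ∈ (IntermediateField.adjoin B {x}).toSubalgebra := h1
  rw [IntermediateField.adjoin_simple_toSubalgebra_of_isAlgebraic
    (Algebra.IsAlgebraic.isAlgebraic x), Algebra.adjoin_singleton_eq_range_aeval] at h2
  exact h2

theorem exists_smul_eq {f : B[X]} (hf : Irreducible f) (x y : f.rootSet Ω) :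
    ∃ g : Ω ≃ₐ[B] Ω, g • x = y := by
  have := rtd_galois (B := B) (Ω := Ω)
  have hx : aeval (x : Ω) f = 0 := aeval_eq_zero_of_mem_rootSet x.2
  have hy : aeval (y : Ω) f = 0 := aeval_eq_zero_of_mem_rootSet y.2
  have e := minpoly.eq_of_irreducible hf hx
  obtain ⟨g, hg⟩ := minpoly.exists_algEquiv_of_root' (K := B) (x := (y : Ω)) (y := (x : Ω))
    (Algebra.IsAlgebraic.isAlgebraic _) (by rw [← e, map_mul, hy, zero_mul])
  exact ⟨g, Subtype.ext (by rw [rootSet.coe_smul]; exact hg)⟩

end Pool.Agent.LibCoc63
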