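import Pool.Agent.LibCoc63.RTDefs

/-!
[COC S6] Reciprocity. Y = (roots of f) × (roots of g) (diagonal action), x ≠ y, both ≠ 0. Steinberg for y/x + (x-y)/x = 1
on Y: S(y/x, (x-y)/x) = 1, i.e. S(y, x-y) S(y, x)⁻¹ S(x, x-y)⁻¹ S(x, x) = 1, S(x,x) = S(x,-1).
S_Y(x, x-y) = S_f(x, g(x)) (S_proj_right, ∏_y (x-y) = g(x)); S_Y(y, x-y) = S_g(y, ∏_x (x-y)) = S_g(y, (-1)^(deg f) f(y));
S_Y(y, x) = S_g(y, ∏_x x) = S_g(y, constant) ∈ W; S_Y(x, -1) ∈ W. const: S_proj_left for X → Unit, `exists_base`.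
-/

set_option autoImplicit false

open Finset Polynomial

namespace Pool.Agent.LibCoc63

variable {B Ω : Type*} [Field B] [Field Ω] [Algebra B Ω]

lemma RTRec_cts_prod {X Y : Type*} [MulAction (Ω ≃ₐ[B] Ω) X] [MulAction (Ω ≃ₐ[B] Ω) Y]
    [CtsSet B Ω X] [CtsSet B Ω Y] : CtsSet B Ω (X × Y) := by
  classical
  obtain ⟨T, hT⟩ := CtsSet.out (B := B) (Ω := Ω) (X := X)
  obtain ⟨T', hT'⟩ := CtsSet.out (B := B) (Ω := Ω) (X := Y)
  refine ⟨⟨T ∪ T', fun g h x => ?_⟩⟩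
  exact Prod.ext (hT g (fun t ht => h t (mem_union_left _ ht)) x.1)
    (hT' g (fun t ht => h t (mem_union_right _ ht)) x.2)

/-- the fibres of the first projection -/
lemma RTRec_nm_fst {Ω X Y : Type*} [Field Ω] [Fintype X] [Fintype Y] (b : X × Y → Ωˣ) (x : X) :
    nm (Prod.fst : X × Y → X) b x = ∏ y : Y, b (x, y) := by
  classical
  rw [nm]
  refine Finset.prod_bij' (fun q _ => q.2) (fun y _ => (x, y)) ?_ ?_ ?_ ?_ ?_
  · intro q _; exact mem_univ _
  · intro y _; simp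
  · rintro ⟨q1, q2⟩ hq
    simp only [mem_filter, mem_univ, true_and] at hq
    rw [hq]
  · intro y _; rfl
  · rintro ⟨q1, q2⟩ hq
    simp only [mem_filter, mem_univ, true_and] at hq
    rw [hq]

/-- the fibres of the second projection -/
lemma RTRec_nm_snd {Ω X Y : Type*} [Field Ω] [Fintype X] [Fintype Y] (b : X × Y → Ωˣ) (y : Y) :
    nm (Prod.snd : X × Y → Y) b y = ∏ x : X, b (x, y) := by
  classical
  rw [nm]
  refine Finset.prod_bij' (fun q _ => q.1) (fun x _ => (x, y)) ?_ ?_ ?_ ?_ ?_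
  · intro q _; exact mem_univ _
  · intro x _; simp
  · rintro ⟨q1, q2⟩ hq
    simp only [mem_filter, mem_univ, true_and] at hq
    rw [hq]
  · intro x _; rfl
  · rintro ⟨q1, q2⟩ hq
    simp only [mem_filter, mem_univ, true_and] at hq
    rw [hq]

lemma RTRec_not_dvd {f g : B[X]} (hf : Irreducible f) (hfm : f.Monic)
    (hg : Irreducible g) (hgm : g.Monic) (hfg : f ≠ g) : ¬ f ∣ g := fun h =>
  hfg (eq_of_monic_of_associated hfm hgm (hf.associated_of_dvd hg h))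

variable [IsAlgClosed Ω] [Algebra.IsAlgebraic B Ω] [PerfectField B]

theorem S_cst_right {X : Type*} [Fintype X] [MulAction (Ω ≃ₐ[B] Ω) X] [CtsSet B Ω X] {m : ℕ}
    (z : PR B Ω m) {a : X → Ωˣ} (ha : a ∈ Eqv B Ω X) (u : Bˣ) : S z a (cst Ω X u) ∈ W z := by
  have hp : ∀ (g : Ω ≃ₐ[B] Ω) (x : X), (fun _ => () : X → Unit) (g • x) =
      g • (fun _ => () : X → Unit) x := fun _ _ => rfl
  have h1 : S z a (cst Ω X u) = S z (nm (fun _ => () : X → Unit) a) (cst Ω Unit u) :=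
    S_proj_left z hp ha (cst_mem Unit u)
  have hn : nm (fun _ => () : X → Unit) a ∈ Eqv B Ω Unit := nm_mem hp ha
  obtain ⟨w, hw⟩ := exists_base (B := B) (nm (fun _ => () : X → Unit) a ()) (fun g =>
    (hn g ()).symm)
  have h2 : nm (fun _ => () : X → Unit) a = cst Ω Unit w := by
    funext x
    exact hw
  rw [h1, h2]
  exact Subgroup.subset_closure ⟨w, u, rfl⟩

theorem reciprocity {m : ℕ} (z : PR B Ω m) {f g : B[X]} (hf : Irreducible f) (hfm : f.Monic)
    (hg : Irreducible g) (hgm : g.Monic) (hfg : f ≠ g) (hfX : f ≠ Polynomial.X)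
    (hgX : g ≠ Polynomial.X)
    (h : S z (ev Ω g Polynomial.X) (ev Ω g f) ∈ W z) :
    S z (ev Ω f Polynomial.X) (ev Ω f g) ∈ W z := by
  classical
  have hfg' : ¬ f ∣ g := RTRec_not_dvd hf hfm hg hgm hfg
  have hgf' : ¬ g ∣ f := RTRec_not_dvd hg hgm hf hfm hfg.symm
  have hfX' : ¬ f ∣ Polynomial.X := RTRec_not_dvd hf hfm irreducible_X monic_X hfX
  have hgX' : ¬ g ∣ Polynomial.X := RTRec_not_dvd hg hgm irreducible_X monic_X hgX
  have hx : ∀ x : f.rootSet Ω, (ev Ω f Polynomial.X x : Ω) = (x : Ω) := fun x => by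
    rw [coe_ev hf hfX', aeval_X]
  have hy : ∀ y : g.rootSet Ω, (ev Ω g Polynomial.X y : Ω) = (y : Ω) := fun y => by
    rw [coe_ev hg hgX', aeval_X]
  have hne : ∀ q : f.rootSet Ω × g.rootSet Ω, (q.1 : Ω) - (q.2 : Ω) ≠ 0 := by
    rintro ⟨x, y⟩ h0
    have h1 : (x : Ω) = (y : Ω) := sub_eq_zero.1 h0
    have h2 : aeval (y : Ω) g = 0 := (mem_rootSet.1 y.2).2
    have h3 : (ev Ω f g x : Ω) = 0 := by rw [coe_ev hf hfg', h1, h2]
    exact (ev Ω f g x).ne_zero h3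
  have : CtsSet B Ω (f.rootSet Ω × g.rootSet Ω) := RTRec_cts_prod
  -- the three functions on the product
  set xx : f.rootSet Ω × g.rootSet Ω → Ωˣ := ev Ω f Polynomial.X ∘ Prod.fst with hxx
  set yy : f.rootSet Ω × g.rootSet Ω → Ωˣ := ev Ω g Polynomial.X ∘ Prod.snd with hyy
  set dd : f.rootSet Ω × g.rootSet Ω → Ωˣ := fun q => Units.mk0 _ (hne q) with hdd
  have hp1 : ∀ (s : Ω ≃ₐ[B] Ω) (q : f.rootSet Ω × g.rootSet Ω),
      Prod.fst (s • q) = s • Prod.fst q := fun _ _ => rfl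
  have hp2 : ∀ (s : Ω ≃ₐ[B] Ω) (q : f.rootSet Ω × g.rootSet Ω),
      Prod.snd (s • q) = s • Prod.snd q := fun _ _ => rfl
  have mxx : xx ∈ Eqv B Ω (f.rootSet Ω × g.rootSet Ω) := comp_mem hp1 (ev_mem _ _)
  have myy : yy ∈ Eqv B Ω (f.rootSet Ω × g.rootSet Ω) := comp_mem hp2 (ev_mem _ _)
  have mdd : dd ∈ Eqv B Ω (f.rootSet Ω × g.rootSet Ω) := by
    intro s q
    ext
    simp only [hdd, Units.val_mk0, coe_act, map_sub]
    rfl
  -- the Steinberg relation
  have hst : S z (yy * xx⁻¹) (dd * xx⁻¹) = 1 := by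
    refine S_steinberg z (mul_mem myy (inv_mem mxx)) (mul_mem mdd (inv_mem mxx)) fun q => ?_
    have hx0 : (xx q : Ω) ≠ 0 := (xx q).ne_zero
    have e1 : (xx q : Ω) = (q.1 : Ω) := hx q.1
    have e2 : (yy q : Ω) = (q.2 : Ω) := hy q.2
    have e3 : (dd q : Ω) = (q.1 : Ω) - (q.2 : Ω) := rfl
    rw [Pi.mul_apply, Pi.mul_apply, Pi.inv_apply, Units.val_mul, Units.val_mul,
      Units.val_inv_eq_inv_val, ← add_mul, e2, e3, e1]
    rw [e1] at hx0
    rw [add_sub_cancel, mul_inv_cancel₀ hx0]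
  rw [S_mul_left z myy (inv_mem mxx) (mul_mem mdd (inv_mem mxx)),
    S_inv_left z mxx (mul_mem mdd (inv_mem mxx)), S_mul_right z myy mdd (inv_mem mxx),
    S_mul_right z mxx mdd (inv_mem mxx), S_inv_right z myy mxx, S_inv_right z mxx mxx] at hst
  -- the four symbols
  have k1 : S z xx dd = S z (ev Ω f Polynomial.X) (ev Ω f g) := by
    have e : nm (Prod.fst : f.rootSet Ω × g.rootSet Ω → f.rootSet Ω) dd = ev Ω f g := by
      funext x
      rw [RTRec_nm_fst]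
      ext
      rw [Units.coe_prod, coe_ev hf hfg', ← prod_roots hg hgm]
      rfl
    rw [hxx, S_proj_right z hp1 (ev_mem _ _) mdd, e]
  have k2 : S z yy dd ∈ W z := by
    have e : nm (Prod.snd : f.rootSet Ω × g.rootSet Ω → g.rootSet Ω) dd =
        cst Ω (g.rootSet Ω) ((-1 : Bˣ) ^ Fintype.card (f.rootSet Ω)) * ev Ω g f := by
      funext y
      rw [RTRec_nm_snd]
      ext
      rw [Units.coe_prod, Pi.mul_apply, Units.val_mul, coe_ev hg hgf', ← prod_roots hf hfm]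
      have e1 : ((cst Ω (g.rootSet Ω) ((-1 : Bˣ) ^ Fintype.card (f.rootSet Ω)) y : Ωˣ) : Ω) =
          (-1) ^ Fintype.card (f.rootSet Ω) := by
        simp [cst]
      rw [e1, ← Finset.card_univ, ← Finset.prod_const, ← Finset.prod_mul_distrib]
      refine Finset.prod_congr rfl fun x _ => ?_
      simp [hdd]
    rw [hyy, S_proj_right z hp2 (ev_mem _ _) mdd, e,
      S_mul_right z (ev_mem _ _) (cst_mem _ _) (ev_mem _ _)]
    exact mul_mem (S_cst_right z (ev_mem _ _) _) h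
  have k3 : S z yy xx ∈ W z := by
    obtain ⟨w, hw⟩ := exists_base (B := B) (∏ x : f.rootSet Ω, ev Ω f Polynomial.X x) (fun s => by
      rw [map_prod]
      have e1 : ∀ x : f.rootSet Ω, act s (ev Ω f Polynomial.X x) = ev Ω f Polynomial.X (s • x) :=
        fun x => (ev_mem f Polynomial.X s x).symm
      rw [Finset.prod_congr rfl fun x _ => e1 x]
      exact Fintype.prod_equiv (MulAction.toPerm s) _ _ fun x => rfl)
    have e : nm (Prod.snd : f.rootSet Ω × g.rootSet Ω → g.rootSet Ω) xx =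
        cst Ω (g.rootSet Ω) w := by
      funext y
      rw [RTRec_nm_snd]
      exact hw
    rw [hyy, S_proj_right z hp2 (ev_mem _ _) mxx, e]
    exact S_cst_right z (ev_mem _ _) _
  have k4 : S z xx xx ∈ W z := by
    have e : (-1 : f.rootSet Ω × g.rootSet Ω → Ωˣ) =
        cst Ω (f.rootSet Ω × g.rootSet Ω) (-1 : Bˣ) := by
      funext q
      ext
      simp [cst]
    rw [S_self z mxx, e]
    exact S_cst_right z mxx _
  have k5 : S z xx dd = S z yy dd * (S z yy xx)⁻¹ * S z xx xx := by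
    have h1 := mul_inv_eq_one.1 hst
    rw [h1]
    group
  rw [← k1, k5]
  exact mul_mem (mul_mem k2 (inv_mem k3)) k4

end Pool.Agent.LibCoc63
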