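import Pool.Agent.LibCoc63.Proj

/-!
[COC S4] Steinberg relation, `S a (-a) = 1`, antisymmetry. `Rt m a` is the set of the pairs `(x, ξ)`
with `ξ ^ m = a x`.
-/

set_option autoImplicit false

open Finset

namespace Pool.Agent.LibCoc63

variable {B Ω : Type*} [Field B] [Field Ω] [Algebra B Ω] [IsAlgClosed Ω]
variable {X : Type*} [Fintype X] [MulAction (Ω ≃ₐ[B] Ω) X] [CtsSet B Ω X]

omit [IsAlgClosed Ω] [Fintype X] [CtsSet B Ω X] in
theorem neg_mem {a : X → Ωˣ} (ha : a ∈ Eqv B Ω X) : -a ∈ Eqv B Ω X := by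
  intro g x
  rw [Pi.neg_apply, Pi.neg_apply, ha g x]
  ext
  simp

/-- The set of the pairs `(x, ξ)` with `ξ ^ m = a x`. -/
def Rt (m : ℕ) (a : Eqv B Ω X) : Type _ := {q : X × Ωˣ // q.2 ^ m = (a : X → Ωˣ) q.1}

instance (m : ℕ) (a : Eqv B Ω X) : MulAction (Ω ≃ₐ[B] Ω) (Rt m a) where
  smul g q := ⟨(g • q.1.1, act g q.1.2), by rw [← map_pow, q.2, a.2 g]⟩
  one_smul q := Subtype.ext (Prod.ext (one_smul _ _) (act_one _))
  mul_smul g h q := Subtype.ext (Prod.ext (mul_smul _ _ _) (act_mul _ _ _))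

omit [IsAlgClosed Ω] [CtsSet B Ω X] in
private lemma finite_rt {m : ℕ} (hm : 0 < m) (a : Eqv B Ω X) : Finite (Rt m a) := by
  classical
  have h1 : ∀ x : X, {ξ : Ωˣ | ξ ^ m = (a : X → Ωˣ) x}.Finite := by
    intro x
    refine Set.Finite.of_finite_image (f := fun u : Ωˣ => (u : Ω)) ?_ fun u _ v _ h => Units.ext h
    refine (Polynomial.nthRoots m (((a : X → Ωˣ) x : Ωˣ) : Ω)).toFinset.finite_toSet.subset ?_
    rintro _ ⟨ξ, hξ, rfl⟩
    rw [mem_coe, Multiset.mem_toFinset, Polynomial.mem_nthRoots hm, ← Units.val_pow_eq_pow_val]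
    exact congrArg Units.val hξ
  have h2 : {q : X × Ωˣ | q.2 ^ m = (a : X → Ωˣ) q.1}.Finite := by
    refine (Set.finite_iUnion fun x => (h1 x).image (Prod.mk x)).subset ?_
    rintro ⟨x, ξ⟩ h
    exact Set.mem_iUnion.2 ⟨x, ξ, h, rfl⟩
  exact h2.to_subtype

omit [IsAlgClosed Ω] in
private lemma ctsSet_rt {m : ℕ} (hm : 0 < m) (a : Eqv B Ω X) : CtsSet B Ω (Rt m a) := by
  classical
  have hf := finite_rt hm a
  have := Fintype.ofFinite (Rt m a)
  obtain ⟨T, hT⟩ := CtsSet.out (B := B) (Ω := Ω) (X := X)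
  refine ⟨T ∪ univ.image fun q : Rt m a => (q.1.2 : Ω), fun g h q => ?_⟩
  refine Subtype.ext (Prod.ext ?_ ?_)
  · exact hT g (fun t ht => h t (mem_union_left _ ht)) _
  · exact Units.ext (h _ (mem_union_right _ (mem_image_of_mem _ (mem_univ q))))

open Classical in
/-- The product over the roots. -/
private lemma prod_rt {m : ℕ} (z : PR B Ω m) (a : Eqv B Ω X) [Fintype (Rt m a)] (f : Ω → Ω) (x : X)
    {ξ : Ωˣ} (hξ : ξ ^ m = (a : X → Ωˣ) x) :
    ∏ q : Rt m a with q.1.1 = x, f (q.1.2 : Ω) =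
      ∏ η ∈ Polynomial.nthRootsFinset m (1 : Ω), f (η * ξ) := by
  refine prod_nbij (fun q => (q.1.2 : Ω) * (ξ : Ω)⁻¹) ?_ ?_ ?_ ?_
  · intro q hq
    rw [Polynomial.mem_nthRootsFinset z.pos, mul_pow, inv_pow, ← Units.val_pow_eq_pow_val,
      ← Units.val_pow_eq_pow_val, q.2, (mem_filter.1 hq).2, hξ]
    exact mul_inv_cancel₀ (Units.ne_zero _)
  · intro q hq q' hq' h
    have h1 := (mem_filter.1 (mem_coe.1 hq)).2
    have h2 := (mem_filter.1 (mem_coe.1 hq')).2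
    have h3 := mul_right_cancel₀ (inv_ne_zero ξ.ne_zero) h
    exact Subtype.ext (Prod.ext (h1.trans h2.symm) (Units.ext h3))
  · intro η hη
    rw [mem_coe, Polynomial.mem_nthRootsFinset z.pos] at hη
    have hη0 : η ≠ 0 := by
      rintro rfl
      rw [zero_pow z.pos.ne'] at hη
      exact zero_ne_one hη
    refine ⟨⟨(x, Units.mk0 η hη0 * ξ), ?_⟩, ?_, ?_⟩
    · have h1 : Units.mk0 η hη0 ^ m = 1 := Units.ext (by
        rw [Units.val_pow_eq_pow_val, Units.val_mk0, hη, Units.val_one])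
      show (Units.mk0 η hη0 * ξ) ^ m = (a : X → Ωˣ) x
      rw [mul_pow, h1, one_mul, hξ]
    · exact mem_coe.2 (mem_filter.2 ⟨mem_univ _, rfl⟩)
    · show η * (ξ : Ω) * (ξ : Ω)⁻¹ = η
      rw [mul_inv_cancel_right₀ ξ.ne_zero]
  · intro q _
    rw [inv_mul_cancel_right₀ ξ.ne_zero]

private lemma exists_root {m : ℕ} (hm : 0 < m) (u : Ωˣ) : ∃ ξ : Ωˣ, ξ ^ m = u := by
  obtain ⟨y, hy⟩ := IsAlgClosed.exists_pow_nat_eq (u : Ω) hm
  have hy0 : y ≠ 0 := by
    rintro rfl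
    rw [zero_pow hm.ne'] at hy
    exact u.ne_zero hy.symm
  exact ⟨Units.mk0 y hy0, Units.ext (by rw [Units.val_pow_eq_pow_val, Units.val_mk0, hy])⟩

private lemma S_nm {m : ℕ} (z : PR B Ω m) (a : Eqv B Ω X) [Fintype (Rt m a)] {u : Rt m a → Ωˣ}
    (hu : u ∈ Eqv B Ω (Rt m a)) :
    S z (a : X → Ωˣ) (nm (fun q : Rt m a => q.1.1) u) = 1 := by
  have := ctsSet_rt z.pos a
  rw [← S_proj_right z (fun g q => rfl) a.2 hu]
  have hα : (fun q : Rt m a => q.1.2) ∈ Eqv B Ω (Rt m a) := fun g q => rfl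
  have h1 : (a : X → Ωˣ) ∘ (fun q : Rt m a => q.1.1) = (fun q : Rt m a => q.1.2) ^ m := by
    funext q
    exact q.2.symm
  rw [h1]
  exact S_pow_left z hα hu

theorem S_steinberg {m : ℕ} (z : PR B Ω m) {a b : X → Ωˣ} (ha : a ∈ Eqv B Ω X)
    (hb : b ∈ Eqv B Ω X) (hab : ∀ x, (a x : Ω) + (b x : Ω) = 1) : S z a b = 1 := by
  classical
  let a' : Eqv B Ω X := ⟨a, ha⟩
  have hf := finite_rt z.pos a'
  have := Fintype.ofFinite (Rt m a')
  have h0 : ∀ q : Rt m a', (1 : Ω) - q.1.2 ≠ 0 := by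
    intro q h
    have h1 := q.2
    have h2 : q.1.2 = 1 := Units.ext (sub_eq_zero.1 h).symm
    rw [h2, one_pow] at h1
    have h3 := hab q.1.1
    have h4 : a q.1.1 = 1 := h1.symm
    rw [h4, Units.val_one, add_eq_left] at h3
    exact (b q.1.1).ne_zero h3
  let u : Rt m a' → Ωˣ := fun q => Units.mk0 _ (h0 q)
  have hu : u ∈ Eqv B Ω (Rt m a') := by
    intro g q
    refine Units.ext ?_
    show (1 : Ω) - g (q.1.2 : Ω) = g (1 - q.1.2)
    rw [map_sub, map_one]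
  have h1 := S_nm z a' hu
  have h2 : nm (fun q : Rt m a' => q.1.1) u = b := by
    funext x
    obtain ⟨ξ, hξ⟩ := exists_root z.pos (a x)
    refine Units.ext ?_
    rw [nm, Units.coe_prod]
    have h3 := prod_rt z a' (fun t => 1 - t) x hξ
    have h4 := (IsPrimitiveRoot.coe_units_iff.2 z.prim).pow_sub_pow_eq_prod_sub_mul
      (1 : Ω) (ξ : Ω) z.pos
    rw [← h4, one_pow, ← Units.val_pow_eq_pow_val, hξ] at h3
    rw [show (b x : Ω) = 1 - a x from eq_sub_of_add_eq' (hab x), ← h3]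
    rfl
  rw [h2] at h1
  exact h1

theorem S_neg {m : ℕ} (z : PR B Ω m) {a : X → Ωˣ} (ha : a ∈ Eqv B Ω X) :
    S z a (-a) = 1 := by
  classical
  let a' : Eqv B Ω X := ⟨a, ha⟩
  have hf := finite_rt z.pos a'
  have := Fintype.ofFinite (Rt m a')
  let u : Rt m a' → Ωˣ := fun q => -q.1.2
  have hu : u ∈ Eqv B Ω (Rt m a') := neg_mem (fun g q => rfl)
  have h1 := S_nm z a' hu
  have h2 : nm (fun q : Rt m a' => q.1.1) u = -a := by
    funext x
    obtain ⟨ξ, hξ⟩ := exists_root z.pos (a x)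
    refine Units.ext ?_
    rw [nm, Units.coe_prod]
    have h3 := prod_rt z a' (fun t => -t) x hξ
    have h4 := (IsPrimitiveRoot.coe_units_iff.2 z.prim).pow_sub_pow_eq_prod_sub_mul
      (0 : Ω) (ξ : Ω) z.pos
    simp only [zero_sub] at h4
    rw [← h4, zero_pow z.pos.ne', zero_sub, ← Units.val_pow_eq_pow_val, hξ] at h3
    rw [Pi.neg_apply, Units.val_neg, ← h3]
    exact prod_congr rfl fun q _ => Units.val_neg _
  rw [h2] at h1
  exact h1

theorem S_swap {m : ℕ} (z : PR B Ω m) {a b : X → Ωˣ} (ha : a ∈ Eqv B Ω X)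
    (hb : b ∈ Eqv B Ω X) : S z a b * S z b a = 1 := by
  have h := S_neg z (mul_mem ha hb)
  have e1 : -(a * b) = -a * b := (neg_mul a b).symm
  have e2 : -(a * b) = a * -b := (mul_neg a b).symm
  rw [S_mul_left z ha hb (neg_mem (mul_mem ha hb))] at h
  have h1 : S z a (-(a * b)) = S z a b := by
    rw [e1, S_mul_right z ha (neg_mem ha) hb, S_neg z ha]
    exact one_mul (S z a b)
  have h2 : S z b (-(a * b)) = S z b a := by
    rw [e2, S_mul_right z hb ha (neg_mem hb), S_neg z hb]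
    exact mul_one (S z b a)
  rwa [h1, h2] at h

theorem S_self {m : ℕ} (z : PR B Ω m) {a : X → Ωˣ} (ha : a ∈ Eqv B Ω X) :
    S z a a = S z a (-1) := by
  have e1 : a = -1 * -a := by rw [neg_mul_neg, one_mul]
  have h1 : S z a (-1 * -a) = S z a (-1) := by
    rw [S_mul_right z ha (neg_mem (one_mem _)) (neg_mem ha), S_neg z ha]
    exact mul_one (S z a (-1))
  rw [← e1] at h1
  exact h1

end Pool.Agent.LibCoc63
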