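import Pool.Agent.LibCoc63.Defs

/-!
[COC S1] The symbol of equivariant functions is well defined.
-/

set_option autoImplicit false

open Finset

namespace Pool.Agent.LibCoc63

variable {B Ω : Type*} [Field B] [Field Ω] [Algebra B Ω]
variable {X : Type*} [Fintype X] [MulAction (Ω ≃ₐ[B] Ω) X]

private lemma exists_exp {m : ℕ} (z : PR B Ω m) {q : Ωˣ} (hq : q ^ m = 1) :
    ∃ i : ℤ, q = z.ζ ^ i := by
  have : NeZero m := ⟨z.pos.ne'⟩
  have h1 : IsPrimitiveRoot (z.ζ : Ω) m := IsPrimitiveRoot.coe_units_iff.2 z.prim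
  have h2 : (q : Ω) ^ m = 1 := by
    rw [← Units.val_pow_eq_pow_val, hq, Units.val_one]
  obtain ⟨i, _, hi⟩ := h1.eq_pow_of_pow_eq_one h2
  refine ⟨i, Units.ext ?_⟩
  rw [zpow_natCast, Units.val_pow_eq_pow_val, hi]

private lemma zpow_eq {m : ℕ} (z : PR B Ω m) {i j : ℤ} (h : z.ζ ^ i = z.ζ ^ j) :
    (m : ℤ) ∣ i - j := by
  rw [← z.prim.zpow_eq_one_iff_dvd, zpow_sub, h, mul_inv_cancel]

private lemma act_zeta {m : ℕ} (z : PR B Ω m) (g : Ω ≃ₐ[B] Ω) (i : ℤ) :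
    act g (z.ζ ^ i) = z.ζ ^ i := by
  rw [map_zpow, z.fix]

theorem comp_exists [IsAlgClosed Ω] [CtsSet B Ω X] {m : ℕ} (z : PR B Ω m) {a : X → Ωˣ}
    (ha : a ∈ Eqv B Ω X) (b : X → Ωˣ) : ∃ c, Comp z a b c := by
  classical
  have hξ : ∀ x, ∃ ξ : Ωˣ, ξ ^ m = a x := by
    intro x
    obtain ⟨y, hy⟩ := IsAlgClosed.exists_pow_nat_eq (a x : Ω) z.pos
    have hy0 : y ≠ 0 := by
      rintro rfl
      rw [zero_pow z.pos.ne'] at hy
      exact (a x).ne_zero hy.symm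
    exact ⟨Units.mk0 y hy0, Units.ext (by rw [Units.val_pow_eq_pow_val, Units.val_mk0, hy])⟩
  choose ξ hξ using hξ
  let q : (Ω ≃ₐ[B] Ω) → X → Ωˣ := fun g x => act g (ξ (g⁻¹ • x)) * (ξ x)⁻¹
  have hq : ∀ g x, q g x ^ m = 1 := by
    intro g x
    have h1 : act g (a (g⁻¹ • x)) = a x := by
      rw [← ha g, smul_inv_smul]
    show (act g (ξ (g⁻¹ • x)) * (ξ x)⁻¹) ^ m = 1
    rw [mul_pow, ← map_pow, hξ, h1, inv_pow, hξ, mul_inv_cancel]
  let e : Ωˣ → ℤ := fun u => if h : ∃ i : ℤ, u = z.ζ ^ i then h.choose else 0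
  have he : ∀ u : Ωˣ, (∃ i : ℤ, u = z.ζ ^ i) → u = z.ζ ^ e u := by
    intro u h
    show u = z.ζ ^ (if h : ∃ i : ℤ, u = z.ζ ^ i then h.choose else 0)
    rw [dif_pos h]
    exact h.choose_spec
  let χ : (Ω ≃ₐ[B] Ω) → X → ℤ := fun g x => e (q g x)
  have h1 : ∀ g x, act g (ξ (g⁻¹ • x)) = z.ζ ^ χ g x * ξ x := by
    intro g x
    have h2 := he _ (exists_exp z (hq g x))
    show _ = z.ζ ^ e (q g x) * ξ x
    rw [← h2]
    show _ = act g (ξ (g⁻¹ • x)) * (ξ x)⁻¹ * ξ x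
    rw [inv_mul_cancel_right]
  have h2 : ∀ g h x, ∃ k : ℤ, χ g x + χ h (g⁻¹ • x) - χ (g * h) x = m * k := by
    intro g h x
    refine zpow_eq z ?_
    have h3 := h1 (g * h) x
    rw [act_mul, mul_inv_rev, ← smul_smul, h1 h (g⁻¹ • x), map_mul, act_zeta, h1 g x,
      ← mul_assoc, ← zpow_add] at h3
    have h4 := mul_right_cancel h3
    rw [add_comm (χ g x)]
    exact h4
  choose k hk using h2
  refine ⟨fun g h => ∏ x, b x ^ k g h x, ξ, χ, k, ?_, hξ, h1, hk, fun g h => rfl⟩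
  obtain ⟨T, hT⟩ := CtsSet.inv_smul_cts (B := B) (Ω := Ω) (X := X)
  refine ⟨T ∪ univ.image fun y => (ξ y : Ω), fun g g' h => ?_⟩
  funext x
  show e (act g (ξ (g⁻¹ • x)) * (ξ x)⁻¹) = e (act g' (ξ (g'⁻¹ • x)) * (ξ x)⁻¹)
  rw [hT g g' (fun t ht => h t (mem_union_left _ ht))]
  congr 2
  refine Units.ext ?_
  rw [coe_act, coe_act]
  exact h _ (mem_union_right _ (mem_image_of_mem _ (mem_univ _)))

theorem comp_unique [CtsSet B Ω X] {m : ℕ} (z : PR B Ω m) {a b : X → Ωˣ}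
    (hb : b ∈ Eqv B Ω X) {c c' : (Ω ≃ₐ[B] Ω) → (Ω ≃ₐ[B] Ω) → Ωˣ}
    (h : Comp z a b c) (h' : Comp z a b c') : cl c = cl c' := by
  classical
  obtain ⟨ξ, χ, k, hχ, h1, h2, h3, h4⟩ := h
  obtain ⟨ξ', χ', k', hχ', h1', h2', h3', h4'⟩ := h'
  have hm : (m : ℤ) ≠ 0 := by exact_mod_cast z.pos.ne'
  have hs : ∀ x, ∃ i : ℤ, ξ' x * (ξ x)⁻¹ = z.ζ ^ i := by
    intro x
    refine exists_exp z ?_
    rw [mul_pow, h1', inv_pow, h1, mul_inv_cancel]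
  choose s hs using hs
  have hs' : ∀ x, ξ' x = z.ζ ^ s x * ξ x := by
    intro x
    rw [← hs, inv_mul_cancel_right]
  let u : (Ω ≃ₐ[B] Ω) → X → ℤ := fun g x => χ' g x + s x - (s (g⁻¹ • x) + χ g x)
  have hu : ∀ g x, (m : ℤ) ∣ u g x := by
    intro g x
    refine zpow_eq z ?_
    have h5 := h2' g x
    rw [hs', hs', map_mul, act_zeta, h2, ← mul_assoc, ← zpow_add, ← mul_assoc, ← zpow_add] at h5
    exact (mul_right_cancel h5).symm
  let t : (Ω ≃ₐ[B] Ω) → X → ℤ := fun g x => u g x / m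
  have ht : ∀ g x, (m : ℤ) * t g x = χ' g x + s x - (s (g⁻¹ • x) + χ g x) := fun g x =>
    Int.mul_ediv_cancel' (hu g x)
  have hk : ∀ g h x, k' g h x = k g h x + (t g x + t h (g⁻¹ • x) - t (g * h) x) := by
    intro g h x
    refine mul_left_cancel₀ hm ?_
    have e1 := h3 g h x
    have e2 := h3' g h x
    have e3 := ht g x
    have e4 := ht h (g⁻¹ • x)
    have e5 := ht (g * h) x
    rw [mul_inv_rev, ← smul_smul] at e5
    linear_combination (-1) * e2 + e1 - e3 - e4 + e5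
  let β : (Ω ≃ₐ[B] Ω) → Ωˣ := fun g => ∏ x, b x ^ t g x
  have hcs : Cts (fun (g : Ω ≃ₐ[B] Ω) (x : X) => s (g⁻¹ • x)) := by
    obtain ⟨T, hT⟩ := CtsSet.inv_smul_cts (B := B) (Ω := Ω) (X := X)
    refine ⟨T, fun g g' h => ?_⟩
    funext x
    show s (g⁻¹ • x) = s (g'⁻¹ • x)
    rw [hT g g' h]
  have hβ : Cts β := by
    have h5 := (hχ'.prodMk (hcs.prodMk hχ)).comp
      (fun p => ∏ x, b x ^ ((p.1 x + s x - (p.2.1 x + p.2.2 x)) / (m : ℤ)))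
    exact h5
  have hact : ∀ g h : Ω ≃ₐ[B] Ω, act g (β h) = ∏ x, b x ^ t h (g⁻¹ • x) := by
    intro g h
    show act g (∏ x, b x ^ t h x) = _
    rw [map_prod]
    refine Fintype.prod_equiv (MulAction.toPerm g) _ _ fun x => ?_
    rw [map_zpow, MulAction.toPerm_apply, inv_smul_smul, hb g x]
  refine (cl_eq hβ fun g h => ?_).symm
  show _ = c g h * (β g * act g (β h) * (β (g * h))⁻¹)
  rw [h4, h4', hact]
  show _ = (∏ x, b x ^ k g h x) * ((∏ x, b x ^ t g x) * (∏ x, b x ^ t h (g⁻¹ • x)) *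
    (∏ x, b x ^ t (g * h) x)⁻¹)
  rw [← prod_inv_distrib, ← prod_mul_distrib, ← prod_mul_distrib, ← prod_mul_distrib]
  refine prod_congr rfl fun x _ => ?_
  rw [hk, zpow_add, zpow_sub, zpow_add]

theorem S_eq [CtsSet B Ω X] {m : ℕ} (z : PR B Ω m) {a b : X → Ωˣ}
    (hb : b ∈ Eqv B Ω X) {c : (Ω ≃ₐ[B] Ω) → (Ω ≃ₐ[B] Ω) → Ωˣ} (h : Comp z a b c) :
    S z a b = cl c := by
  have h1 : ∃ c, Comp z a b c := ⟨c, h⟩
  rw [S, dif_pos h1]
  exact comp_unique z hb h1.choose_spec h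

end Pool.Agent.LibCoc63
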