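import Pool.Agent.LibCoc63.Sym1

/-!
[COC S2] The symbol is bimultiplicative, `S (α^m) b = 1`, and the change of the root of unity.
-/

set_option autoImplicit false

open Finset

namespace Pool.Agent.LibCoc63

variable {B Ω : Type*} [Field B] [Field Ω] [Algebra B Ω] [IsAlgClosed Ω]
variable {X : Type*} [Fintype X] [MulAction (Ω ≃ₐ[B] Ω) X] [CtsSet B Ω X]

theorem S_mul_left {m : ℕ} (z : PR B Ω m) {a a' b : X → Ωˣ} (ha : a ∈ Eqv B Ω X)
    (ha' : a' ∈ Eqv B Ω X) (hb : b ∈ Eqv B Ω X) : S z (a * a') b = S z a b * S z a' b := by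
  obtain ⟨c, hc⟩ := comp_exists z ha b
  obtain ⟨c', hc'⟩ := comp_exists z ha' b
  rw [S_eq z hb hc, S_eq z hb hc', ← cl_mul]
  obtain ⟨ξ, χ, k, hχ, h1, h2, h3, h4⟩ := hc
  obtain ⟨ξ', χ', k', hχ', h1', h2', h3', h4'⟩ := hc'
  refine S_eq z hb ⟨fun x => ξ x * ξ' x, fun g x => χ g x + χ' g x,
    fun g h x => k g h x + k' g h x, hχ.comp₂ hχ' (fun u v x => u x + v x), fun x => ?_,
    fun g x => ?_, fun g h x => ?_, fun g h => ?_⟩
  · rw [mul_pow, h1, h1', Pi.mul_apply]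
  · rw [map_mul, h2, h2', zpow_add]
    exact mul_mul_mul_comm _ _ _ _
  · linear_combination h3 g h x + h3' g h x
  · rw [Pi.mul_apply, Pi.mul_apply, h4, h4', ← prod_mul_distrib]
    exact prod_congr rfl fun x _ => (zpow_add _ _ _).symm

theorem S_mul_right {m : ℕ} (z : PR B Ω m) {a b b' : X → Ωˣ} (ha : a ∈ Eqv B Ω X)
    (hb : b ∈ Eqv B Ω X) (hb' : b' ∈ Eqv B Ω X) : S z a (b * b') = S z a b * S z a b' := by
  obtain ⟨c, ξ, χ, k, hχ, h1, h2, h3, h4⟩ := comp_exists z ha b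
  have hc' : Comp z a b' (fun g h => ∏ x, b' x ^ k g h x) :=
    ⟨ξ, χ, k, hχ, h1, h2, h3, fun g h => rfl⟩
  rw [S_eq z hb ⟨ξ, χ, k, hχ, h1, h2, h3, h4⟩, S_eq z hb' hc', ← cl_mul]
  refine S_eq z (mul_mem hb hb') ⟨ξ, χ, k, hχ, h1, h2, h3, fun g h => ?_⟩
  rw [Pi.mul_apply, Pi.mul_apply, h4, ← prod_mul_distrib]
  exact prod_congr rfl fun x _ => (mul_zpow _ _ _).symm

theorem S_one_left {m : ℕ} (z : PR B Ω m) {b : X → Ωˣ} (hb : b ∈ Eqv B Ω X) :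
    S z 1 b = 1 := by
  have h : Comp z 1 b 1 := by
    refine ⟨1, 0, 0, ⟨∅, fun _ _ _ => rfl⟩, fun x => ?_, fun g x => ?_, fun g h x => ?_,
      fun g h => ?_⟩
    · rw [Pi.one_apply, one_pow]
    · rw [Pi.one_apply, Pi.one_apply, map_one, mul_one]
      exact (zpow_zero _).symm
    · show (0 : ℤ) + 0 - 0 = m * 0
      ring
    · exact (prod_eq_one fun x _ => zpow_zero _).symm
  rw [S_eq z hb h]
  rfl

theorem S_one_right {m : ℕ} (z : PR B Ω m) {a : X → Ωˣ} (ha : a ∈ Eqv B Ω X) :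
    S z a 1 = 1 := by
  obtain ⟨c, ξ, χ, k, hχ, h1, h2, h3, h4⟩ := comp_exists z ha 1
  have h : Comp z a 1 1 :=
    ⟨ξ, χ, k, hχ, h1, h2, h3, fun g h => (prod_eq_one fun x _ => one_zpow _).symm⟩
  rw [S_eq z (one_mem _) h]
  rfl

theorem S_inv_left {m : ℕ} (z : PR B Ω m) {a b : X → Ωˣ} (ha : a ∈ Eqv B Ω X)
    (hb : b ∈ Eqv B Ω X) : S z a⁻¹ b = (S z a b)⁻¹ := by
  have h := S_mul_left z (inv_mem ha) ha hb
  rw [inv_mul_cancel, S_one_left z hb] at h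
  exact eq_inv_of_mul_eq_one_left h.symm

theorem S_inv_right {m : ℕ} (z : PR B Ω m) {a b : X → Ωˣ} (ha : a ∈ Eqv B Ω X)
    (hb : b ∈ Eqv B Ω X) : S z a b⁻¹ = (S z a b)⁻¹ := by
  have h := S_mul_right z ha (inv_mem hb) hb
  rw [inv_mul_cancel, S_one_right z ha] at h
  exact eq_inv_of_mul_eq_one_left h.symm

theorem S_pow_left {m : ℕ} (z : PR B Ω m) {a b : X → Ωˣ} (ha : a ∈ Eqv B Ω X)
    (hb : b ∈ Eqv B Ω X) : S z (a ^ m) b = 1 := by
  have h : Comp z (a ^ m) b 1 := by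
    refine ⟨a, 0, 0, ⟨∅, fun _ _ _ => rfl⟩, fun x => rfl, fun g x => ?_, fun g h x => ?_,
      fun g h => ?_⟩
    · rw [← ha g, smul_inv_smul]
      show _ = z.ζ ^ (0 : ℤ) * _
      rw [zpow_zero, one_mul]
    · show (0 : ℤ) + 0 - 0 = m * 0
      ring
    · exact (prod_eq_one fun x _ => zpow_zero _).symm
  rw [S_eq z hb h]
  rfl

theorem S_npow_left {m : ℕ} (z : PR B Ω m) {a b : X → Ωˣ} (ha : a ∈ Eqv B Ω X)
    (hb : b ∈ Eqv B Ω X) (n : ℕ) : S z (a ^ n) b = S z a b ^ n := by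
  induction n with
  | zero => rw [pow_zero, pow_zero, S_one_left z hb]
  | succ n ih => rw [pow_succ, pow_succ, S_mul_left z (pow_mem ha n) ha hb, ih]

theorem S_pow_eq_one {m : ℕ} (z : PR B Ω m) {a b : X → Ωˣ} (ha : a ∈ Eqv B Ω X)
    (hb : b ∈ Eqv B Ω X) : S z a b ^ m = 1 := by
  rw [← S_npow_left z ha hb, S_pow_left z ha hb]

theorem S_root {m m' n : ℕ} (z : PR B Ω m) (z' : PR B Ω m') (hm : m' = m * n)
    (hz : z.ζ = z'.ζ ^ n) {a b : X → Ωˣ} (ha : a ∈ Eqv B Ω X) (hb : b ∈ Eqv B Ω X) :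
    S z a b = S z' a b ^ n := by
  obtain ⟨c, hc⟩ := comp_exists z' ha b
  rw [S_eq z' hb hc, ← cl_pow]
  obtain ⟨ξ, χ, k, hχ, h1, h2, h3, h4⟩ := hc
  refine S_eq z hb ⟨fun x => ξ x ^ n, χ, fun g h x => n * k g h x, hχ, fun x => ?_,
    fun g x => ?_, fun g h x => ?_, fun g h => ?_⟩
  · rw [← pow_mul, mul_comm, ← hm, h1]
  · rw [map_pow, h2, mul_pow, hz, ← zpow_natCast (z'.ζ ^ χ g x) n, ← zpow_mul,
      ← zpow_natCast z'.ζ n, ← zpow_mul, mul_comm (χ g x)]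
  · rw [h3, hm]
    push_cast
    ring
  · rw [Pi.pow_apply, Pi.pow_apply, h4, ← prod_pow]
    refine prod_congr rfl fun x _ => ?_
    rw [← zpow_natCast (b x ^ k g h x) n, ← zpow_mul, mul_comm]

end Pool.Agent.LibCoc63
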